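import Pool.Agent.WCal.FinC

/-! # Closure lemmas for `Finset α`; finiteness is internal

(problem MP_ba5606_gt, ARH Part II, block 0; architect helper69)

PROOFS.
* `a ∈ s` is `E (cd a) (cd s)` (`cd_fin`, `cd_inj`): `IP.memFin` by `IP.of_sat`. `IF.insert`, `IF.finUnion`, `IF.filter`, `IF.finImage` by extensionality:
  `s' = insert a s` iff `∀ b, b ∈ s' ↔ b = a ∨ b ∈ s`, and so on.
* `IF.card`: `card s = n` iff there is a list `l` of length `n` without repetitions (`∀ i j, l[i]? = l[j]? → i = j ∨ l[i]? = none`) with `∀ a, a ∈ s ↔ a ∈ l`.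
* `Cnt.finset`: image of the set of lists (`Cnt.list`) under `List.toFinset` (graph: `∀ a, a ∈ s ↔ a ∈ l`).
* `IP.fin`: `S` is finite iff `∃ s : Finset α, ∀ a, a ∈ S ↔ a ∈ s`. -/

universe u v w x

namespace WCal

open STP WM

variable {N : Type u} [WM N] {α : Type v} {β : Type w} {γ : Type x} [WTy N α] [WTy N β] [WTy N γ]

private theorem pfst {f : γ → α × β} (hf : IF N f) : IF N (fun c => (f c).1) :=
  IF.comp IF.fst hf

private theorem psnd {f : γ → α × β} (hf : IF N f) : IF N (fun c => (f c).2) :=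
  IF.comp IF.snd hf

theorem cd_fin (s : Finset α) (z : N) : E z (cd N s) ↔ ∃ a ∈ s, cd N a = z :=
  (exists_cd_fin N s).choose_spec z

private theorem E_cd_fin {a : α} {s : Finset α} : E (cd N a) (cd N s) ↔ a ∈ s := by
  rw [cd_fin]
  constructor
  · rintro ⟨b, hb, h⟩
    rwa [← cd_inj.1 h]
  · intro h
    exact ⟨a, h, rfl⟩

theorem IP.memFin {f : γ → α} {s : γ → Finset α} (hf : IF N f) (hs : IF N s) :
    IP N (fun c => f c ∈ s c) := by
  have h : IP N (fun p : α × Finset α => p.1 ∈ p.2) := by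
    refine IP.of_sat (Fml.ex (Fml.ex (Fml.an (fOP 2 1 0) (.mem 1 0)))) (fun _ => rg N α)
      fun p => ?_
    simp only [sat_ex, sat_an, sat_mem, sat_fOP]
    change _ ↔ ∃ x y, IsOP E (cd N p) x y ∧ E x y
    constructor
    · intro h
      exact ⟨cd N p.1, cd N p.2, isOP_op _ _, E_cd_fin.2 h⟩
    · rintro ⟨x, y, h1, h2⟩
      rw [isOP_iff] at h1
      have h4 : op (cd N p.1) (cd N p.2) = op x y := h1
      obtain ⟨rfl, rfl⟩ := op_inj.1 h4
      exact E_cd_fin.1 h2
  exact IP.comp2 (P := fun (a : α) (t : Finset α) => a ∈ t) h hf hs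

open Classical in
theorem IF.insert {f : γ → α} {s : γ → Finset α} (hf : IF N f) (hs : IF N s) :
    IF N (fun c => Insert.insert (f c) (s c)) := by
  refine IF.ofP (Q := fun (c : γ) (t : Finset α) => ∀ b : α, b ∈ t ↔ b = f c ∨ b ∈ s c) ?_ ?_
  · refine IP.all (P := fun (p : γ × Finset α) (b : α) => b ∈ p.2 ↔ b = f p.1 ∨ b ∈ s p.1) ?_
    exact IP.iff (IP.memFin IF.snd (psnd IF.fst)) (IP.or (IP.eq IF.snd (IF.comp hf (pfst IF.fst)))
      (IP.memFin IF.snd (IF.comp hs (pfst IF.fst))))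
  · intro c t
    constructor
    · intro h
      ext b
      rw [Finset.mem_insert, h b]
    · rintro rfl b
      exact Finset.mem_insert

open Classical in
theorem IF.finUnion {s t : γ → Finset α} (hs : IF N s) (ht : IF N t) : IF N (fun c => s c ∪ t c) := by
  refine IF.ofP (Q := fun (c : γ) (u : Finset α) => ∀ b : α, b ∈ u ↔ b ∈ s c ∨ b ∈ t c) ?_ ?_
  · refine IP.all (P := fun (p : γ × Finset α) (b : α) => b ∈ p.2 ↔ b ∈ s p.1 ∨ b ∈ t p.1) ?_
    exact IP.iff (IP.memFin IF.snd (psnd IF.fst))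
      (IP.or (IP.memFin IF.snd (IF.comp hs (pfst IF.fst)))
      (IP.memFin IF.snd (IF.comp ht (pfst IF.fst))))
  · intro c u
    constructor
    · intro h
      ext b
      rw [Finset.mem_union, h b]
    · rintro rfl b
      exact Finset.mem_union

open Classical in
theorem IF.filter {s : γ → Finset α} {P : γ → α → Prop} (hs : IF N s)
    (hP : IP N (fun p : γ × α => P p.1 p.2)) : IF N (fun c => (s c).filter (P c)) := by
  refine IF.ofP (Q := fun (c : γ) (u : Finset α) => ∀ b : α, b ∈ u ↔ b ∈ s c ∧ P c b) ?_ ?_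
  · refine IP.all (P := fun (p : γ × Finset α) (b : α) => b ∈ p.2 ↔ b ∈ s p.1 ∧ P p.1 b) ?_
    exact IP.iff (IP.memFin IF.snd (psnd IF.fst))
      (IP.and (IP.memFin IF.snd (IF.comp hs (pfst IF.fst)))
      (IP.comp hP (IF.pair (pfst IF.fst) IF.snd)))
  · intro c u
    constructor
    · intro h
      ext b
      rw [Finset.mem_filter, h b]
    · rintro rfl b
      exact Finset.mem_filter

open Classical in
theorem IF.finImage {s : γ → Finset α} {f : γ → α → β} (hs : IF N s)
    (hf : IF N (fun p : γ × α => f p.1 p.2)) : IF N (fun c => (s c).image (f c)) := by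
  refine IF.ofP (Q := fun (c : γ) (u : Finset β) => ∀ b : β, b ∈ u ↔ ∃ a : α, a ∈ s c ∧ f c a = b)
    ?_ ?_
  · refine IP.all (P := fun (p : γ × Finset β) (b : β) => b ∈ p.2 ↔
      ∃ a : α, a ∈ s p.1 ∧ f p.1 a = b) ?_
    refine IP.iff (IP.memFin IF.snd (psnd IF.fst)) ?_
    refine IP.ex (P := fun (q : (γ × Finset β) × β) (a : α) => a ∈ s q.1.1 ∧ f q.1.1 a = q.2) ?_
    refine IP.and (IP.memFin IF.snd (IF.comp hs (pfst (pfst IF.fst)))) ?_
    exact IP.eq (IF.comp hf (IF.pair (pfst (pfst IF.fst)) IF.snd)) (psnd IF.fst)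
  · intro c u
    constructor
    · intro h
      ext b
      rw [Finset.mem_image, h b]
    · rintro rfl b
      exact Finset.mem_image

theorem IF.card {s : γ → Finset α} (hs : IF N s) : IF N (fun c => (s c).card) := by
  classical
  refine IF.ofP (Q := fun (c : γ) (n : ℕ) => ∃ l : List α, l.length = n ∧
    (∀ i j : ℕ, l[i]? = l[j]? → i = j ∨ l[i]? = none) ∧ ∀ a : α, a ∈ l ↔ a ∈ s c) ?_ ?_
  · refine IP.ex (P := fun (p : γ × ℕ) (l : List α) => l.length = p.2 ∧
      (∀ i j : ℕ, l[i]? = l[j]? → i = j ∨ l[i]? = none) ∧ ∀ a : α, a ∈ l ↔ a ∈ s p.1) ?_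
    refine IP.and (IP.eq (IF.length IF.snd) (psnd IF.fst)) (IP.and ?_ ?_)
    · refine IP.all (P := fun (q : (γ × ℕ) × List α) (i : ℕ) => ∀ j : ℕ, q.2[i]? = q.2[j]? →
        i = j ∨ q.2[i]? = none) ?_
      refine IP.all (P := fun (q : ((γ × ℕ) × List α) × ℕ) (j : ℕ) => q.1.2[q.2]? = q.1.2[j]? →
        q.2 = j ∨ q.1.2[q.2]? = none) ?_
      have h1 : IF N (fun p : (((γ × ℕ) × List α) × ℕ) × ℕ => p.1.1.2) := psnd (pfst IF.fst)
      have h2 : IF N (fun p : (((γ × ℕ) × List α) × ℕ) × ℕ => p.1.2) := psnd IF.fst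
      exact IP.imp (IP.eq (IF.getElem? h1 h2) (IF.getElem? h1 IF.snd))
        (IP.or (IP.eq h2 IF.snd) (IP.eq (IF.getElem? h1 h2) (IF.const none)))
    · refine IP.all (P := fun (q : (γ × ℕ) × List α) (a : α) => a ∈ q.2 ↔ a ∈ s q.1.1) ?_
      exact IP.iff (IP.memList IF.snd (psnd IF.fst))
        (IP.memFin IF.snd (IF.comp hs (pfst (pfst IF.fst))))
  · intro c n
    constructor
    · rintro ⟨l, h1, h2, h3⟩
      have h4 : l.Nodup := by
        rw [List.nodup_iff_getElem?_ne_getElem?]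
        intro i j hij hj h5
        rcases h2 i j h5 with h6 | h6
        · omega
        · rw [List.getElem?_eq_none_iff] at h6
          omega
      have h5 : l.toFinset = s c := by
        ext a
        rw [List.mem_toFinset, h3 a]
      rw [← h5, List.toFinset_card_of_nodup h4, h1]
    · rintro rfl
      refine ⟨(s c).toList, Finset.length_toList _, fun i j h => ?_, fun a => Finset.mem_toList⟩
      by_contra hcon
      push Not at hcon
      obtain ⟨h1, h2⟩ := hcon
      have h3 := (s c).nodup_toList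
      rw [List.nodup_iff_getElem?_ne_getElem?] at h3
      have hi : i < (s c).toList.length := by
        by_contra hc
        exact h2 (List.getElem?_eq_none_iff.2 (not_lt.1 hc))
      have hj : j < (s c).toList.length := by
        by_contra hc
        exact h2 (h.trans (List.getElem?_eq_none_iff.2 (not_lt.1 hc)))
      rcases lt_or_gt_of_ne h1 with h4 | h4
      · exact h3 i j h4 hj h
      · exact h3 j i h4 hi h.symm

theorem Cnt.finset {S : St N α} (hS : Cnt S) {T : St N (Finset α)} (hT : ∀ s ∈ T, ∀ a ∈ s, a ∈ S) :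
    Cnt T := by
  classical
  have h1 : IP N (fun l : List α => l ∈ {l : List α | ∀ a ∈ l, a ∈ S}) := by
    refine IP.all (P := fun (l : List α) (a : α) => a ∈ l → a ∈ S) ?_
    exact IP.imp (IP.memList IF.snd IF.fst) (IP.mem IF.snd (IF.const S))
  have h2 : Cnt (⟨{l : List α | ∀ a ∈ l, a ∈ S}, h1⟩ : St N (List α)) :=
    Cnt.list hS fun l hl => hl
  have h3 : IF N (fun l : List α => l.toFinset) := by
    refine IF.ofP (Q := fun (l : List α) (s : Finset α) => ∀ a : α, a ∈ s ↔ a ∈ l) ?_ ?_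
    · refine IP.all (P := fun (p : List α × Finset α) (a : α) => a ∈ p.2 ↔ a ∈ p.1) ?_
      exact IP.iff (IP.memFin IF.snd (psnd IF.fst)) (IP.memList IF.snd (pfst IF.fst))
    · intro l s
      constructor
      · intro h
        ext a
        rw [List.mem_toFinset, h a]
      · rintro rfl a
        exact List.mem_toFinset
  refine Cnt.image h3 h2 fun s hs => ⟨s.toList, ?_, Finset.toList_toFinset s⟩
  intro a ha
  exact hT s hs a (Finset.mem_toList.1 ha)

/-- finiteness is internal -/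
theorem IP.fin {S : γ → St N α} (hS : IF N S) : IP N (fun c => (S c).s.Finite) := by
  classical
  refine IP.congr (P := fun c => ∃ t : Finset α, ∀ a : α, a ∈ S c ↔ a ∈ t) (fun c => ?_) ?_
  · constructor
    · rintro ⟨t, ht⟩
      exact t.finite_toSet.subset fun a ha => (ht a).1 ha
    · intro h
      exact ⟨h.toFinset, fun a => (Set.Finite.mem_toFinset h).symm⟩
  · refine IP.ex (P := fun (c : γ) (t : Finset α) => ∀ a : α, a ∈ S c ↔ a ∈ t) ?_
    refine IP.all (P := fun (p : γ × Finset α) (a : α) => a ∈ S p.1 ↔ a ∈ p.2) ?_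
    exact IP.iff (IP.mem IF.snd (IF.comp hS (pfst IF.fst))) (IP.memFin IF.snd (psnd IF.fst))

end WCal
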