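import Pool.Agent.WCal.ReA

/-! # Real numbers: arithmetic, suprema

(problem MP_ba5606_gt, ARH Part II, block 0; architect helper69)

PROOFS (always the predicate `q < value`; `q, r, s` rational; closure lemmas and `Std`).
* `IR.add`: `q < x + y` iff `∃ r s, r < x ∧ s < y ∧ q ≤ r + s` (≤ as `¬ (r + s < q)`). `IR.neg`: `q < -x` iff `∃ r, q < r ∧ ¬ (-r < x)`. `IR.sub`.
* `IR.max`: `q < x ∨ q < y`; `IR.min`: `∧`; `IR.abs`: `max x (-x)`.
* `IR.mul`: first for `0 ≤ x, 0 ≤ y`: `q < x * y` iff `q < 0 ∨ ∃ r s, 0 < r ∧ 0 < s ∧ r < x ∧ s < y ∧ q < r * s` or (`q < 0`); in general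
  `x * y = max x 0 * max y 0 - max x 0 * max (-y) 0 - max (-x) 0 * max y 0 + max (-x) 0 * max (-y) 0`.
* `IR.inv` (for positive functions): `q < 1 / x` iff `∃ r, q < r ∧ r * x < 1`-style condition; for instance `q < x⁻¹` iff `q < 0 ∨ ∃ r, q < r ∧ 0 < r ∧ x * r < 1` with `IR.mul` and `IP.ltR`
  (for `0 < x`). Check the boundary cases (`q = 0`: `0 < x⁻¹`, take a small `r`).
* `IR.iSup` (bounded above, `β` nonempty): `q < ⨆ b, f a b` iff `∃ b, q < f a b` (`lt_ciSup_iff`). `IR.iInf`: `⨅ b, f a b = -⨆ b, -f a b`. `IR.iSupP`: supremum over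
  the `b` with `P a b`: native `⨆ b, if P a b then f a b else c`.
* `IR.half_pow`: `(1/2)^n` is the value of an internal rational function (`IF.natRec` with `Std.mul`). `isR_*`: apply the rules to constant functions on `Unit`.
* `IR.lim`: limits of internal sequences: `q < lim` iff `∃ r, q < r ∧ ∃ m, ∀ n ≥ m, r < x n`. -/

universe u v w x

namespace WCal

open STP WM

variable {N : Type u} [WM N] [Std N] {α : Type v} {β : Type w} [WTy N α] [WTy N β]

section

variable {γ : Type x} [WTy N γ]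

omit [Std N] in
private theorem f11 : IF N (fun p : (α × β) × γ => p.1.1) :=
  IF.comp (g := fun p : α × β => p.1) IF.fst IF.fst

omit [Std N] in
private theorem f12 : IF N (fun p : (α × β) × γ => p.1.2) :=
  IF.comp (g := fun p : α × β => p.2) IF.snd IF.fst

private theorem qadd {f g : α → ℚ} (hf : IF N f) (hg : IF N g) : IF N (fun a => f a + g a) :=
  IF.comp2 (h := fun p q : ℚ => p + q) Std.add hf hg

private theorem qmul {f g : α → ℚ} (hf : IF N f) (hg : IF N g) : IF N (fun a => f a * g a) :=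
  IF.comp2 (h := fun p q : ℚ => p * q) Std.mul hf hg

private theorem qneg {f : α → ℚ} (hf : IF N f) : IF N (fun a => -f a) :=
  IF.comp (g := fun p : ℚ => -p) Std.neg hf

private theorem qsub {f g : α → ℚ} (hf : IF N f) (hg : IF N g) : IF N (fun a => f a - g a) :=
  (qadd hf (qneg hg)).congr fun a => (sub_eq_add_neg _ _).symm

omit [Std N] in
private theorem ofCut {f : α → ℝ} {P : α → ℚ → Prop} (hP : IP N (fun p : α × ℚ => P p.1 p.2))
    (h : ∀ (a : α) (q : ℚ), P a q ↔ (q : ℝ) < f a) : IR N f :=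
  IP.congr (fun p => h p.1 p.2) hP

private theorem ltQ {f : α → ℝ} {q : α → ℚ} (hf : IR N f) (hq : IF N q) :
    IP N (fun a => (q a : ℝ) < f a) :=
  IP.ltR (IR.rat hq) hf

end

theorem IR.add {f g : α → ℝ} (hf : IR N f) (hg : IR N g) : IR N (fun a => f a + g a) := by
  refine ofCut (P := fun a q => ∃ r : ℚ, (r : ℝ) < f a ∧ ((q - r : ℚ) : ℝ) < g a) ?_ ?_
  · refine IP.ex (P := fun (p : α × ℚ) (r : ℚ) => (r : ℝ) < f p.1 ∧ ((p.2 - r : ℚ) : ℝ) < g p.1) ?_
    exact (ltQ (IR.comp hf f11) IF.snd).and (ltQ (IR.comp hg f11) (qsub f12 IF.snd))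
  · intro a q
    constructor
    · rintro ⟨r, h1, h2⟩
      push_cast at h2
      linarith
    · intro h
      have h1 : (q : ℝ) - g a < f a := by linarith
      obtain ⟨r, h2, h3⟩ := exists_rat_btwn h1
      refine ⟨r, h3, ?_⟩
      push_cast
      linarith

theorem IR.neg {f : α → ℝ} (hf : IR N f) : IR N (fun a => -f a) := by
  refine ofCut (P := fun a q => ∃ r : ℚ, q < r ∧ ¬ ((-r : ℚ) : ℝ) < f a) ?_ ?_
  · refine IP.ex (P := fun (p : α × ℚ) (r : ℚ) => p.2 < r ∧ ¬ ((-r : ℚ) : ℝ) < f p.1) ?_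
    exact (IP.comp2 (P := fun p q : ℚ => p < q) Std.lt f12 IF.snd).and
      (ltQ (IR.comp hf f11) (qneg IF.snd)).not
  · intro a q
    constructor
    · rintro ⟨r, h1, h2⟩
      push_cast at h2
      have h3 : (q : ℝ) < r := by exact_mod_cast h1
      linarith [not_lt.1 h2]
    · intro h
      obtain ⟨r, h2, h3⟩ := exists_rat_btwn h
      refine ⟨r, by exact_mod_cast h2, ?_⟩
      push_cast
      linarith

theorem IR.sub {f g : α → ℝ} (hf : IR N f) (hg : IR N g) : IR N (fun a => f a - g a) := by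
  exact IR.congr (fun a => (sub_eq_add_neg _ _).symm) (IR.add hf (IR.neg hg))

theorem IR.max {f g : α → ℝ} (hf : IR N f) (hg : IR N g) : IR N (fun a => Max.max (f a) (g a)) := by
  exact ofCut (P := fun a q => (q : ℝ) < f a ∨ (q : ℝ) < g a) (IP.or hf hg)
    fun a q => lt_max_iff.symm

theorem IR.min {f g : α → ℝ} (hf : IR N f) (hg : IR N g) : IR N (fun a => Min.min (f a) (g a)) := by
  exact ofCut (P := fun a q => (q : ℝ) < f a ∧ (q : ℝ) < g a) (IP.and hf hg)
    fun a q => lt_min_iff.symm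

theorem IR.abs {f : α → ℝ} (hf : IR N f) : IR N (fun a => |f a|) := by
  exact IR.congr (fun a => abs_eq_max_neg.symm) (IR.max hf (IR.neg hf))

private theorem mul_nn {f g : α → ℝ} (hf : IR N f) (hg : IR N g) (h1 : ∀ a, 0 ≤ f a)
    (h2 : ∀ a, 0 ≤ g a) : IR N (fun a => f a * g a) := by
  refine ofCut (P := fun a q => q < 0 ∨ ∃ r : ℚ, ∃ s : ℚ, (0 < r ∧ 0 < s ∧ q < r * s) ∧
    (r : ℝ) < f a ∧ (s : ℝ) < g a) ?_ ?_
  · refine IP.or (IP.comp2 (P := fun p q : ℚ => p < q) Std.lt IF.snd (IF.const 0)) ?_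
    refine IP.ex (P := fun (p : α × ℚ) (r : ℚ) => ∃ s : ℚ, (0 < r ∧ 0 < s ∧ p.2 < r * s) ∧
      (r : ℝ) < f p.1 ∧ (s : ℝ) < g p.1) ?_
    refine IP.ex (P := fun (p : (α × ℚ) × ℚ) (s : ℚ) => (0 < p.2 ∧ 0 < s ∧ p.1.2 < p.2 * s) ∧
      (p.2 : ℝ) < f p.1.1 ∧ (s : ℝ) < g p.1.1) ?_
    have g1 : IF N (fun z : ((α × ℚ) × ℚ) × ℚ => z.1.1.1) :=
      IF.comp (g := fun p : (α × ℚ) × ℚ => p.1.1) f11 IF.fst
    have g2 : IF N (fun z : ((α × ℚ) × ℚ) × ℚ => z.1.1.2) :=
      IF.comp (g := fun p : (α × ℚ) × ℚ => p.1.2) f12 IF.fst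
    have g3 : IF N (fun z : ((α × ℚ) × ℚ) × ℚ => z.1.2) := f12
    exact ((IP.comp2 (P := fun p q : ℚ => p < q) Std.lt (IF.const 0) g3).and
      ((IP.comp2 (P := fun p q : ℚ => p < q) Std.lt (IF.const 0) IF.snd).and
        (IP.comp2 (P := fun p q : ℚ => p < q) Std.lt g2 (qmul g3 IF.snd)))).and
      ((ltQ (IR.comp hf g1) g3).and (ltQ (IR.comp hg g1) IF.snd))
  · intro a q
    constructor
    · rintro (h | ⟨r, s, ⟨hr, hs, hq⟩, h3, h4⟩)
      · have h5 : (q : ℝ) < 0 := by exact_mod_cast h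
        exact h5.trans_le (mul_nonneg (h1 a) (h2 a))
      · have h5 : (q : ℝ) < r * s := by exact_mod_cast hq
        have h6 : (0 : ℝ) < r := by exact_mod_cast hr
        have h7 : (0 : ℝ) < s := by exact_mod_cast hs
        exact h5.trans (mul_lt_mul'' h3 h4 h6.le h7.le)
    · intro h
      rcases lt_or_ge q 0 with h0 | h0
      · exact Or.inl h0
      · refine Or.inr ?_
        have h5 : (0 : ℝ) ≤ q := by exact_mod_cast h0
        have h6 : 0 < f a * g a := h5.trans_lt h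
        have h7 : 0 < g a := by
          rcases (h2 a).lt_or_eq with h8 | h8
          · exact h8
          · rw [← h8, mul_zero] at h6
            exact absurd h6 (lt_irrefl _)
        obtain ⟨r, hr1, hr2⟩ := exists_rat_btwn ((div_lt_iff₀ h7).2 h)
        have hr0 : (0 : ℝ) < r := (div_nonneg h5 h7.le).trans_lt hr1
        have h9 : (q : ℝ) < r * g a := (div_lt_iff₀ h7).1 hr1
        have h10 : (q : ℝ) / r < g a := by
          rw [div_lt_iff₀ hr0]
          linarith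
        obtain ⟨s, hs1, hs2⟩ := exists_rat_btwn h10
        have hs0 : (0 : ℝ) < s := (div_nonneg h5 hr0.le).trans_lt hs1
        have h11 : (q : ℝ) < s * r := (div_lt_iff₀ hr0).1 hs1
        refine ⟨r, s, ⟨by exact_mod_cast hr0, by exact_mod_cast hs0, ?_⟩, hr2, hs2⟩
        have h12 : (q : ℝ) < r * s := by linarith
        exact_mod_cast h12

theorem IR.mul {f g : α → ℝ} (hf : IR N f) (hg : IR N g) : IR N (fun a => f a * g a) := by
  have h0 : IR N (fun _ : α => (0 : ℝ)) := by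
    have h := IR.const (N := N) (α := α) (isR_rat (N := N) 0)
    rwa [Rat.cast_zero] at h
  have h1 := IR.max hf h0
  have h2 := IR.max (IR.neg hf) h0
  have h3 := IR.max hg h0
  have h4 := IR.max (IR.neg hg) h0
  have p1 := mul_nn h1 h3 (fun a => le_max_right _ _) fun a => le_max_right _ _
  have p2 := mul_nn h1 h4 (fun a => le_max_right _ _) fun a => le_max_right _ _
  have p3 := mul_nn h2 h3 (fun a => le_max_right _ _) fun a => le_max_right _ _
  have p4 := mul_nn h2 h4 (fun a => le_max_right _ _) fun a => le_max_right _ _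
  refine IR.congr (fun a => ?_) (IR.add (IR.sub (IR.sub p1 p2) p3) p4)
  have key : ∀ x : ℝ, x = Max.max x 0 - Max.max (-x) 0 := by
    intro x
    rcases le_total 0 x with hx | hx
    · rw [max_eq_left hx, max_eq_right (by linarith)]
      ring
    · rw [max_eq_right hx, max_eq_left (by linarith)]
      ring
  have e1 := key (f a)
  have e2 := key (g a)
  calc _ = (Max.max (f a) 0 - Max.max (-f a) 0) * (Max.max (g a) 0 - Max.max (-g a) 0) := by ring
    _ = f a * g a := by rw [← e1, ← e2]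

theorem IR.inv {f : α → ℝ} (hf : IR N f) (h : ∀ a, 0 < f a) : IR N (fun a => (f a)⁻¹) := by
  have h1 : IR N (fun _ : α × ℚ => (1 : ℝ)) := by
    have h := IR.const (N := N) (α := α × ℚ) (isR_rat (N := N) 1)
    rwa [Rat.cast_one] at h
  refine ofCut (P := fun a q => (q : ℝ) * f a < 1) ?_ ?_
  · exact IP.ltR (IR.mul (IR.rat IF.snd) (IR.comp hf IF.fst)) h1
  · intro a q
    rw [← one_div, lt_div_iff₀ (h a)]

theorem IR.div {f g : α → ℝ} (hf : IR N f) (hg : IR N g) (h : ∀ a, 0 < g a) :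
    IR N (fun a => f a / g a) := by
  exact IR.congr (fun a => (div_eq_mul_inv _ _).symm) (IR.mul hf (IR.inv hg h))

theorem IR.iSup [Nonempty β] {f : α → β → ℝ} (hf : IR N (fun p : α × β => f p.1 p.2))
    (hb : ∀ a, BddAbove (Set.range (f a))) : IR N (fun a => ⨆ b, f a b) := by
  refine ofCut (P := fun a q => ∃ b, (q : ℝ) < f a b) ?_ ?_
  · refine IP.ex (P := fun (p : α × ℚ) (b : β) => (p.2 : ℝ) < f p.1 b) ?_
    exact ltQ (IR.comp hf (IF.pair f11 IF.snd)) f12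
  · intro a q
    exact (lt_ciSup_iff (hb a)).symm

theorem IR.iInf [Nonempty β] {f : α → β → ℝ} (hf : IR N (fun p : α × β => f p.1 p.2))
    (hb : ∀ a, BddBelow (Set.range (f a))) : IR N (fun a => ⨅ b, f a b) := by
  refine ofCut (P := fun a q => ∃ r : ℚ, q < r ∧ ∀ b, (r : ℝ) ≤ f a b) ?_ ?_
  · refine IP.ex (P := fun (p : α × ℚ) (r : ℚ) => p.2 < r ∧ ∀ b, (r : ℝ) ≤ f p.1 b) ?_
    refine (IP.comp2 (P := fun p q : ℚ => p < q) Std.lt f12 IF.snd).and ?_
    refine IP.all (P := fun (p : (α × ℚ) × ℚ) (b : β) => (p.2 : ℝ) ≤ f p.1.1 b) ?_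
    have g1 : IF N (fun z : ((α × ℚ) × ℚ) × β => z.1.1.1) :=
      IF.comp (g := fun p : (α × ℚ) × ℚ => p.1.1) f11 IF.fst
    have g3 : IF N (fun z : ((α × ℚ) × ℚ) × β => z.1.2) := f12
    exact IP.leR (IR.rat g3) (IR.comp hf (IF.pair g1 IF.snd))
  · intro a q
    constructor
    · rintro ⟨r, h1, h2⟩
      have h3 : (q : ℝ) < r := by exact_mod_cast h1
      exact h3.trans_le (le_ciInf h2)
    · intro h
      obtain ⟨r, h1, h2⟩ := exists_rat_btwn h
      exact ⟨r, by exact_mod_cast h1, fun b => h2.le.trans (ciInf_le (hb a) b)⟩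

/-- the supremum of the values `f a b` with `P a b` (nonempty and bounded) -/
theorem IR.sSup {f : α → β → ℝ} (hf : IR N (fun p : α × β => f p.1 p.2)) {P : α → β → Prop}
    (hP : IP N (fun p : α × β => P p.1 p.2)) (hne : ∀ a, ∃ b, P a b)
    (hb : ∀ a, ∃ c, ∀ b, P a b → f a b ≤ c) : IR N (fun a => sSup {x | ∃ b, P a b ∧ x = f a b}) := by
  refine ofCut (P := fun a q => ∃ b, P a b ∧ (q : ℝ) < f a b) ?_ ?_
  · refine IP.ex (P := fun (p : α × ℚ) (b : β) => P p.1 b ∧ (p.2 : ℝ) < f p.1 b) ?_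
    exact (IP.comp2 (P := P) hP f11 IF.snd).and (ltQ (IR.comp hf (IF.pair f11 IF.snd)) f12)
  · intro a q
    have h1 : BddAbove {x | ∃ b, P a b ∧ x = f a b} := by
      obtain ⟨c, hc⟩ := hb a
      refine ⟨c, ?_⟩
      rintro x ⟨b, hb, rfl⟩
      exact hc b hb
    have h2 : {x | ∃ b, P a b ∧ x = f a b}.Nonempty := by
      obtain ⟨b, hb⟩ := hne a
      exact ⟨_, b, hb, rfl⟩
    rw [lt_csSup_iff h1 h2]
    constructor
    · rintro ⟨b, hb, h⟩
      exact ⟨_, ⟨b, hb, rfl⟩, h⟩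
    · rintro ⟨x, ⟨b, hb, rfl⟩, h⟩
      exact ⟨b, hb, h⟩

theorem IR.half_pow {f : α → ℕ} (hf : IF N f) : IR N (fun a => (1 / 2 : ℝ) ^ f a) := by
  have h1 : IF N (fun n : ℕ => (fun q : ℚ => q * (1 / 2))^[n] 1) :=
    IF.iter (qmul IF.id (IF.const _)) 1
  have h2 : ∀ n : ℕ, (fun q : ℚ => q * (1 / 2))^[n] 1 = (1 / 2) ^ n := by
    intro n
    induction n with
    | zero => simp
    | succ n ih =>
      rw [Function.iterate_succ_apply', ih, pow_succ]
  have h3 : IF N (fun a => (fun q : ℚ => q * (1 / 2))^[f a] 1) := IF.comp h1 hf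
  refine IR.congr (fun a => ?_) (IR.rat h3)
  rw [h2]
  push_cast
  rfl

theorem IR.lim {x : α → ℕ → ℝ} (hx : IR N (fun p : α × ℕ => x p.1 p.2)) {l : α → ℝ}
    (hl : ∀ a, Filter.Tendsto (x a) Filter.atTop (nhds (l a))) : IR N l := by
  refine ofCut (P := fun a q => ∃ r : ℚ, q < r ∧ ∃ m : ℕ, ∀ n : ℕ, m ≤ n → (r : ℝ) < x a n) ?_ ?_
  · refine IP.ex (P := fun (p : α × ℚ) (r : ℚ) =>
      p.2 < r ∧ ∃ m : ℕ, ∀ n : ℕ, m ≤ n → (r : ℝ) < x p.1 n) ?_
    refine (IP.comp2 (P := fun p q : ℚ => p < q) Std.lt f12 IF.snd).and ?_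
    refine IP.ex (P := fun (p : (α × ℚ) × ℚ) (m : ℕ) =>
      ∀ n : ℕ, m ≤ n → (p.2 : ℝ) < x p.1.1 n) ?_
    refine IP.all (P := fun (p : ((α × ℚ) × ℚ) × ℕ) (n : ℕ) =>
      p.2 ≤ n → (p.1.2 : ℝ) < x p.1.1.1 n) ?_
    have g1 : IF N (fun z : (((α × ℚ) × ℚ) × ℕ) × ℕ => z.1.1.1.1) :=
      IF.comp (g := fun p : ((α × ℚ) × ℚ) × ℕ => p.1.1.1)
        (IF.comp (g := fun p : (α × ℚ) × ℚ => p.1.1) f11 IF.fst) IF.fst
    have g2 : IF N (fun z : (((α × ℚ) × ℚ) × ℕ) × ℕ => z.1.1.2) :=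
      IF.comp (g := fun p : ((α × ℚ) × ℚ) × ℕ => p.1.2) f12 IF.fst
    have g3 : IF N (fun z : (((α × ℚ) × ℚ) × ℕ) × ℕ => z.1.2) := f12
    exact (IP.le g3 IF.snd).imp (ltQ (IR.comp hx (IF.pair g1 IF.snd)) g2)
  · intro a q
    constructor
    · rintro ⟨r, h1, m, h2⟩
      have h3 : (q : ℝ) < r := by exact_mod_cast h1
      refine h3.trans_le (ge_of_tendsto (hl a) ?_)
      filter_upwards [Filter.eventually_ge_atTop m] with n hn
      exact (h2 n hn).le
    · intro h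
      obtain ⟨r, h1, h2⟩ := exists_rat_btwn h
      obtain ⟨m, hm⟩ := Filter.eventually_atTop.1 ((hl a).eventually (lt_mem_nhds h2))
      exact ⟨r, by exact_mod_cast h1, m, hm⟩

end WCal
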