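import Pool.Agent.WCal.Rec

/-! # Internal well-orders, uncountable well-orders with countable initial segments

(problem MP_ba5606_gt, ARH Part II, block 0; architect helper69)

PROOFS.
* `exists_wo` (well-ordering theorem in the model). If `α` is empty: trivial. Let `f` be a choice function for nonempty internal sets
  (`choice_set`), `p S := S ∪ {f (Sᶜ)}` if `S ≠ univ`, `p S = S` otherwise (internal function on `St N α`). An internal set
  `T : St N (St N α)` is closed if it contains `p S` for `S ∈ T` and the union of every internal subset of `T` (so also `∅`). Let `W` be the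
  intersection of all closed sets (internal: quantifier over `St N (St N α)`); it is closed. Standard (Zermelo/Zorn): any two elements of
  `W` are comparable, more precisely for `S, S' ∈ W`: `S' ⊆ S` or `p S ⊆ S'`. (`{S ∈ W | ∀ S' ∈ W, S' ⊆ S ∨ p S ⊆ S'}` is closed: use the
  sets `{S' ∈ W | S' ⊆ S ∨ p S ⊆ S'}`, which are closed for `S` good.) For `a : α` let `V a` be the union of all `S ∈ W` with `a ∉ S`:
  `V a ∈ W`, `a ∉ V a`, and `f ((V a)ᶜ) = a` (otherwise `a ∉ p (V a)`). `r a b := V a ⊂ V b` (strictly), equivalently `a ∈ V b`. It is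
  an internal strict linear order, and every nonempty internal set `A` has a least element: let `S` be the union of all `S' ∈ W` with `S' ∩ A = ∅`;
  then `f (Sᶜ) ∈ A` is the least element. `wf_of_int` gives native well-foundedness.
* `exists_om1`: well-order `S`. Case 1: all initial segments `{b ∈ S | r b a}` are countable: `T = S`. Case 2: let `a` be the least element with
  an uncountable initial segment, `T := {b ∈ S | r b a}`.
* `om1_bdd`: the union of the countable initial segments up to `e n` is countable (`Cnt.biUnion`), so it is not all of `T`. `om1_cnt_bdd`: for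
  countable subsets. -/

universe u v w x

namespace WCal

open STP WM

variable {N : Type u} [WM N] {α : Type v} {β : Type w} [WTy N α] [WTy N β]

/-- strict well-order (linear, transitive, well-founded) -/
structure SWO {α : Type v} (r : α → α → Prop) : Prop where
  tr : ∀ a b c, r a b → r b c → r a c
  lin : ∀ a b, r a b ∨ a = b ∨ r b a
  wf : WellFounded r

private theorem wo_ext {S S' : St N α} (h : ∀ a, a ∈ S → a ∈ S') (h' : ∀ a, a ∈ S' → a ∈ S) :
    S = S' := St.ext (Set.ext fun a => ⟨h a, h' a⟩)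

private def woC (S : St N α) : St N α :=
  ⟨{a | ¬ a ∈ S}, (IP.mem IF.id (IF.const S)).not⟩

private theorem woC_if : IF N (woC : St N α → St N α) :=
  IF.compr' (IP.not (IP.mem IF.snd IF.fst))

private theorem woP_ip (F : Fn N (St N α) α) : IP N (fun q : St N α × α =>
    q.2 ∈ q.1 ∨ ((∃ c, ¬ c ∈ q.1) ∧ q.2 = F (woC q.1))) :=
  IP.or (IP.mem IF.snd IF.fst) (IP.and (IP.ex (P := fun (q : St N α × α) (c : α) => ¬ c ∈ q.1)
    (IP.not (IP.mem IF.snd (IF.comp IF.fst IF.fst))))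
    (IP.eq IF.snd (IF.comp F.int (IF.comp woC_if IF.fst))))

/-- the successor of an initial segment -/
private def woP (F : Fn N (St N α) α) (S : St N α) : St N α :=
  ⟨{a | a ∈ S ∨ ((∃ c, ¬ c ∈ S) ∧ a = F (woC S))}, (woP_ip F).sec S⟩

private theorem woP_if (F : Fn N (St N α) α) : IF N (woP F) := IF.compr' (woP_ip F)

private theorem woU_ip : IP N (fun q : St N (St N α) × α => ∃ S ∈ q.1, q.2 ∈ S) :=
  IP.bex (f := fun q : St N (St N α) × α => q.1) (P := fun q S => q.2 ∈ S) IF.fst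
    (IP.mem (IF.comp IF.snd IF.fst) IF.snd)

/-- the union -/
private def woU (U : St N (St N α)) : St N α := ⟨{a | ∃ S ∈ U, a ∈ S}, woU_ip.sec U⟩

private theorem woU_if : IF N (woU : St N (St N α) → St N α) := IF.compr' woU_ip

private def woCl (F : Fn N (St N α) α) (T : St N (St N α)) : Prop :=
  (∀ S ∈ T, woP F S ∈ T) ∧ ∀ U : St N (St N α), (∀ S ∈ U, S ∈ T) → woU U ∈ T

private theorem woCl_ip (F : Fn N (St N α) α) : IP N (fun T : St N (St N α) => woCl F T) := by
  refine IP.and ?_ ?_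
  · exact IP.ball (f := fun T : St N (St N α) => T) (P := fun T S => woP F S ∈ T) IF.id
      (IP.mem (IF.comp (woP_if F) IF.snd) IF.fst)
  · refine IP.all (P := fun T U : St N (St N α) => (∀ S ∈ U, S ∈ T) → woU U ∈ T) (IP.imp ?_ ?_)
    · exact IP.ball (f := fun q : St N (St N α) × St N (St N α) => q.2)
        (P := fun q S => S ∈ q.1) IF.snd (IP.mem IF.snd (IF.comp IF.fst IF.fst))
    · exact IP.mem (IF.comp woU_if IF.snd) IF.fst

private theorem woW_ip (F : Fn N (St N α) α) :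
    IP N (fun S : St N α => ∀ T : St N (St N α), woCl F T → S ∈ T) :=
  IP.all (P := fun (S : St N α) (T : St N (St N α)) => woCl F T → S ∈ T)
    ((IP.comp (P := fun T : St N (St N α) => woCl F T) (woCl_ip F) IF.snd).imp
      (IP.mem IF.fst IF.snd))

/-- the least closed set -/
private def woW (F : Fn N (St N α) α) : St N (St N α) :=
  ⟨{S | ∀ T : St N (St N α), woCl F T → S ∈ T}, woW_ip F⟩

private theorem woW_p {F : Fn N (St N α) α} {S : St N α} (h : S ∈ woW F) : woP F S ∈ woW F :=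
  fun T hT => hT.1 S (h T hT)

private theorem woW_u {F : Fn N (St N α) α} {U : St N (St N α)} (h : ∀ S ∈ U, S ∈ woW F) :
    woU U ∈ woW F :=
  fun T hT => hT.2 U fun S hS => h S hS T hT

private theorem woW_ind {F : Fn N (St N α) α} {P : St N α → Prop} (hP : IP N P)
    (h1 : ∀ S ∈ woW F, P S → P (woP F S))
    (h2 : ∀ U : St N (St N α), (∀ S ∈ U, S ∈ woW F ∧ P S) → P (woU U)) {S : St N α}
    (hS : S ∈ woW F) : P S := by
  have hT : IP N (fun S : St N α => S ∈ woW F ∧ P S) :=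
    (IP.mem IF.id (IF.const (woW F))).and hP
  have h3 : woCl F ⟨{S | S ∈ woW F ∧ P S}, hT⟩ :=
    ⟨fun S hS => ⟨woW_p hS.1, h1 S hS.1 hS.2⟩,
      fun U hU => ⟨woW_u fun S hS => (hU S hS).1, h2 U hU⟩⟩
  exact (hS _ h3).2

private theorem wo_le_p {F : Fn N (St N α) α} {S : St N α} {a : α} (h : a ∈ S) : a ∈ woP F S :=
  Or.inl h

private theorem woLe_ip : IP N (fun q : St N α × St N α => ∀ a ∈ q.1, a ∈ q.2) :=
  IP.ball (f := fun q : St N α × St N α => q.1) (P := fun q a => a ∈ q.2) IF.fst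
    (IP.mem IF.snd (IF.comp IF.snd IF.fst))

private theorem woL1 {F : Fn N (St N α) α} {C : St N α}
    (hcmp : ∀ D ∈ woW F, (∀ a ∈ D, a ∈ C) ∨ ∀ a ∈ C, a ∈ D) {D : St N α} (hD : D ∈ woW F) :
    (∀ a ∈ D, a ∈ C) ∨ ∀ a ∈ woP F C, a ∈ D := by
  refine woW_ind (F := F) (P := fun D => (∀ a ∈ D, a ∈ C) ∨ ∀ a ∈ woP F C, a ∈ D) ?_ ?_ ?_ hD
  · exact IP.or (IP.comp2 (P := fun A B : St N α => ∀ a ∈ A, a ∈ B) woLe_ip IF.id (IF.const C))
      (IP.comp2 (P := fun A B : St N α => ∀ a ∈ A, a ∈ B) woLe_ip (IF.const (woP F C)) IF.id)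
  · rintro D hD (h | h)
    · by_cases hc : ∀ a ∈ C, a ∈ D
      · have e : C = D := wo_ext hc h
        right
        rw [e]
        exact fun a ha => ha
      · left
        push Not at hc
        obtain ⟨c, hc1, hc2⟩ := hc
        rcases hcmp _ (woW_p hD) with h1 | h1
        · exact h1
        · rintro a (ha | ha)
          · exact h a ha
          · rcases h1 c hc1 with h2 | h2
            · exact absurd h2 hc2
            · rw [ha.2, ← h2.2]
              exact hc1
    · right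
      exact fun a ha => wo_le_p (h a ha)
  · intro U hU
    by_cases hc : ∀ S ∈ U, ∀ a ∈ S, a ∈ C
    · left
      rintro a ⟨S, hS, ha⟩
      exact hc S hS a ha
    · right
      push Not at hc
      obtain ⟨S, hS, c, hc1, hc2⟩ := hc
      rcases (hU S hS).2 with h | h
      · exact absurd (h c hc1) hc2
      · exact fun a ha => ⟨S, hS, h a ha⟩

private theorem woL2 {F : Fn N (St N α) α} {C : St N α} (hC : C ∈ woW F) :
    ∀ D ∈ woW F, (∀ a ∈ D, a ∈ C) ∨ ∀ a ∈ C, a ∈ D := by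
  refine woW_ind (F := F) (P := fun C => ∀ D ∈ woW F, (∀ a ∈ D, a ∈ C) ∨ ∀ a ∈ C, a ∈ D)
    ?_ ?_ ?_ hC
  · refine IP.ball (f := fun _ : St N α => woW F)
      (P := fun C D : St N α => (∀ a ∈ D, a ∈ C) ∨ ∀ a ∈ C, a ∈ D) (IF.const (woW F)) ?_
    exact IP.or (IP.comp2 (P := fun A B : St N α => ∀ a ∈ A, a ∈ B) woLe_ip IF.snd IF.fst)
      (IP.comp2 (P := fun A B : St N α => ∀ a ∈ A, a ∈ B) woLe_ip IF.fst IF.snd)
  · intro C _ h D hD
    rcases woL1 h hD with h1 | h1
    · exact Or.inl fun a ha => wo_le_p (h1 a ha)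
    · exact Or.inr h1
  · intro U hU D hD
    by_cases hc : ∀ S ∈ U, ∀ a ∈ S, a ∈ D
    · right
      rintro a ⟨S, hS, ha⟩
      exact hc S hS a ha
    · left
      push Not at hc
      obtain ⟨S, hS, c, hc1, hc2⟩ := hc
      rcases (hU S hS).2 D hD with h | h
      · exact fun a ha => ⟨S, hS, h a ha⟩
      · exact absurd (h c hc1) hc2

private theorem woL3 {F : Fn N (St N α) α} {C D : St N α} (hC : C ∈ woW F) (hD : D ∈ woW F) :
    (∀ a ∈ D, a ∈ C) ∨ ∀ a ∈ woP F C, a ∈ D := woL1 (woL2 hC) hD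

private theorem woV_ip (F : Fn N (St N α) α) :
    IP N (fun q : α × St N α => q.2 ∈ woW F ∧ ¬ q.1 ∈ q.2) :=
  (IP.mem IF.snd (IF.const (woW F))).and (IP.mem IF.fst IF.snd).not

private def woVs (F : Fn N (St N α) α) (a : α) : St N (St N α) :=
  ⟨{S | S ∈ woW F ∧ ¬ a ∈ S}, (woV_ip F).sec a⟩

private def woV (F : Fn N (St N α) α) (a : α) : St N α := woU (woVs F a)

private theorem woV_if (F : Fn N (St N α) α) : IF N (woV F) :=
  IF.comp (g := woU) (f := woVs F) woU_if (IF.compr' (S := woVs F) (woV_ip F))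

private theorem woV_mem (F : Fn N (St N α) α) (a : α) : woV F a ∈ woW F :=
  woW_u fun _ hS => hS.1

private theorem woV_not (F : Fn N (St N α) α) (a : α) : ¬ a ∈ woV F a := by
  rintro ⟨S, hS, ha⟩
  exact hS.2 ha

private theorem woV_p {F : Fn N (St N α) α} (hF : ∀ S : St N α, (∃ a, a ∈ S) → F S ∈ S) (a : α) :
    a = F (woC (woV F a)) ∧ a ∈ woP F (woV F a) := by
  have h1 : F (woC (woV F a)) ∈ woC (woV F a) := hF _ ⟨a, woV_not F a⟩
  have h2 : F (woC (woV F a)) ∈ woP F (woV F a) := Or.inr ⟨⟨a, woV_not F a⟩, rfl⟩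
  have h3 : a ∈ woP F (woV F a) := by
    by_contra hn
    exact h1 ⟨woP F (woV F a), ⟨woW_p (woV_mem F a), hn⟩, h2⟩
  refine ⟨?_, h3⟩
  rcases h3 with h | h
  · exact absurd h (woV_not F a)
  · exact h.2

private theorem wo_exists (F : Fn N (St N α) α)
    (hF : ∀ S : St N α, (∃ a, a ∈ S) → F S ∈ S) :
    ∃ r : α → α → Prop, IP N (fun p : α × α => r p.1 p.2) ∧ SWO r := by
  have hle : ∀ a b, a ∈ woV F b → ∀ c ∈ woP F (woV F a), c ∈ woV F b := by
    intro a b h
    rcases woL3 (woV_mem F a) (woV_mem F b) with h1 | h1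
    · exact absurd (h1 a h) (woV_not F a)
    · exact h1
  have hr : IP N (fun p : α × α => p.1 ∈ woV F p.2) :=
    IP.mem IF.fst (IF.comp (woV_if F) IF.snd)
  refine ⟨fun a b => a ∈ woV F b, hr, ⟨?_, ?_, ?_⟩⟩
  · intro a b c h h'
    exact hle b c h' a (wo_le_p h)
  · intro a b
    rcases woL3 (woV_mem F a) (woV_mem F b) with h1 | h1
    · rcases woL3 (woV_mem F b) (woV_mem F a) with h2 | h2
      · right
        left
        rw [(woV_p hF a).1, (woV_p hF b).1, wo_ext h2 h1]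
      · right
        right
        exact h2 b (woV_p hF b).2
    · left
      exact h1 a (woV_p hF a).2
  · refine wf_of_int hr ?_
    rintro A ⟨a1, ha1⟩
    have hU : IP N (fun S : St N α => S ∈ woW F ∧ ∀ c ∈ A, ¬ c ∈ S) :=
      (IP.mem IF.id (IF.const (woW F))).and (IP.ball (f := fun _ : St N α => A)
        (P := fun S c => ¬ c ∈ S) (IF.const A) (IP.mem IF.snd IF.fst).not)
    obtain ⟨S, hS⟩ : ∃ S : St N α, S = woU ⟨{S | S ∈ woW F ∧ ∀ c ∈ A, ¬ c ∈ S}, hU⟩ := ⟨_, rfl⟩
    have hSW : S ∈ woW F := by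
      rw [hS]
      exact woW_u fun _ h => h.1
    have hSA : ∀ c ∈ A, ¬ c ∈ S := by
      intro c hc h
      rw [hS] at h
      obtain ⟨S', hS', h⟩ := h
      exact hS'.2 c hc h
    have h1 : F (woC S) ∈ woC S := hF _ ⟨a1, hSA a1 ha1⟩
    have h2 : F (woC S) ∈ woP F S := Or.inr ⟨⟨a1, hSA a1 ha1⟩, rfl⟩
    have h3 : F (woC S) ∈ A := by
      by_contra hn
      refine h1 ?_
      rw [hS]
      refine ⟨woP F S, ⟨woW_p hSW, ?_⟩, ?_⟩
      · rintro c hc (h | h)
        · exact hSA c hc h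
        · rw [h.2] at hc
          exact hn hc
      · rw [← hS]
        exact h2
    refine ⟨F (woC S), h3, fun b hb h => ?_⟩
    rcases woL3 hSW (woV_mem F (F (woC S))) with h4 | h4
    · exact hSA b hb (h4 b h)
    · exact woV_not F _ (h4 _ h2)

variable (N) in
/-- the well-ordering theorem in the model -/
theorem exists_wo (α : Type v) [WTy N α] :
    ∃ r : α → α → Prop, IP N (fun p : α × α => r p.1 p.2) ∧ SWO r := by
  by_cases hne : Nonempty α
  · obtain ⟨a0⟩ := hne
    obtain ⟨f, hf, hf'⟩ := choice_set (N := N) a0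
    exact wo_exists ⟨f, hf⟩ hf'
  · refine ⟨fun _ _ => False, IP.const False,
      ⟨fun a => absurd ⟨a⟩ hne, fun a => absurd ⟨a⟩ hne, ?_⟩⟩
    exact ⟨fun a => absurd ⟨a⟩ hne⟩

/-- every uncountable internal set contains an uncountable set `T` with a well-order such that all initial
segments of `T` are countable -/
theorem exists_om1 {S : St N α} (hS : ¬ Cnt S) :
    ∃ (T : St N α) (r : α → α → Prop), (∀ a ∈ T, a ∈ S) ∧ IP N (fun p : α × α => r p.1 p.2) ∧ SWO r ∧
      ¬ Cnt T ∧ ∀ a ∈ T, ∀ I : St N α, (∀ b ∈ I, b ∈ T ∧ r b a) → Cnt I := by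
  obtain ⟨r, hr, hwo⟩ := exists_wo N α
  have hseg : IP N (fun q : α × α => q.2 ∈ S ∧ r q.2 q.1) :=
    (IP.mem IF.snd (IF.const S)).and (IP.comp2 (P := r) hr IF.snd IF.fst)
  by_cases h : ∀ a ∈ S, Cnt (⟨{b | b ∈ S ∧ r b a}, hseg.sec a⟩ : St N α)
  · exact ⟨S, r, fun a ha => ha, hr, hwo, hS, fun a ha I hI => Cnt.mono hI (h a ha)⟩
  · push Not at h
    obtain ⟨a, ⟨haS, ha⟩, hmin⟩ := hwo.wf.has_min
      {a | a ∈ S ∧ ¬ Cnt (⟨{b | b ∈ S ∧ r b a}, hseg.sec a⟩ : St N α)} h
    refine ⟨⟨{b | b ∈ S ∧ r b a}, hseg.sec a⟩, r, fun b hb => hb.1, hr, hwo, ha,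
      fun b hb I hI => ?_⟩
    have h1 : Cnt (⟨{c | c ∈ S ∧ r c b}, hseg.sec b⟩ : St N α) := by
      by_contra hn
      exact hmin b ⟨hb.1, hn⟩ hb.2
    refine Cnt.mono ?_ h1
    exact fun c hc => ⟨(hI c hc).1.1, (hI c hc).2⟩

/-- countable sets are bounded -/
theorem om1_bdd {T : St N α} {r : α → α → Prop} (hr : IP N (fun p : α × α => r p.1 p.2)) (hwo : SWO r)
    (hT : ¬ Cnt T) (hI : ∀ a ∈ T, ∀ I : St N α, (∀ b ∈ I, b ∈ T ∧ r b a) → Cnt I) {C : St N α}
    (hC : Cnt C) (hCT : ∀ a ∈ C, a ∈ T) : ∃ a ∈ T, ∀ b ∈ C, r b a := by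
  by_contra hn
  push Not at hn
  have hP : IP N (fun q : α × α => q.2 ∈ T ∧ (q.2 = q.1 ∨ r q.2 q.1)) :=
    (IP.mem IF.snd (IF.const T)).and
      ((IP.eq IF.snd IF.fst).or (IP.comp2 (P := r) hr IF.snd IF.fst))
  refine hT (Cnt.biUnion hC (S := fun b => ⟨{a | a ∈ T ∧ (a = b ∨ r a b)}, hP.sec b⟩)
    (IF.compr (P := fun b a => a ∈ T ∧ (a = b ∨ r a b)) hP) (fun b hb => ?_) fun a ha => ?_)
  · have h1 : IP N (fun a : α => a ∈ T ∧ r a b) :=
      (IP.mem IF.id (IF.const T)).and (IP.comp2 (P := r) hr IF.id (IF.const b))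
    have h2 : Cnt (⟨{a | a ∈ T ∧ r a b}, h1⟩ : St N α) := hI b (hCT b hb) _ fun a ha => ha
    have h3 : Cnt (⟨{a | a = b}, IP.eq IF.id (IF.const b)⟩ : St N α) :=
      Cnt.finite (Set.finite_singleton b)
    refine Cnt.union h2 h3 ?_
    rintro a ⟨ha, h | h⟩
    · exact Or.inr h
    · exact Or.inl ⟨ha, h⟩
  · obtain ⟨b, hb, hb'⟩ := hn a ha
    refine ⟨b, hb, ha, ?_⟩
    rcases hwo.lin a b with h | h | h
    · exact Or.inr h
    · exact Or.inl h
    · exact absurd h hb'

/-- least elements -/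
theorem SWO.exists_min {r : α → α → Prop} (h : SWO r) {P : α → Prop} (hP : ∃ a, P a) :
    ∃ a, P a ∧ ∀ b, P b → a = b ∨ r a b := by
  obtain ⟨a, ha, hmin⟩ := h.wf.has_min {a | P a} hP
  refine ⟨a, ha, fun b hb => ?_⟩
  rcases h.lin a b with h1 | h1 | h1
  · exact Or.inr h1
  · exact Or.inl h1
  · exact absurd h1 (hmin b hb)

/-- the least element is an internal function of the parameters -/
theorem IF.wmin {r : α → α → Prop} (hr : IP N (fun p : α × α => r p.1 p.2)) (h : SWO r) {P : β → α → Prop}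
    (hP : IP N (fun p : β × α => P p.1 p.2)) (hex : ∀ b, ∃ a, P b a) :
    ∃ f : β → α, IF N f ∧ ∀ b, P b (f b) ∧ ∀ a, P b a → f b = a ∨ r (f b) a := by
  have hu : ∀ b, ∃! a, P b a ∧ ∀ a', P b a' → a = a' ∨ r a a' := by
    intro b
    obtain ⟨a, ha, hmin⟩ := h.exists_min (hex b)
    refine ⟨a, ⟨ha, hmin⟩, ?_⟩
    rintro a' ⟨ha', hmin'⟩
    rcases hmin' a ha with h1 | h1
    · exact h1
    · rcases hmin a' ha' with h2 | h2
      · exact h2.symm
      · exact absurd h2 (h.wf.asymmetric _ _ h1)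
  have h1 : IP N (fun p : β × α => P p.1 p.2 ∧ ∀ a', P p.1 a' → p.2 = a' ∨ r p.2 a') := by
    refine hP.and (IP.all (P := fun (p : β × α) (a' : α) => P p.1 a' → p.2 = a' ∨ r p.2 a') ?_)
    exact (IP.comp2 (P := P) hP (IF.comp IF.fst IF.fst) IF.snd).imp
      ((IP.eq (IF.comp IF.snd IF.fst) IF.snd).or
        (IP.comp2 (P := r) hr (IF.comp IF.snd IF.fst) IF.snd))
  exact ⟨fun b => (hu b).choose,
    IF.unique (P := fun b a => P b a ∧ ∀ a', P b a' → a = a' ∨ r a a') h1 hu,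
    fun b => (hu b).choose_spec.1⟩

end WCal
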