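import Pool.Agent.WCal.FinD
import Pool.Agent.WCal.Wo

/-! # Automation for internal predicates and functions

(problem MP_ba5606_gt, ARH Part II; no sorry in this file)

The closure lemmas are simp lemmas, so that goals `IP N (fun a => ...)`, `IF N (fun a => ...)` are proved by
`simp (maxDischargeDepth := 99) [hM.comp, hr.comp2]`, where `hM : IF N M` and `hr : IP N (fun p : α × β => r p.1 p.2)` are the
hypotheses about the functions and predicates which occur in the goal (`comp3` for three arguments: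
`h : IF N (fun p : α × β × γ => f p.1 p.2.1 p.2.2)`). See the examples at the end. Write predicates of a tuple with
`p.1`, `p.2.1`, `p.2.2` (no pattern matching), bounded quantifiers as `∀ b, b ∈ S → ...` or `∀ b ∈ S, ...`. If simp rewrites
the goal into a bad form use `simp only` with the rules needed, or apply the lemmas by hand. -/

set_option autoImplicit false

universe u v w x

namespace WCal

open STP WM

section

variable {N : Type u} [WM N] {α : Type v} {β : Type w} {γ : Type x} [WTy N α] [WTy N β] [WTy N γ]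

theorem IF.fst' {f : α → β × γ} (hf : IF N f) : IF N (fun a => (f a).1) := IF.fst.comp hf

theorem IF.snd' {f : α → β × γ} (hf : IF N f) : IF N (fun a => (f a).2) := IF.snd.comp hf

theorem IF.val' {S : St N α} {f : β → Sb S} (hf : IF N f) : IF N (fun a => (f a).v) := IF.val.comp hf

theorem IF.comp3 {δ ε : Type*} [WTy N δ] [WTy N ε] {h : β → γ → δ → ε} {f : α → β} {g : α → γ} {k : α → δ}
    (hh : IF N (fun p : β × γ × δ => h p.1 p.2.1 p.2.2)) (hf : IF N f) (hg : IF N g) (hk : IF N k) :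
    IF N (fun a => h (f a) (g a) (k a)) :=
  IF.comp hh (hf.pair (hg.pair hk))

theorem IP.comp3 {δ : Type*} [WTy N δ] {h : β → γ → δ → Prop} {f : α → β} {g : α → γ} {k : α → δ}
    (hh : IP N (fun p : β × γ × δ => h p.1 p.2.1 p.2.2)) (hf : IF N f) (hg : IF N g) (hk : IF N k) :
    IP N (fun a => h (f a) (g a) (k a)) :=
  IP.comp hh (hf.pair (hg.pair hk))

theorem IP.comp4 {δ ε : Type*} [WTy N δ] [WTy N ε] {h : β → γ → δ → ε → Prop} {f : α → β} {g : α → γ}
    {k : α → δ} {l : α → ε} (hh : IP N (fun p : β × γ × δ × ε => h p.1 p.2.1 p.2.2.1 p.2.2.2)) (hf : IF N f)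
    (hg : IF N g) (hk : IF N k) (hl : IF N l) : IP N (fun a => h (f a) (g a) (k a) (l a)) :=
  IP.comp hh (hf.pair (hg.pair (hk.pair hl)))

theorem IF.comp4 {δ ε ζ : Type*} [WTy N δ] [WTy N ε] [WTy N ζ] {h : β → γ → δ → ε → ζ} {f : α → β}
    {g : α → γ} {k : α → δ} {l : α → ε} (hh : IF N (fun p : β × γ × δ × ε => h p.1 p.2.1 p.2.2.1 p.2.2.2))
    (hf : IF N f) (hg : IF N g) (hk : IF N k) (hl : IF N l) : IF N (fun a => h (f a) (g a) (k a) (l a)) :=
  IF.comp hh (hf.pair (hg.pair (hk.pair hl)))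

/-- a bounded set-builder: `{b | P a b}` as an internal set, in the form with `Set.mem` -/
theorem IP.exb {f : α → St N β} {P : α → β → Prop} (hf : IF N f)
    (h : IP N (fun p : α × β => P p.1 p.2)) : IP N (fun a => ∃ b, b ∈ f a ∧ P a b) :=
  IP.ex (P := fun a b => b ∈ f a ∧ P a b) (IP.and (IP.mem IF.snd (hf.comp IF.fst)) h)

end

attribute [simp] IP.const IP.not IP.and IP.or IP.imp IP.iff IP.all IP.ex IP.le IP.lt IP.memFin IP.memList IP.mem
  IP.eqSome IP.eq IF.const IF.id IF.fst' IF.snd' IF.val' IF.app IF.pair IF.card IF.finUnion IF.insert IF.inr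
  IF.inl IF.some IF.map IF.getElem? IF.length IF.cons IF.append IF.take IF.succ IF.add IF.mul IF.sub IF.pow
  IF.div IF.mod IF.unpair1 IF.unpair2 IF.npair IF.ite IF.lam IF.compr

attribute [simp] mem_mk

section examples

variable {N : Type u} [WM N] {α : Type v} {β : Type w} {γ : Type x} [WTy N α] [WTy N β] [WTy N γ]

example {A B : St N α} {M M' : ℕ → St N α} (hM : IF N M) (hM' : IF N M') :
    IP N (fun p : ℕ × α => (p.1 % 2 = 0 ∧ p.2 ∈ M (p.1 / 2) ∧ p.2 ∈ A) ∨
      (¬ p.1 % 2 = 0 ∧ p.2 ∈ M' (p.1 / 2) ∧ p.2 ∈ B)) := by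
  simp (maxDischargeDepth := 99) [hM.comp, hM'.comp]

example {r : α → α → Prop} (hr : IP N (fun p : α × α => r p.1 p.2)) {f : ℕ → α → β}
    (hf : IF N (fun p : ℕ × α => f p.1 p.2)) :
    IP N (fun S : St N (ℕ × α) => ∀ n a, (n, a) ∈ S → ∃ m, n < m + 3 ∧ ∀ b, r a b → f m b = f n a) := by
  simp (maxDischargeDepth := 99) [hr.comp2, hf.comp2]

example {f : ℕ → α → β} (hf : IF N (fun p : ℕ × α => f p.1 p.2)) :
    IF N (fun c : α × ℕ => (c.1 :: [c.1], f c.2 c.1, Nat.pair (c.2 + 1) 5)) := by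
  simp (maxDischargeDepth := 99) [hf.comp2]

example {M : ℕ → St N α} (hM : IF N M) {P : St N α → Prop} (hP : IP N P) :
    IP N (fun F : Fn N α ℕ => ∀ a, P (M (F a)) ∨ ∃ S : St N α, P S ∧ a ∈ S) := by
  simp (maxDischargeDepth := 99) [hM.comp, hP.comp]

end examples

end WCal
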