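import Pool.Agent.WCal.FinB

/-! # Recursion on lists

(problem MP_ba5606_gt, ARH Part II, block 0; architect helper69)

PROOFS.
* `IF.listRec`: recursion `F [] = b`, `F (a :: l) = g a l (F l)`: `F l = y` iff there is an internal set `S : St N (List α × β)` with `(l, y) ∈ S` and
  every `(k, z) ∈ S` is `([], b)` or `(a :: k', g a k' z')` with `(k', z') ∈ S` (the finite set of the suffixes of `l`, `IP.finite`; every such `S` has
  `z = F k` for all `(k, z) ∈ S`, by induction on `k`).
* `IF.foldl`: `F l = y` iff there is an internal `x : Fn N ℕ β` with `x 0 = b`, `x (i + 1) = g (x i) a` for all `i < l.length`, `l[i]? = some a`, and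
  `x l.length = y` (the native sequence `i ↦ (l.take i).foldl g b` is eventually constant, its graph is a finite set plus a simple internal set; or use
  `St N (ℕ × β)` and `IP.finite` for `i ≤ l.length`).
* `IF.map`: `(l.map f)[i]? = (l[i]?).map f`. `IF.rangeMap`: the list `l` of length `n` with `l[i]? = some (x i)` for `i < n`.
* `IF.encodeList`: `Encodable.encode ([] : List ℕ) = 0`, `encode (a :: l) = succ (Nat.pair a (encode l))` (`Encodable.encode_list_cons`,
  `Encodable.encode_nat`), so `IF.listRec`.
* `Cnt.list`: if `e : ℕ → α` enumerates `S` (the case of empty `S` is trivial: only the list `[]`) then `k ↦ ((Denumerable.ofNat (List ℕ) k).map e)` is a surjection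
  onto the lists of elements of `S`; it is internal since the graph is `{(k, l) | ∃ m : List ℕ, encode m = k ∧ l = m.map e}`. -/

universe u v w x

namespace WCal

open STP WM

variable {N : Type u} [WM N] {α : Type v} {β : Type w} {γ : Type x} [WTy N α] [WTy N β] [WTy N γ]

private theorem pfst {f : α → β × γ} (hf : IF N f) : IF N (fun a => (f a).1) :=
  IF.comp IF.fst hf

private theorem psnd {f : α → β × γ} (hf : IF N f) : IF N (fun a => (f a).2) :=
  IF.comp IF.snd hf

theorem IF.listRec {b : γ → β} {g : γ → α → List α → β → β} {l : γ → List α} (hb : IF N b)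
    (hg : IF N (fun p : γ × α × List α × β => g p.1 p.2.1 p.2.2.1 p.2.2.2)) (hl : IF N l) :
    IF N (fun c => (List.rec (b c) (fun a k y => g c a k y) (l c) : β)) := by
  refine IF.ofP (Q := fun (c : γ) (y : β) => ∃ S : St N (List α × β), (l c, y) ∈ S ∧
    ∀ q : List α × β, q ∈ S → (q.1 = [] ∧ q.2 = b c) ∨
      ∃ q' : List α × β, q' ∈ S ∧ ∃ a, (q.1 = a :: q'.1 ∧ q.2 = g c a q'.1 q'.2)) ?_ ?_
  · refine IP.ex (P := fun (t : γ × β) (S : St N (List α × β)) => (l t.1, t.2) ∈ S ∧
      ∀ q : List α × β, q ∈ S → (q.1 = [] ∧ q.2 = b t.1) ∨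
      ∃ q' : List α × β, q' ∈ S ∧ ∃ a, (q.1 = a :: q'.1 ∧ q.2 = g t.1 a q'.1 q'.2)) ?_
    refine IP.and ?_ ?_
    · exact IP.mem (IF.pair (IF.comp hl (pfst IF.fst)) (psnd IF.fst)) IF.snd
    · refine IP.ball (f := fun t : (γ × β) × St N (List α × β) => t.2)
        (P := fun t q => (q.1 = [] ∧ q.2 = b t.1.1) ∨
          ∃ q' : List α × β, q' ∈ t.2 ∧ ∃ a, (q.1 = a :: q'.1 ∧ q.2 = g t.1.1 a q'.1 q'.2))
        IF.snd ?_
      refine IP.or (IP.and (IP.eq (pfst IF.snd) (IF.const []))
        (IP.eq (psnd IF.snd) (IF.comp hb (pfst (pfst IF.fst))))) ?_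
      refine IP.bex (f := fun u : ((γ × β) × St N (List α × β)) × (List α × β) => u.1.2)
        (P := fun u q' => ∃ a, (u.2.1 = a :: q'.1 ∧ u.2.2 = g u.1.1.1 a q'.1 q'.2))
        (psnd IF.fst) ?_
      refine IP.ex (P := fun (u : (((γ × β) × St N (List α × β)) × (List α × β)) × (List α × β))
        (a : α) => (u.1.2.1 = a :: u.2.1 ∧ u.1.2.2 = g u.1.1.1.1 a u.2.1 u.2.2)) ?_
      refine IP.and (IP.eq (pfst (psnd (pfst IF.fst))) (IF.cons IF.snd (pfst (psnd IF.fst)))) ?_
      exact IP.eq (psnd (psnd (pfst IF.fst))) (IF.comp hg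
        (IF.pair (pfst (pfst (pfst (pfst IF.fst)))) (IF.pair IF.snd
          (IF.pair (pfst (psnd IF.fst)) (psnd (psnd IF.fst))))))
  · intro c y
    constructor
    · rintro ⟨S, hS, hS'⟩
      have key : ∀ (k : List α) (z : β), (k, z) ∈ S →
          (List.rec (b c) (fun a k y => g c a k y) k : β) = z := by
        intro k
        induction k with
        | nil =>
          intro z hz
          rcases hS' _ hz with ⟨-, h⟩ | ⟨q', -, a, h, -⟩
          · exact h.symm
          · exact absurd h (by simp)
        | cons a k ih =>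
          intro z hz
          rcases hS' _ hz with ⟨h, -⟩ | ⟨⟨k', z'⟩, hq, a', h, h'⟩
          · exact absurd h (by simp)
          · obtain ⟨h1, h2⟩ := List.cons.inj h
            subst h1
            have h2 : k = k' := h2
            subst h2
            have h3 := ih z' hq
            have h4 : z = g c a k z' := h'
            rw [h4, ← h3]
      exact key (l c) y hS
    · intro h
      refine ⟨⟨{q | q.1 <:+ l c ∧ (List.rec (b c) (fun a k y => g c a k y) q.1 : β) = q.2},
        IP.finite ?_⟩, ?_, ?_⟩
      · refine (((l c).tails.finite_toSet).image fun k =>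
          (k, (List.rec (b c) (fun a k y => g c a k y) k : β))).subset ?_
        rintro ⟨k, z⟩ ⟨hk, hz⟩
        exact ⟨k, (List.mem_tails k (l c)).2 hk, Prod.ext rfl hz⟩
      · exact ⟨List.suffix_rfl, h⟩
      · rintro ⟨k, z⟩ ⟨hk, hz⟩
        have hk : k <:+ l c := hk
        have hz : (List.rec (b c) (fun a k y => g c a k y) k : β) = z := hz
        cases k with
        | nil => exact Or.inl ⟨rfl, hz.symm⟩
        | cons a k =>
          exact Or.inr ⟨(k, (List.rec (b c) (fun a k y => g c a k y) k : β)),
            ⟨(List.suffix_cons a k).trans hk, rfl⟩, a, rfl, hz.symm⟩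

theorem IF.foldl {b : γ → β} {g : γ → β → α → β} {l : γ → List α} (hb : IF N b)
    (hg : IF N (fun p : γ × β × α => g p.1 p.2.1 p.2.2)) (hl : IF N l) :
    IF N (fun c => (l c).foldl (g c) (b c)) := by
  have hgs : ∀ (c : γ) (a : α), IF N (fun y => g c y a) := fun c a =>
    IF.comp (g := fun p : γ × β × α => g p.1 p.2.1 p.2.2) (f := fun y : β => (c, y, a)) hg
      (IF.pair (IF.const c) (IF.pair IF.id (IF.const a)))
  have h1 : IF N (fun c => (List.rec (⟨fun y => y, IF.id⟩ : Fn N β β)
      (fun a _ F => (⟨fun y => F (g c y a), IF.comp F.int (hgs c a)⟩ : Fn N β β)) (l c) :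
      Fn N β β)) := by
    refine IF.listRec (b := fun _ => (⟨fun y => y, IF.id⟩ : Fn N β β))
      (g := fun c a _ F => (⟨fun y => F (g c y a), IF.comp F.int (hgs c a)⟩ : Fn N β β))
      (IF.const _) ?_ hl
    refine IF.lam' ?_
    exact IF.app (F := fun q : (γ × α × List α × Fn N β β) × β => q.1.2.2.2)
      (f := fun q => g q.1.1 q.2 q.1.2.1) (psnd (psnd (psnd IF.fst)))
      (IF.comp hg (IF.pair (pfst IF.fst) (IF.pair IF.snd (pfst (psnd IF.fst)))))
  refine IF.congr (fun c => ?_) (IF.app h1 hb)
  have h2 : ∀ (k : List α) (y : β), (List.rec (⟨fun y => y, IF.id⟩ : Fn N β β)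
      (fun a _ F => (⟨fun y => F (g c y a), IF.comp F.int (hgs c a)⟩ : Fn N β β)) k :
      Fn N β β) y = k.foldl (g c) y := by
    intro k
    induction k with
    | nil => intro y; rfl
    | cons a k ih =>
      intro y
      rw [List.foldl_cons]
      exact ih (g c y a)
  exact h2 (l c) (b c)

theorem IF.map {f : γ → α → β} {l : γ → List α} (hf : IF N (fun p : γ × α => f p.1 p.2)) (hl : IF N l) :
    IF N (fun c => (l c).map (f c)) := by
  have h1 := IF.listRec (N := N) (b := fun _ : γ => ([] : List β))
    (g := fun c a _ y => f c a :: y) (l := l) (IF.const [])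
    (IF.cons (IF.comp hf (IF.pair IF.fst (pfst IF.snd))) (psnd (psnd IF.snd))) hl
  refine IF.congr (fun c => ?_) h1
  induction l c with
  | nil => rfl
  | cons a k ih =>
    rw [List.map_cons, ← ih]

/-- the list of the first `n` values of an internal sequence -/
theorem IF.rangeMap {x : γ → ℕ → α} {n : γ → ℕ} (hx : IF N (fun p : γ × ℕ => x p.1 p.2)) (hn : IF N n) :
    IF N (fun c => (List.range (n c)).map (x c)) := by
  have h1 := IF.natRec (N := N) (b := fun _ : γ => ([] : List α))
    (g := fun c k y => y ++ [x c k]) (IF.const [])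
    (IF.append (psnd IF.snd) (IF.cons (IF.comp hx (IF.pair IF.fst (pfst IF.snd))) (IF.const [])))
  refine IF.congr (fun c => ?_) (IF.comp h1 (IF.pair IF.id hn))
  change (Nat.rec [] (fun k y => y ++ [x c k]) (n c) : List α) = _
  induction n c with
  | zero => rfl
  | succ k ih =>
    rw [List.range_succ, List.map_append, ← ih]
    rfl

theorem IF.encodeList {l : γ → List ℕ} (hl : IF N l) : IF N (fun c => Encodable.encode (l c)) := by
  have h1 := IF.listRec (N := N) (b := fun _ : γ => (0 : ℕ))
    (g := fun _ a _ y => Nat.pair a y + 1) (l := l) (IF.const 0)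
    (IF.succ (IF.npair (pfst IF.snd) (psnd (psnd IF.snd)))) hl
  refine IF.congr (fun c => ?_) h1
  induction l c with
  | nil => rfl
  | cons a k ih =>
    rw [Encodable.encode_list_cons, Encodable.encode_nat, ← ih]

theorem Cnt.list {S : St N α} (hS : Cnt S) {T : St N (List α)} (hT : ∀ l ∈ T, ∀ a ∈ l, a ∈ S) :
    Cnt T := by
  rcases hS with hS | ⟨e, he⟩
  · refine Cnt.finite ((Set.finite_singleton ([] : List α)).subset ?_)
    intro k hk
    cases k with
    | nil => rfl
    | cons a k => exact absurd (hT _ hk a (by simp)) (hS a)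
  · have h1 : IF N (fun k : ℕ => Denumerable.ofNat (List ℕ) k) :=
      IF.inv (f := fun m : List ℕ => Encodable.encode m) (IF.encodeList IF.id)
        (fun m => Denumerable.ofNat_encode m) fun k => Denumerable.encode_ofNat k
    have h2 : IF N (fun k : ℕ => (Denumerable.ofNat (List ℕ) k).map e) :=
      IF.map (f := fun _ n => e n) (IF.app (IF.const e) IF.snd) h1
    refine Cnt.range h2 fun k hk => ?_
    have h3 : ∀ k : List α, (∀ a ∈ k, ∃ n, e n = a) → ∃ m : List ℕ, m.map e = k := by
      intro k
      induction k with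
      | nil => exact fun _ => ⟨[], rfl⟩
      | cons a k ih =>
        intro h
        obtain ⟨n, hn⟩ := h a (by simp)
        obtain ⟨m, hm⟩ := ih fun b hb => h b (by simp [hb])
        exact ⟨n :: m, by rw [List.map_cons, hn, hm]⟩
    obtain ⟨m, hm⟩ := h3 k fun a ha => he a (hT k hk a ha)
    exact ⟨Encodable.encode m, by rw [Denumerable.ofNat_encode, hm]⟩

end WCal
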