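import Pool.Agent.WCal.Rec
import Pool.Agent.WCal.FinC

/-! # Absoluteness: a tree of the model with a native branch has a branch in the model

(problem MP_ba5606_gt, ARH Part II, block 0; architect helper69)

`ini x n = [x 0, ..., x (n - 1)]`.

PROOFS.
* `exists_branch`. Let `T' s` be: all initial segments of the list `s` (the lists `s.take k`) satisfy `T` (internal: `IF.take`). Suppose there is
  no internal branch. `r s' s := T' s' ∧ ∃ a, s' = s ++ [a]` is an internal relation on `List α`. Every nonempty internal set `S` of lists has an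
  `r`-minimal element: otherwise every `s ∈ S` has some `s' ∈ S` with `r s' s`, and `dc'` gives an internal sequence `s_n ∈ S` of lists with
  `s_(n+1) = s_n ++ [a_n]`, `T' (s_(n+1))`; the internal sequence `y i :=` the value of `s_(i+1)[i]?` (the length of `s_(i+1)` is at least `i + 1`) is an internal
  branch (`ini y n` is an initial segment of some `s_m`). By `wf_of_int` the relation `r` is well-founded (natively). But
  `ini x (n + 1) = ini x n ++ [x n]` and `T' (ini x n)`, so `n ↦ ini x n` is an infinite `r`-decreasing sequence, a contradiction.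
* `exists_branch_ext`: apply it to the tree of all `t` with `s₀` and `t` compatible and `T t`, or to `T (s₀ ++ t)`. -/

universe u v w x

namespace WCal

open STP WM

variable {N : Type u} [WM N] {α : Type v} [WTy N α]

/-- the first `n` values of `x` -/
def ini (x : ℕ → α) (n : ℕ) : List α := (List.range n).map x

omit [WTy N α] in
@[simp] theorem ini_length (x : ℕ → α) (n : ℕ) : (ini x n).length = n := by simp [ini]

omit [WTy N α] in
theorem ini_succ (x : ℕ → α) (n : ℕ) : ini x (n + 1) = ini x n ++ [x n] := by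
  simp [ini, List.range_succ]

omit [WTy N α] in
private theorem ini_get (x : ℕ → α) {n i : ℕ} (h : i < n) : (ini x n)[i]? = some (x i) := by
  simp [ini, List.getElem?_range h]

omit [WTy N α] in
private theorem ini_take (x : ℕ → α) (n k : ℕ) : (ini x n).take k = ini x (min k n) := by
  simp [ini, ← List.map_take, List.take_range]

private theorem bfst {β : Type*} {γ : Type*} {δ : Type*} [WTy N β] [WTy N γ] [WTy N δ]
    {f : β → γ × δ} (hf : IF N f) : IF N (fun a => (f a).1) :=
  IF.comp IF.fst hf

private theorem bsnd {β : Type*} {γ : Type*} {δ : Type*} [WTy N β] [WTy N γ] [WTy N δ]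
    {f : β → γ × δ} (hf : IF N f) : IF N (fun a => (f a).2) :=
  IF.comp IF.snd hf

private theorem exists_seq {T' : List α → Prop}
    (hT' : IP N (fun s : List α => T' s)) (S : St N (List α)) (s0 : List α) (hs0 : s0 ∈ S)
    (hnm : ∀ s, s ∈ S → ∃ s', s' ∈ S ∧ T' s' ∧ ∃ a, s' = s ++ [a]) :
    ∃ y : ℕ → α, IF N y ∧ ∀ n, ∃ s, T' s ∧ s.take n = ini y n := by
  obtain ⟨s, hs, -, -, hs2⟩ := dc' (N := N) (Q := fun s : List α => s ∈ S)
    (R := fun _ s s' => T' s' ∧ ∃ a, s' = s ++ [a]) (IP.mem IF.id (IF.const S))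
    (IP.and (IP.comp hT' (bsnd IF.snd)) (IP.ex (P := fun (p : ℕ × List α × List α) (a : α) =>
      p.2.2 = p.2.1 ++ [a]) (IP.eq (bsnd (bsnd IF.fst)) (IF.append (bfst (bsnd IF.fst))
        (IF.cons IF.snd (IF.const []))))))
    (fun _ a ha => hnm a ha) s0 hs0
  have hlen : ∀ n, n ≤ (s n).length := by
    intro n
    induction n with
    | zero => exact Nat.zero_le _
    | succ n ih =>
      obtain ⟨-, a, ha⟩ := hs2 n
      rw [ha, List.length_append, List.length_singleton]
      omega
  have hpre : ∀ m i, i < (s m).length → ∀ k, (s (m + k))[i]? = (s m)[i]? := by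
    intro m i hi k
    induction k with
    | zero => rfl
    | succ k ih =>
      obtain ⟨-, a, ha⟩ := hs2 (m + k)
      have h2 : i < (s (m + k)).length := by
        by_contra h3
        rw [List.getElem?_eq_none (not_lt.1 h3), List.getElem?_eq_getElem hi] at ih
        exact absurd ih (by simp)
      rw [← Nat.add_assoc, ha, List.getElem?_append_left h2, ih]
  have hy : ∀ i, ∃ a, (s (i + 1))[i]? = some a := fun i =>
    ⟨_, List.getElem?_eq_getElem (hlen (i + 1))⟩
  choose y hy using hy
  refine ⟨y, ?_, fun n => ⟨s (n + 1), (hs2 n).1, ?_⟩⟩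
  · refine IF.ofP (Q := fun i a => (s (i + 1))[i]? = some a) ?_ fun i a => ?_
    · exact IP.eqSome (IF.getElem? (IF.comp hs (IF.succ IF.fst)) IF.fst) IF.snd
    · rw [hy i, Option.some_inj]
  · refine List.ext_getElem? fun i => ?_
    rcases lt_or_ge i n with h | h
    · rw [List.getElem?_take_of_lt h, ini_get y h]
      have h2 := hpre (i + 1) i (hlen (i + 1)) (n - i)
      rw [hy i] at h2
      rw [← h2]
      congr 2
      omega
    · rw [List.getElem?_eq_none, List.getElem?_eq_none]
      · rw [ini_length]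
        exact h
      · rw [List.length_take]
        exact (min_le_left _ _).trans h

theorem exists_branch {T : List α → Prop} (hT : IP N T) (x : ℕ → α) (hx : ∀ n, T (ini x n)) :
    ∃ y : ℕ → α, IF N y ∧ ∀ n, T (ini y n) := by
  by_contra hcon
  have hT' : IP N (fun s : List α => ∀ k : ℕ, T (s.take k)) :=
    IP.all (P := fun (s : List α) (k : ℕ) => T (s.take k)) (IP.comp hT (IF.take IF.snd IF.fst))
  have hr : IP N (fun p : List α × List α => (∀ k : ℕ, T (p.1.take k)) ∧ ∃ a, p.1 = p.2 ++ [a]) :=
    IP.and (IP.comp hT' IF.fst) (IP.ex (P := fun (p : List α × List α) (a : α) =>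
      p.1 = p.2 ++ [a]) (IP.eq (bfst IF.fst) (IF.append (bsnd IF.fst)
        (IF.cons IF.snd (IF.const [])))))
  have hwf : WellFounded fun s' s : List α => (∀ k : ℕ, T (s'.take k)) ∧ ∃ a, s' = s ++ [a] := by
    refine wf_of_int hr fun S hS => ?_
    by_contra hno
    push Not at hno
    obtain ⟨s0, hs0⟩ := hS
    obtain ⟨y, hy, hy'⟩ := exists_seq hT' S s0 hs0 fun s hs => by
      obtain ⟨b, hb, h1, h2⟩ := hno s hs
      exact ⟨b, hb, h1, h2⟩
    refine hcon ⟨y, hy, fun n => ?_⟩
    obtain ⟨s, hs, hs'⟩ := hy' n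
    rw [← hs']
    exact hs n
  obtain ⟨_, ⟨n, rfl⟩, hn⟩ := hwf.has_min (Set.range fun n => ini x n) ⟨_, ⟨0, rfl⟩⟩
  refine hn (ini x (n + 1)) ⟨n + 1, rfl⟩ ⟨fun k => ?_, x n, ini_succ x n⟩
  rw [ini_take]
  exact hx _

theorem exists_branch_ext {T : List α → Prop} (hT : IP N T) (x : ℕ → α) (hx : ∀ n, T (ini x n)) (k : ℕ) :
    ∃ y : ℕ → α, IF N y ∧ (∀ n, T (ini y n)) ∧ ∀ i < k, y i = x i := by
  have h1 : IP N (fun t : List α => T t ∧ ∀ i ∈ List.range k, t.length ≤ i ∨ t[i]? = some (x i)) := by
    refine IP.and hT (IP.list_all (P := fun (i : ℕ) (t : List α) =>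
      t.length ≤ i ∨ t[i]? = some (x i)) _ fun i _ => ?_)
    exact IP.or (IP.le (IF.length IF.id) (IF.const i))
      (IP.eqSome (IF.getElem? IF.id (IF.const i)) (IF.const (x i)))
  obtain ⟨y, hy, hy'⟩ := exists_branch h1 x fun n => ⟨hx n, fun i _ => by
    rcases lt_or_ge i n with h | h
    · exact Or.inr (ini_get x h)
    · exact Or.inl (by rw [ini_length]; exact h)⟩
  refine ⟨y, hy, fun n => (hy' n).1, fun i hi => ?_⟩
  rcases (hy' (i + 1)).2 i (List.mem_range.2 hi) with h | h
  · rw [ini_length] at h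
    omega
  · rw [ini_get y (Nat.lt_succ_self i), Option.some_inj] at h
    exact h

end WCal
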