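import Pool.Agent.WCal.ReB
import Pool.Agent.WCal.Simp

/-! # Automation for internal real functions

(problem MP_ba5606_gt, ARH Part II; no sorry in this file)

The closure lemmas for `IR N f` and for inequalities of real functions are simp lemmas. Hypotheses `h : IR N f` are used as `h.comp`,
`h : IR N (fun p : α × β => f p.1 p.2)` as `h.comp2`, `h : IR N (fun p : α × β × γ => f p.1 p.2.1 p.2.2)` as `h.comp3`.
See `Simp.lean` and the example at the end. -/

set_option autoImplicit false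

universe u v w x

namespace WCal

open STP WM

variable {N : Type u} [WM N] [Std N] {α : Type v} {β : Type w} {γ : Type x} [WTy N α] [WTy N β] [WTy N γ]

theorem IR.comp2 {h : β → γ → ℝ} {f : α → β} {g : α → γ} (hh : IR N (fun p : β × γ => h p.1 p.2))
    (hf : IF N f) (hg : IF N g) : IR N (fun a => h (f a) (g a)) :=
  IR.comp hh (hf.pair hg)

theorem IR.comp3 {δ : Type*} [WTy N δ] {h : β → γ → δ → ℝ} {f : α → β} {g : α → γ} {k : α → δ}
    (hh : IR N (fun p : β × γ × δ => h p.1 p.2.1 p.2.2)) (hf : IF N f) (hg : IF N g) (hk : IF N k) :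
    IR N (fun a => h (f a) (g a) (k a)) :=
  IR.comp hh (hf.pair (hg.pair hk))

theorem IR.v {f : α → RW N} (hf : IF N f) : IR N (fun a => (f a).v) := IR.iff_IF.1 hf

theorem isR_of {x : ℝ} (h : IR N (fun _ : Unit => x)) : IsR N x := h.isR ()

theorem isR_zero : IsR N 0 := by
  have := isR_rat (N := N) 0
  rwa [Rat.cast_zero] at this

theorem isR_one : IsR N 1 := by
  have := isR_rat (N := N) 1
  rwa [Rat.cast_one] at this

theorem isR_nat (n : ℕ) : IsR N (n : ℝ) := by
  have := isR_rat (N := N) n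
  rwa [Rat.cast_natCast] at this

theorem isR_ofNat (n : ℕ) [n.AtLeastTwo] : IsR N (ofNat(n) : ℝ) := isR_nat n

theorem isR_neg {x : ℝ} (h : IsR N x) : IsR N (-x) := isR_of (IR.neg (IR.const h))

theorem isR_add {x y : ℝ} (h : IsR N x) (h' : IsR N y) : IsR N (x + y) :=
  isR_of (IR.add (IR.const h) (IR.const h'))

theorem isR_sub {x y : ℝ} (h : IsR N x) (h' : IsR N y) : IsR N (x - y) :=
  isR_of (IR.sub (IR.const h) (IR.const h'))

theorem isR_mul {x y : ℝ} (h : IsR N x) (h' : IsR N y) : IsR N (x * y) :=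
  isR_of (IR.mul (IR.const h) (IR.const h'))

theorem isR_inv {x : ℝ} (h : IsR N x) : IsR N x⁻¹ := by
  rcases lt_trichotomy x 0 with hx | hx | hx
  · have h1 : IsR N (-x)⁻¹ := isR_of (IR.inv (IR.const (isR_neg h)) fun _ => by linarith)
    have h2 := isR_neg h1
    rwa [inv_neg, neg_neg] at h2
  · rw [hx, inv_zero]
    exact isR_zero
  · exact isR_of (IR.inv (IR.const h) fun _ => hx)

theorem isR_div {x y : ℝ} (h : IsR N x) (h' : IsR N y) : IsR N (x / y) := by
  rw [div_eq_mul_inv]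
  exact isR_mul h (isR_inv h')

theorem isR_pow {x : ℝ} (h : IsR N x) (n : ℕ) : IsR N (x ^ n) := by
  induction n with
  | zero => rw [pow_zero]; exact isR_one
  | succ n ih => rw [pow_succ]; exact isR_mul ih h

/-- division by a constant -/
theorem IR.divc {f : α → ℝ} {x : ℝ} (hf : IR N f) (h : IsR N x) : IR N (fun a => f a / x) := by
  simp only [div_eq_mul_inv]
  exact IR.mul hf (IR.const (isR_inv h))

theorem IR.half_pow' {f : α → ℕ} (hf : IF N f) : IR N (fun a => (2⁻¹ : ℝ) ^ f a) := by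
  have := IR.half_pow hf
  rwa [one_div] at this

theorem IP.ltQ {f g : α → ℚ} (hf : IF N f) (hg : IF N g) : IP N (fun a => f a < g a) :=
  IP.comp2 (P := fun p q : ℚ => p < q) Std.lt hf hg

theorem IP.leQ {f g : α → ℚ} (hf : IF N f) (hg : IF N g) : IP N (fun a => f a ≤ g a) :=
  IP.congr (fun _ => not_lt) (IP.not (IP.ltQ hg hf))

theorem IF.addQ {f g : α → ℚ} (hf : IF N f) (hg : IF N g) : IF N (fun a => f a + g a) :=
  IF.comp2 (h := fun p q : ℚ => p + q) Std.add hf hg

theorem IF.mulQ {f g : α → ℚ} (hf : IF N f) (hg : IF N g) : IF N (fun a => f a * g a) :=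
  IF.comp2 (h := fun p q : ℚ => p * q) Std.mul hf hg

theorem IF.negQ {f : α → ℚ} (hf : IF N f) : IF N (fun a => -f a) := IF.comp (g := fun p : ℚ => -p) Std.neg hf

theorem IF.subQ {f g : α → ℚ} (hf : IF N f) (hg : IF N g) : IF N (fun a => f a - g a) :=
  (IF.addQ hf (IF.negQ hg)).congr fun a => (sub_eq_add_neg _ _).symm

theorem IF.castQ {f : α → ℕ} (hf : IF N f) : IF N (fun a => (f a : ℚ)) :=
  IF.comp (g := fun n : ℕ => (n : ℚ)) Std.nat hf

theorem IR.ratid : IR N (fun q : ℚ => (q : ℝ)) := IR.rat IF.id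

theorem IR.natid : IR N (fun n : ℕ => (n : ℝ)) := IR.nat IF.id

theorem isR_abs {x : ℝ} (h : IsR N x) : IsR N |x| := isR_of (IR.abs (IR.const h))

attribute [simp] IR.ratid IR.natid isR_abs isR_zero isR_one isR_nat isR_ofNat isR_rat isR_neg isR_add isR_sub isR_mul isR_inv isR_div
  isR_pow IR.const IR.rat IR.nat IR.v IR.ite IR.ev IR.lamR IR.add IR.neg IR.sub IR.max IR.min IR.abs IR.mul
  IR.divc IR.half_pow IR.half_pow' IP.ltR IP.leR IP.eqR IP.ltQ IP.leQ IF.addQ IF.mulQ IF.negQ IF.subQ IF.castQ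

example {f : ℕ → α → ℝ} (hf : IR N (fun p : ℕ × α => f p.1 p.2)) {x : ℕ → α} (hx : IF N x) :
    IP N (fun p : ℕ × ℚ => ∀ m, (p.2 : ℝ) < f (m + p.1) (x m) ∨ |f 0 (x 5)| / 2 ≤ max (1 / 3) (-p.2)) := by
  simp (maxDischargeDepth := 99) [hf.comp2, hx.comp]

end WCal
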