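import Pool.Agent.WCal.Lft
import Pool.Agent.CPY.Lang

/-! # Transitive models as well-founded models

(problem MP_ba5606_gt, ARH Part II, block 0; architect helper69)

For `W : Set ZFSet.{0}` with `CPY.Mod W` (transitive, ZFC) the type `W` is a well-founded model (`wmOf h`, or the instance for `[Fact (CPY.Mod W)]`); `E x y` is
`x.1 ∈ y.1`.

PROOFS.
* `Em_wf`: `ZFSet.mem_wf` along `Subtype.val`. `op_val`: `(op x y).1 = ZFSet.pair x.1 y.1`: transitivity of `W` and extensionality (an element of `W` is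
  determined by its elements, and the elements are in `W`); `ZFSet.pair x y = {{x}, {x, y}}`. `sep_mem`: a subclass of an element of `W` given by an internal
  predicate. `embOf`: the inclusion of transitive models.
* `nt_val`: `(nt W n).1 = zn n`, `zn 0 = ∅`, `zn (n + 1) = insert (zn n) (zn n)`. -/

universe v w

namespace WCal

open STP WM

theorem Em_wf (W : Set ZFSet.{0}) : WellFounded (CPY.Em W) :=
  InvImage.wf Subtype.val ZFSet.mem_wf

/-- the well-founded model given by a transitive set -/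
@[reducible] def wmOf {W : Set ZFSet.{0}} (h : CPY.Mod W) : WM W where
  E := CPY.Em W
  zfc := h.zfc
  wf := Em_wf W

instance instWMSet {W : Set ZFSet.{0}} [h : Fact (CPY.Mod W)] : WM W := wmOf h.out

/-- the natural numbers as sets -/
noncomputable def zn : ℕ → ZFSet.{0}
  | 0 => ∅
  | n + 1 => insert (zn n) (zn n)

variable {W : Set ZFSet.{0}} [hW : Fact (CPY.Mod W)]

theorem E_val {x y : W} : E x y ↔ x.1 ∈ y.1 := Iff.rfl

private theorem val_eq (x : W) (y : ZFSet.{0}) (h1 : ∀ w : W, E w x ↔ w.1 ∈ y)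
    (h2 : ∀ z ∈ y, z ∈ W) : x.1 = y := by
  apply ZFSet.ext
  intro z
  constructor
  · intro hz
    exact (h1 ⟨z, hW.out.trans x.1 x.2 z hz⟩).1 hz
  · intro hz
    exact (h1 ⟨z, h2 z hz⟩).2 hz

theorem up_val (x y : W) : (up x y).1 = ({x.1, y.1} : ZFSet.{0}) := by
  refine val_eq _ _ (fun w => ?_) fun z hz => ?_
  · rw [E_up, ZFSet.mem_pair, Subtype.ext_iff, Subtype.ext_iff]
  · rcases ZFSet.mem_pair.1 hz with rfl | rfl
    · exact x.2
    · exact y.2

private theorem op_eq (x y : W) : op x y = up (up x x) (up x y) := by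
  rw [ext_iff']
  intro z
  rw [isOP_op x y z, E_up, ext_iff', ext_iff']
  simp only [E_up]
  exact Iff.rfl

theorem op_val (x y : W) : (op x y).1 = ZFSet.pair x.1 y.1 := by
  rw [op_eq, up_val, up_val, up_val]
  have h : ({x.1, x.1} : ZFSet.{0}) = {x.1} := by
    apply ZFSet.ext
    intro z
    rw [ZFSet.mem_pair, or_self, ZFSet.mem_singleton]
  rw [h]
  rfl

theorem pair_mem {x y : ZFSet.{0}} (hx : x ∈ W) (hy : y ∈ W) : ZFSet.pair x y ∈ W := by
  rw [← op_val (⟨x, hx⟩ : W) ⟨y, hy⟩]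
  exact (op (⟨x, hx⟩ : W) ⟨y, hy⟩).2

theorem of_pair_mem {x y : ZFSet.{0}} (h : ZFSet.pair x y ∈ W) : x ∈ W ∧ y ∈ W := by
  have h1 : ({x, y} : ZFSet.{0}) ∈ W := hW.out.trans _ h _ (ZFSet.mem_pair.2 (Or.inr rfl))
  exact ⟨hW.out.trans _ h1 _ (ZFSet.mem_pair.2 (Or.inl rfl)),
    hW.out.trans _ h1 _ (ZFSet.mem_pair.2 (Or.inr rfl))⟩

theorem nt_val (n : ℕ) : (nt W n).1 = zn n := by
  induction n with
  | zero =>
    exact val_eq (emp : W) ∅ (fun w => iff_of_false (E_emp w) (ZFSet.notMem_empty _))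
      fun z hz => absurd hz (ZFSet.notMem_empty _)
  | succ n ih =>
    refine val_eq (sc (nt W n)) (insert (zn n) (zn n)) (fun w => ?_) fun z hz => ?_
    · rw [E_sc, ZFSet.mem_insert_iff, ← ih, Subtype.ext_iff, or_comm]
      exact Iff.rfl
    · rw [ZFSet.mem_insert_iff, ← ih] at hz
      rcases hz with rfl | hz
      · exact (nt W n).2
      · exact hW.out.trans _ (nt W n).2 _ hz

theorem om_val (z : ZFSet.{0}) : z ∈ (om W).1 ↔ ∃ n, z = zn n := by
  constructor
  · intro hz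
    have h1 : E (⟨z, hW.out.trans _ (om W).2 _ hz⟩ : W) (om W) := hz
    obtain ⟨n, hn⟩ := E_om.1 h1
    exact ⟨n, (congrArg Subtype.val hn).trans (nt_val n)⟩
  · rintro ⟨n, rfl⟩
    rw [← nt_val (W := W) n]
    have h1 : E (nt W n) (om W) := E_om.2 ⟨n, rfl⟩
    exact h1

theorem prod_mem {x y : ZFSet.{0}} (hx : x ∈ W) (hy : y ∈ W) : x.prod y ∈ W := by
  have h : (pr (⟨x, hx⟩ : W) ⟨y, hy⟩).1 = x.prod y := by
    refine val_eq _ _ (fun w => ?_) fun z hz => ?_
    · rw [E_pr, ZFSet.mem_prod]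
      constructor
      · rintro ⟨a, b, ha, hb, rfl⟩
        exact ⟨a.1, ha, b.1, hb, op_val a b⟩
      · rintro ⟨a, ha, b, hb, hw⟩
        refine ⟨⟨a, hW.out.trans x hx a ha⟩, ⟨b, hW.out.trans y hy b hb⟩, ha, hb, ?_⟩
        exact Subtype.ext (hw.trans (op_val (⟨a, hW.out.trans x hx a ha⟩ : W)
          ⟨b, hW.out.trans y hy b hb⟩).symm)
    · obtain ⟨a, ha, b, hb, rfl⟩ := ZFSet.mem_prod.1 hz
      exact pair_mem (hW.out.trans x hx a ha) (hW.out.trans y hy b hb)
  rw [← h]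
  exact (pr (⟨x, hx⟩ : W) ⟨y, hy⟩).2

/-- the elements of an element of `W` -/
theorem IP.iff_mem {α : Type v} [WTy W α] {P : α → Prop} :
    IP W P ↔ ∃ x ∈ W, ∀ a, P a ↔ (cd W a).1 ∈ x := by
  constructor
  · rintro ⟨s, hs⟩
    exact ⟨s.1, s.2, hs⟩
  · rintro ⟨x, hx, h⟩
    exact ⟨⟨x, hx⟩, h⟩

/-- the subset of an element of `W` defined by an internal predicate of its elements is an element of `W` -/
theorem sep_mem {x : ZFSet.{0}} (hx : x ∈ W) {P : El (⟨x, hx⟩ : W) → Prop} (hP : IP W P) (y : ZFSet.{0})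
    (hy : ∀ z, z ∈ y ↔ ∃ (h : z ∈ x), P ⟨⟨z, hW.out.trans x hx z h⟩, h⟩) : y ∈ W := by
  obtain ⟨x0, h0⟩ := exists_sub W P hP
  have h1 : x0.1 = y := by
    refine val_eq _ _ (fun w => ?_) fun z hz => ?_
    · rw [h0, hy]
      constructor
      · rintro ⟨a, ha, rfl⟩
        exact ⟨a.h, ha⟩
      · rintro ⟨h, hw⟩
        exact ⟨_, hw, rfl⟩
    · obtain ⟨h, -⟩ := (hy z).1 hz
      exact hW.out.trans x hx z h
  rw [← h1]
  exact x0.2

/-- the inclusion of transitive models -/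
def embOf {M : Set ZFSet.{0}} [hM : Fact (CPY.Mod M)] (h : M ⊆ W) : Emb M W where
  i x := ⟨x.1, h x.2⟩
  inj x y hxy := Subtype.ext (by simpa using hxy)
  hE x y := Iff.rfl
  tr x z hz := ⟨⟨z.1, hM.out.trans x.1 x.2 z.1 hz⟩, rfl⟩

end WCal
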