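import Pool.Agent.WCal.FinD
import Pool.Agent.WCal.Wo
import Pool.Agent.ZU.Rec

/-! # The typed calculus and the untyped calculus (ZU)

(problem MP_ba5606_gt, ARH Part II, block 0; architect helper69)

Every `WM N` is a `ZU.ZM N` (with the same relation). In `ZU` the definability of predicates and functions on `N` with parameters is proved by
`by simp (maxDischargeDepth := 99)` (see `ZU/Dfn.lean`, `ZU/Ops.lean`, `ZU/Rec.lean`).

PROOFS. `op_eq`, ...: extensionality / `ZU.isOP_iff`. `IP.of_dfn`: `ZU.exists_sep` for the set `rg N α`. `dfn_ip`: `v 0 ∈ s` with the set `s` of `P`, and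
`v 0 ∈ rg N α` (the code determines the element). `IF.of_df`, `IF.of_df2`: the graph, with `ZU.fst`, `ZU.snd` or quantifiers over the components of the
pair.
* `exists_ord_image`: (import `WCal.Wo` if you like) well-order `r` of `El A` (`exists_wo`), collapse `c : El A → N` of `r` (`exists_mos`; minimal elements of
  internal sets exist as `r` is well-founded natively); the range `o` of `c` (a set of the model by replacement, from the set `g` of `exists_mos`) is transitive, and so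
  are all `c a`, so `o` is an ordinal (`IsOrd`); `c` is injective since `r` is linear; `f` is the inverse of `c`. -/

universe u v w x

namespace WCal

open STP WM

variable {N : Type u} [WM N]

instance instZM : ZU.ZM N where
  E := WM.E
  wf := WM.wf
  ax :=
    { ext := WM.zfc.ext
      pair := WM.zfc.pair
      union := WM.zfc.union
      power := WM.zfc.power
      infinity := WM.zfc.infinity
      separation := WM.zfc.separation
      replacement := WM.zfc.replacement }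

theorem E_mem {x y : N} : WM.E x y ↔ x ∈ y := Iff.rfl

theorem emp_eq : (emp : N) = ∅ := ZU.eq_em fun z hz => E_emp z hz

theorem up_eq (x y : N) : WCal.up x y = ZU.up x y :=
  ZU.ext fun _ => (E_up (x := x) (y := y)).trans ZU.mem_up.symm

theorem op_eq (x y : N) : WCal.op x y = ZU.op x y :=
  ZU.isOP_iff.1 (show IsOP ZU.ZM.E (WCal.op x y) x y from isOP_op x y)

theorem un_eq (x : N) : un x = ZU.uni x :=
  ZU.ext fun _ => (E_un (x := x)).trans ZU.mem_uni.symm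

theorem pw_eq (x : N) : WCal.pw x = ZU.pw x :=
  ZU.ext fun _ => (E_pw (x := x)).trans ZU.mem_pw.symm

theorem pr_eq (x y : N) : pr x y = ZU.prd x y := by
  refine ZU.ext fun z => (E_pr (x := x) (y := y)).trans ?_
  rw [ZU.mem_prd]
  simp only [op_eq]
  exact Iff.rfl

variable {α : Type v} {β : Type w} {γ : Type x} [WTy N α] [WTy N β] [WTy N γ]

private theorem zub_cd (a : α) (b : β) : cd N (a, b) = ZU.op (cd N a) (cd N b) := op_eq _ _

/-- a predicate of the codes which is definable is internal -/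
theorem IP.of_dfn {P : α → Prop} {Q : N → Prop} (hQ : ZU.Dfn fun v => Q (v 0))
    (h : ∀ a, P a ↔ Q (cd N a)) : IP N P := by
  obtain ⟨y, hy⟩ := ZU.exists_sep hQ (rg N α)
  refine ⟨y, fun a => ?_⟩
  rw [h a]
  exact ⟨fun h1 => (hy _).2 ⟨cd_mem a, h1⟩, fun h1 => ((hy _).1 h1).2⟩

theorem IP.of_dfn2 {P : α × β → Prop} {Q : N → N → Prop} (hQ : ZU.Dfn fun v => Q (v 0) (v 1))
    (h : ∀ a b, P (a, b) ↔ Q (cd N a) (cd N b)) : IP N P := by
  refine IP.of_dfn (Q := fun z => Q (ZU.fst z) (ZU.snd z))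
    (ZU.dfn2 hQ (ZU.df_fst (ZU.df_var 0)) (ZU.df_snd (ZU.df_var 0))) ?_
  rintro ⟨a, b⟩
  rw [h, zub_cd, ZU.fst_op, ZU.snd_op]

theorem IP.of_dfn3 {P : α × β × γ → Prop} {Q : N → N → N → Prop}
    (hQ : ZU.Dfn fun v => Q (v 0) (v 1) (v 2))
    (h : ∀ a b c, P (a, b, c) ↔ Q (cd N a) (cd N b) (cd N c)) : IP N P := by
  refine IP.of_dfn (Q := fun z => Q (ZU.fst z) (ZU.fst (ZU.snd z)) (ZU.snd (ZU.snd z)))
    (ZU.dfn3 hQ (ZU.df_fst (ZU.df_var 0)) (ZU.df_fst (ZU.df_snd (ZU.df_var 0)))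
      (ZU.df_snd (ZU.df_snd (ZU.df_var 0)))) ?_
  rintro ⟨a, b, c⟩
  rw [h, zub_cd, ZU.fst_op, ZU.snd_op, zub_cd, ZU.fst_op, ZU.snd_op]

/-- a function which is given on the codes by a definable function is internal -/
theorem IF.of_df {f : α → β} {F : N → N} (hF : ZU.DF fun v => F (v 0))
    (h : ∀ a, cd N (f a) = F (cd N a)) : IF N f := by
  refine IP.of_dfn2 (Q := fun x y => F x = y) (ZU.dfn_eq hF (ZU.df_var 1)) ?_
  intro a b
  rw [← h, cd_inj]

theorem IF.of_df2 {f : α × β → γ} {F : N → N → N} (hF : ZU.DF fun v => F (v 0) (v 1))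
    (h : ∀ a b, cd N (f (a, b)) = F (cd N a) (cd N b)) : IF N f := by
  refine IF.of_df (F := fun z => F (ZU.fst z) (ZU.snd z))
    (ZU.df2 hF (ZU.df_fst (ZU.df_var 0)) (ZU.df_snd (ZU.df_var 0))) ?_
  rintro ⟨a, b⟩
  rw [h, zub_cd, ZU.fst_op, ZU.snd_op]

/-- internal predicates are definable predicates of the codes -/
theorem dfn_ip {P : α → Prop} (h : IP N P) : ZU.Dfn fun v : ℕ → N => ∃ a, cd N a = v 0 ∧ P a := by
  obtain ⟨s, hs⟩ := h
  refine (ZU.dfn_and (ZU.dfn_mem (ZU.df_var 0) (ZU.df_const s))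
    (ZU.dfn_mem (ZU.df_var 0) (ZU.df_const (rg N α)))).congr fun v => ?_
  constructor
  · rintro ⟨a, h1, h2⟩
    rw [← h1]
    exact ⟨(hs a).1 h2, cd_mem a⟩
  · rintro ⟨h1, h2⟩
    obtain ⟨a, ha⟩ := E_rg.1 h2
    refine ⟨a, ha, (hs a).2 ?_⟩
    rw [ha]
    exact h1

/-- for every internal function there is a definable function on `N` which extends it -/
theorem df_if {f : α → β} (h : IF N f) :
    ∃ F : N → N, (ZU.DF fun v => F (v 0)) ∧ ∀ a, F (cd N a) = cd N (f a) := by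
  obtain ⟨s, hs⟩ := h
  refine ⟨fun x => ZU.the fun y => y ∈ rg N β ∧ ZU.op x y ∈ s,
    ZU.df_the (R := fun y v => y ∈ rg N β ∧ ZU.op (v 0) y ∈ s)
      (ZU.dfn_and (ZU.dfn_mem (ZU.df_var 0) (ZU.df_const _))
        (ZU.dfn_mem (ZU.df_op (ZU.df_var 1) (ZU.df_var 0)) (ZU.df_const s))), fun a => ?_⟩
  refine ZU.the_eq ⟨cd_mem (f a), ?_⟩ ?_
  · have h1 : E (cd N (a, f a)) s := (hs (a, f a)).1 rfl
    rw [zub_cd] at h1
    exact h1
  · rintro z ⟨h1, h2⟩
    obtain ⟨b, rfl⟩ := E_rg.1 h1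
    rw [← zub_cd] at h2
    have h3 : f a = b := (hs (a, b)).2 h2
    rw [h3]

/-- a code of the internal set given by a definable function: families of sets -/
theorem exists_St {P : α → Prop} {Q : N → Prop} (hQ : ZU.Dfn fun v => Q (v 0))
    (h : ∀ a, P a ↔ Q (cd N a)) : ∃ S : St N α, ∀ a, a ∈ S ↔ P a :=
  ⟨⟨{a | P a}, IP.of_dfn hQ h⟩, fun _ => Iff.rfl⟩

/-- every set of the model is the image of an ordinal of the model -/
theorem exists_ord_image (A : N) : ∃ o : N, IsOrd E o ∧ ∃ f : El o → N, (∃ g : N, ∀ z, E z g ↔ ∃ a, z = op a.v (f a)) ∧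
    ∀ y, E y A → ∃ a, f a = y := by
  obtain ⟨r, hr, hwo⟩ := exists_wo N (El A)
  obtain ⟨c, hc, g, hg⟩ := exists_mos hr (fun S hS => by
    obtain ⟨a, ha, hmin⟩ := hwo.wf.has_min {a | a ∈ S} hS
    exact ⟨a, ha, fun b hb => hmin b hb⟩)
  have hgc : ∀ x y : N, ZU.op x y ∈ g ↔ ∃ a : El A, x = a.v ∧ y = c a := by
    intro x y
    refine (hg (ZU.op x y)).trans (exists_congr fun a => ?_)
    rw [op_eq, ZU.op_inj]
    exact Iff.rfl
  have ho : ∀ y : N, E y (ZU.rg g) ↔ ∃ a : El A, y = c a := by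
    intro y
    have h1 : E y (ZU.rg g) ↔ ∃ x, ZU.op x y ∈ g := ZU.mem_rg (f := g) (y := y)
    rw [h1]
    constructor
    · rintro ⟨x, hx⟩
      obtain ⟨a, -, h2⟩ := (hgc x y).1 hx
      exact ⟨a, h2⟩
    · rintro ⟨a, h2⟩
      exact ⟨a.v, (hgc _ _).2 ⟨a, rfl, h2⟩⟩
  have hinj : ∀ a b, c a = c b → a = b := by
    intro a b hab
    rcases hwo.lin a b with h1 | h1 | h1
    · exact absurd ((hc b (c a)).2 ⟨a, h1, rfl⟩) (by rw [hab]; exact E_irrefl _)
    · exact h1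
    · exact absurd ((hc a (c b)).2 ⟨b, h1, rfl⟩) (by rw [hab]; exact E_irrefl _)
  have hord : IsOrd E (ZU.rg g) := by
    refine ⟨?_, ?_⟩
    · intro y hy z hz
      obtain ⟨a, rfl⟩ := (ho y).1 hy
      obtain ⟨b, -, rfl⟩ := (hc a z).1 hz
      exact (ho _).2 ⟨b, rfl⟩
    · intro y hy z hz w hw
      obtain ⟨a, rfl⟩ := (ho y).1 hy
      obtain ⟨b, hb, rfl⟩ := (hc a z).1 hz
      obtain ⟨d, hd, rfl⟩ := (hc b w).1 hw
      exact (hc a _).2 ⟨d, hwo.tr _ _ _ hd hb, rfl⟩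
  refine ⟨ZU.rg g, hord, ?_⟩
  choose k hk using fun x : El (ZU.rg g) => (ho x.v).1 x.h
  have hkc : ∀ (a : El A) (h : E (c a) (ZU.rg g)), k ⟨c a, h⟩ = a := fun a h =>
    (hinj _ _ (hk ⟨c a, h⟩)).symm
  refine ⟨fun x => (k x).v, ⟨ZU.img g fun p => ZU.op (ZU.snd p) (ZU.fst p), fun z => ?_⟩,
    fun y hy => ?_⟩
  · have h1 : E z (ZU.img g fun p => ZU.op (ZU.snd p) (ZU.fst p)) ↔
        ∃ p, p ∈ g ∧ z = ZU.op (ZU.snd p) (ZU.fst p) :=
      ZU.mem_img (F := fun p => ZU.op (ZU.snd p) (ZU.fst p)) (x := g) (w := z)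
        (ZU.df_op (ZU.df_snd (ZU.df_var 0)) (ZU.df_fst (ZU.df_var 0)))
    rw [h1]
    constructor
    · rintro ⟨p, hp, rfl⟩
      obtain ⟨a, rfl⟩ := (hg p).1 hp
      have h2 : E (c a) (ZU.rg g) := (ho _).2 ⟨a, rfl⟩
      refine ⟨⟨c a, h2⟩, ?_⟩
      simp only
      rw [hkc, op_eq, op_eq, ZU.fst_op, ZU.snd_op]
      rfl
    · rintro ⟨x, rfl⟩
      refine ⟨ZU.op (k x).v (c (k x)), (hgc _ _).2 ⟨k x, rfl, rfl⟩, ?_⟩
      rw [ZU.fst_op, ZU.snd_op, op_eq, ← hk x]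
  · have h2 : E (c ⟨y, hy⟩) (ZU.rg g) := (ho _).2 ⟨⟨y, hy⟩, rfl⟩
    refine ⟨⟨c ⟨y, hy⟩, h2⟩, ?_⟩
    simp only
    rw [hkc]

end WCal
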