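import Pool.Agent.WCal.FinA

/-! # Closure lemmas for `Option α`, `α ⊕ β`, `List α`

(problem MP_ba5606_gt, ARH Part II, block 0; architect helper69)

PROOFS. Each basic function (`some`, `inl`, `l ↦ l[i]?`) is internal by `IP.of_sat` with a formula which describes the codes
(`FinA.lean`: the code of `some a` is `up (cd a) (cd a)`, of `inl a` is `op (nt 0) (cd a)`, the code of a list is the set of the pairs
`op (nt i) (cd l[i])`).
* `IF.getElem?`: `(l, i) ↦ l[i]?`; `l[i]? = some a` iff the pair of `i` and `a` is an element of the code of `l`: formula; then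
  `l[i]? = o` by cases on `o`. `IF.length`: the least `n` with `l[n]? = none`.
* `IF.cons`: `l' = a :: l` iff `l'[0]? = some a ∧ ∀ i, l'[i+1]? = l[i]?` (lists with the same `getElem?` are equal, `List.ext_getElem?`).
  `IF.append`, `IF.take` the same way. Membership `a ∈ l` iff `∃ i, l[i]? = some a`. -/

universe u v w x

namespace WCal

open STP WM

variable {N : Type u} [WM N] {α : Type v} {β : Type w} {γ : Type x} [WTy N α] [WTy N β] [WTy N γ]

private theorem fb_fst {f : α → β × γ} (hf : IF N f) : IF N (fun a => (f a).1) :=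
  IF.comp IF.fst hf

private theorem fb_snd {f : α → β × γ} (hf : IF N f) : IF N (fun a => (f a).2) :=
  IF.comp IF.snd hf

private theorem fb_isUP {z x y : N} : IsUP E z x y ↔ z = up x y := by
  rw [ext_iff']
  simp only [E_up]
  exact Iff.rfl

private theorem fb_some : IF N (fun a : α => (Option.some a : Option α)) := by
  refine IP.of_sat (Fml.ex (Fml.ex (Fml.an (fOP 2 1 0) (fUP 0 1 1)))) (fun _ => emp) fun p => ?_
  simp only [sat_ex, sat_an, sat_fOP, sat_fUP]
  change _ ↔ ∃ x u, IsOP E (cd N p) x u ∧ IsUP E u x x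
  constructor
  · intro h
    refine ⟨cd N p.1, cd N p.2, isOP_op _ _, fb_isUP.2 ?_⟩
    rw [← h]
    rfl
  · rintro ⟨x, u, h, h'⟩
    have h2 : op (cd N p.1) (cd N p.2) = op x u := isOP_iff.1 h
    obtain ⟨h3, h4⟩ := op_inj.1 h2
    have h5 := fb_isUP.1 h'
    refine (cd_inj (N := N)).1 ?_
    rw [h4, h5, ← h3]
    rfl

theorem IF.some {f : β → α} (hf : IF N f) : IF N (fun b => (Option.some (f b) : Option α)) := by
  exact IF.comp fb_some hf

theorem IP.eqSome {f : γ → Option α} {g : γ → α} (hf : IF N f) (hg : IF N g) :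
    IP N (fun c => f c = Option.some (g c)) := by
  exact IP.eq hf (IF.some hg)

theorem IF.optElim {f : γ → Option α} {b : γ → β} {g : γ → α → β} (hf : IF N f) (hb : IF N b)
    (hg : IF N (fun p : γ × α => g p.1 p.2)) : IF N (fun c => (f c).elim (b c) (g c)) := by
  refine IF.ofP (Q := fun c y => (f c = Option.none ∧ b c = y) ∨
    ∃ a, f c = Option.some a ∧ g c a = y) ?_ ?_
  · refine IP.or (IP.and (IP.eq (IF.comp hf IF.fst) (IF.const _))
      (IP.eq (IF.comp hb IF.fst) IF.snd)) ?_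
    refine IP.ex (P := fun (p : γ × β) (a : α) => f p.1 = Option.some a ∧ g p.1 a = p.2) ?_
    refine IP.and (IP.eqSome (IF.comp hf (fb_fst IF.fst)) IF.snd) ?_
    exact IP.eq (IF.comp (g := fun p : γ × α => g p.1 p.2) hg (IF.pair (fb_fst IF.fst) IF.snd))
      (fb_snd IF.fst)
  · intro c y
    cases h : f c with
    | none => simp
    | some a => simp

theorem IF.inl {f : γ → α} (hf : IF N f) : IF N (fun c => (Sum.inl (f c) : α ⊕ β)) := by
  refine IF.comp (g := fun a : α => (Sum.inl a : α ⊕ β)) ?_ hf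
  refine IP.of_sat (Fml.ex (Fml.ex (Fml.an (fOP 2 1 0) (fOP 0 3 1)))) (fun _ => nt N 0)
    fun p => ?_
  simp only [sat_ex, sat_an, sat_fOP]
  change _ ↔ ∃ x u, IsOP E (cd N p) x u ∧ IsOP E u (nt N 0) x
  constructor
  · intro h
    refine ⟨cd N p.1, cd N p.2, isOP_op _ _, isOP_iff.2 ?_⟩
    rw [← h]
    rfl
  · rintro ⟨x, u, h, h'⟩
    have h2 : op (cd N p.1) (cd N p.2) = op x u := isOP_iff.1 h
    obtain ⟨h3, h4⟩ := op_inj.1 h2
    have h5 := isOP_iff.1 h'
    refine (cd_inj (N := N)).1 ?_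
    rw [h4, h5, ← h3]
    rfl

theorem IF.inr {f : γ → β} (hf : IF N f) : IF N (fun c => (Sum.inr (f c) : α ⊕ β)) := by
  refine IF.comp (g := fun a : β => (Sum.inr a : α ⊕ β)) ?_ hf
  refine IP.of_sat (Fml.ex (Fml.ex (Fml.an (fOP 2 1 0) (fOP 0 3 1)))) (fun _ => nt N 1)
    fun p => ?_
  simp only [sat_ex, sat_an, sat_fOP]
  change _ ↔ ∃ x u, IsOP E (cd N p) x u ∧ IsOP E u (nt N 1) x
  constructor
  · intro h
    refine ⟨cd N p.1, cd N p.2, isOP_op _ _, isOP_iff.2 ?_⟩
    rw [← h]
    rfl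
  · rintro ⟨x, u, h, h'⟩
    have h2 : op (cd N p.1) (cd N p.2) = op x u := isOP_iff.1 h
    obtain ⟨h3, h4⟩ := op_inj.1 h2
    have h5 := isOP_iff.1 h'
    refine (cd_inj (N := N)).1 ?_
    rw [h4, h5, ← h3]
    rfl

theorem IF.sumElim {δ : Type*} [WTy N δ] {f : γ → α ⊕ β} {g : γ → α → δ} {h : γ → β → δ} (hf : IF N f)
    (hg : IF N (fun p : γ × α => g p.1 p.2)) (hh : IF N (fun p : γ × β => h p.1 p.2)) :
    IF N (fun c => (f c).elim (g c) (h c)) := by
  refine IF.ofP (Q := fun c y => (∃ a, f c = Sum.inl a ∧ g c a = y) ∨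
    ∃ b, f c = Sum.inr b ∧ h c b = y) ?_ ?_
  · refine IP.or ?_ ?_
    · refine IP.ex (P := fun (p : γ × δ) (a : α) => f p.1 = Sum.inl a ∧ g p.1 a = p.2) ?_
      refine IP.and (IP.eq (IF.comp hf (fb_fst IF.fst)) (IF.inl IF.snd)) ?_
      exact IP.eq (IF.comp (g := fun p : γ × α => g p.1 p.2) hg (IF.pair (fb_fst IF.fst) IF.snd))
        (fb_snd IF.fst)
    · refine IP.ex (P := fun (p : γ × δ) (b : β) => f p.1 = Sum.inr b ∧ h p.1 b = p.2) ?_
      refine IP.and (IP.eq (IF.comp hf (fb_fst IF.fst)) (IF.inr IF.snd)) ?_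
      exact IP.eq (IF.comp (g := fun p : γ × β => h p.1 p.2) hh (IF.pair (fb_fst IF.fst) IF.snd))
        (fb_snd IF.fst)
  · intro c y
    cases hc : f c with
    | inl a => simp
    | inr b => simp

theorem cd_list (l : List α) (z : N) :
    E z (cd N l) ↔ ∃ (i : ℕ) (a : α), l[i]? = Option.some a ∧ z = op (nt N i) (cd N a) := by
  exact (exists_cd_list N l).choose_spec z

private theorem fb_get : IP N (fun q : (List α × ℕ) × α => q.1.1[q.1.2]? = Option.some q.2) := by
  refine IP.of_sat (Fml.ex (Fml.ex (Fml.ex (Fml.ex (Fml.ex (Fml.an (fOP 1 4 3) (Fml.an (fOP 5 1 2)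
    (Fml.an (fOP 0 3 2) (.mem 0 4))))))))) (fun _ => emp) fun q => ?_
  simp only [sat_ex, sat_an, sat_fOP, sat_mem]
  change _ ↔ ∃ L i a r s, IsOP E r L i ∧ IsOP E (cd N q) r a ∧ IsOP E s i a ∧ E s L
  constructor
  · intro h
    refine ⟨cd N q.1.1, cd N q.1.2, cd N q.2, cd N q.1, op (cd N q.1.2) (cd N q.2),
      isOP_op _ _, isOP_op _ _, isOP_op _ _, (cd_list _ _).2 ⟨q.1.2, q.2, h, rfl⟩⟩
  · rintro ⟨L, i, a, r, s, h1, h2, h3, h4⟩
    have h1' := isOP_iff.1 h1
    have h2' : op (cd N q.1) (cd N q.2) = op r a := isOP_iff.1 h2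
    have h3' := isOP_iff.1 h3
    obtain ⟨h5, h6⟩ := op_inj.1 h2'
    have h7 : op (cd N q.1.1) (cd N q.1.2) = op L i := h5.trans h1'
    obtain ⟨h8, h9⟩ := op_inj.1 h7
    rw [← h8, h3', ← h9, ← h6] at h4
    obtain ⟨j, b, h10, h11⟩ := (cd_list _ _).1 h4
    obtain ⟨h12, h13⟩ := op_inj.1 h11
    have h14 : q.1.2 = j := nt_inj h12
    have h15 : q.2 = b := cd_inj.1 h13
    rw [h14, h15]
    exact h10

theorem IF.getElem? {l : γ → List α} {i : γ → ℕ} (hl : IF N l) (hi : IF N i) :
    IF N (fun c => (l c)[i c]?) := by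
  refine IF.comp (g := fun p : List α × ℕ => p.1[p.2]?) ?_ (IF.pair hl hi)
  refine IF.ofP (Q := fun (p : List α × ℕ) (o : Option α) =>
    (o = Option.none ∧ ∀ a, ¬ p.1[p.2]? = Option.some a) ∨
      ∃ a, o = Option.some a ∧ p.1[p.2]? = Option.some a) ?_ ?_
  · refine IP.or (IP.and (IP.eq IF.snd (IF.const _)) ?_) ?_
    · refine IP.all (P := fun (q : (List α × ℕ) × Option α) (a : α) =>
        ¬ q.1.1[q.1.2]? = Option.some a) (IP.not ?_)
      exact IP.comp (f := fun r : ((List α × ℕ) × Option α) × α => (r.1.1, r.2)) fb_get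
        (IF.pair (fb_fst IF.fst) IF.snd)
    · refine IP.ex (P := fun (q : (List α × ℕ) × Option α) (a : α) =>
        q.2 = Option.some a ∧ q.1.1[q.1.2]? = Option.some a) ?_
      refine IP.and (IP.eqSome (fb_snd IF.fst) IF.snd) ?_
      exact IP.comp (f := fun r : ((List α × ℕ) × Option α) × α => (r.1.1, r.2)) fb_get
        (IF.pair (fb_fst IF.fst) IF.snd)
  · intro p o
    cases h : p.1[p.2]? with
    | none => simp [eq_comm]
    | some a => simp [eq_comm]

theorem IF.length {l : γ → List α} (hl : IF N l) : IF N (fun c => (l c).length) := by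
  refine IF.comp (g := fun l : List α => l.length) ?_ hl
  refine IF.ofP (Q := fun (l : List α) (n : ℕ) => l[n]? = Option.none ∧
    ∀ k, k < n → ¬ l[k]? = Option.none) ?_ ?_
  · refine IP.and (IP.eq (IF.getElem? IF.fst IF.snd) (IF.const _)) ?_
    refine IP.all (P := fun (q : List α × ℕ) (k : ℕ) => k < q.2 → ¬ q.1[k]? = Option.none) ?_
    refine IP.imp (IP.lt IF.snd (fb_snd IF.fst)) (IP.not ?_)
    exact IP.eq (IF.getElem? (fb_fst IF.fst) IF.snd) (IF.const _)
  · intro l n
    simp only [List.getElem?_eq_none_iff, not_le]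
    constructor
    · rintro ⟨h1, h2⟩
      refine le_antisymm h1 (not_lt.1 fun h3 => ?_)
      exact lt_irrefl _ (h2 _ h3)
    · rintro rfl
      exact ⟨le_rfl, fun k hk => hk⟩

theorem IF.cons {f : γ → α} {l : γ → List α} (hf : IF N f) (hl : IF N l) :
    IF N (fun c => f c :: l c) := by
  refine IF.comp (g := fun p : α × List α => p.1 :: p.2) ?_ (IF.pair hf hl)
  refine IF.ofP (Q := fun (p : α × List α) (l' : List α) => l'[(0 : ℕ)]? = Option.some p.1 ∧
    ∀ i : ℕ, l'[i + 1]? = p.2[i]?) ?_ ?_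
  · refine IP.and (IP.eqSome (IF.getElem? IF.snd (IF.const 0)) (fb_fst IF.fst)) ?_
    refine IP.all (P := fun (q : (α × List α) × List α) (i : ℕ) => q.2[i + 1]? = q.1.2[i]?) ?_
    exact IP.eq (IF.getElem? (fb_snd IF.fst) (IF.succ IF.snd))
      (IF.getElem? (fb_snd (fb_fst IF.fst)) IF.snd)
  · rintro ⟨a, l⟩ l'
    constructor
    · rintro ⟨h1, h2⟩
      refine List.ext_getElem? fun i => ?_
      cases i with
      | zero => exact (List.getElem?_cons_zero).trans h1.symm
      | succ i => exact (List.getElem?_cons_succ).trans (h2 i).symm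
    · rintro rfl
      exact ⟨List.getElem?_cons_zero, fun i => List.getElem?_cons_succ⟩

theorem IF.append {l l' : γ → List α} (hl : IF N l) (hl' : IF N l') :
    IF N (fun c => l c ++ l' c) := by
  refine IF.comp (g := fun p : List α × List α => p.1 ++ p.2) ?_ (IF.pair hl hl')
  refine IF.ofP (Q := fun (p : List α × List α) (l : List α) =>
    ∀ i : ℕ, (i < p.1.length → l[i]? = p.1[i]?) ∧
      (p.1.length ≤ i → l[i]? = p.2[i - p.1.length]?)) ?_ ?_
  · refine IP.all (P := fun (q : (List α × List α) × List α) (i : ℕ) =>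
      (i < q.1.1.length → q.2[i]? = q.1.1[i]?) ∧
      (q.1.1.length ≤ i → q.2[i]? = q.1.2[i - q.1.1.length]?)) ?_
    have k1 : IF N (fun r : ((List α × List α) × List α) × ℕ => r.1.1.1) :=
      fb_fst (fb_fst IF.fst)
    have k2 : IF N (fun r : ((List α × List α) × List α) × ℕ => r.1.1.2) :=
      fb_snd (fb_fst IF.fst)
    have k3 : IF N (fun r : ((List α × List α) × List α) × ℕ => r.1.2) := fb_snd IF.fst
    have k4 : IF N (fun r : ((List α × List α) × List α) × ℕ => r.2) := IF.snd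
    exact IP.and (IP.imp (IP.lt k4 (IF.length k1)) (IP.eq (IF.getElem? k3 k4) (IF.getElem? k1 k4)))
      (IP.imp (IP.le (IF.length k1) k4) (IP.eq (IF.getElem? k3 k4)
        (IF.getElem? k2 (IF.sub k4 (IF.length k1)))))
  · rintro ⟨l1, l2⟩ l
    constructor
    · intro h
      refine List.ext_getElem? fun i => ?_
      rw [List.getElem?_append]
      rcases lt_or_ge i l1.length with h1 | h1
      · rw [if_pos h1]
        exact ((h i).1 h1).symm
      · rw [if_neg (not_lt.2 h1)]
        exact ((h i).2 h1).symm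
    · rintro rfl i
      constructor
      · intro h1
        exact List.getElem?_append_left h1
      · intro h1
        exact List.getElem?_append_right h1

theorem IF.take {n : γ → ℕ} {l : γ → List α} (hn : IF N n) (hl : IF N l) :
    IF N (fun c => (l c).take (n c)) := by
  refine IF.comp (g := fun p : ℕ × List α => p.2.take p.1) ?_ (IF.pair hn hl)
  refine IF.ofP (Q := fun (p : ℕ × List α) (l : List α) =>
    ∀ i : ℕ, (i < p.1 → l[i]? = p.2[i]?) ∧ (p.1 ≤ i → l[i]? = Option.none)) ?_ ?_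
  · refine IP.all (P := fun (q : (ℕ × List α) × List α) (i : ℕ) =>
      (i < q.1.1 → q.2[i]? = q.1.2[i]?) ∧ (q.1.1 ≤ i → q.2[i]? = Option.none)) ?_
    have k1 : IF N (fun r : ((ℕ × List α) × List α) × ℕ => r.1.1.1) := fb_fst (fb_fst IF.fst)
    have k2 : IF N (fun r : ((ℕ × List α) × List α) × ℕ => r.1.1.2) := fb_snd (fb_fst IF.fst)
    have k3 : IF N (fun r : ((ℕ × List α) × List α) × ℕ => r.1.2) := fb_snd IF.fst
    have k4 : IF N (fun r : ((ℕ × List α) × List α) × ℕ => r.2) := IF.snd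
    exact IP.and (IP.imp (IP.lt k4 k1) (IP.eq (IF.getElem? k3 k4) (IF.getElem? k2 k4)))
      (IP.imp (IP.le k1 k4) (IP.eq (IF.getElem? k3 k4) (IF.const _)))
  · rintro ⟨m, l0⟩ l
    constructor
    · intro h
      refine List.ext_getElem? fun i => ?_
      rw [List.getElem?_take]
      rcases lt_or_ge i m with h1 | h1
      · rw [if_pos h1]
        exact ((h i).1 h1).symm
      · rw [if_neg (not_lt.2 h1)]
        exact ((h i).2 h1).symm
    · rintro rfl i
      rw [List.getElem?_take]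
      constructor
      · intro h1
        exact if_pos h1
      · intro h1
        exact if_neg (not_lt.2 h1)

theorem IP.memList {f : γ → α} {l : γ → List α} (hf : IF N f) (hl : IF N l) :
    IP N (fun c => f c ∈ l c) := by
  refine IP.congr (P := fun c => ∃ i : ℕ, (l c)[i]? = Option.some (f c))
    (fun c => List.mem_iff_getElem?.symm) ?_
  refine IP.ex (P := fun (c : γ) (i : ℕ) => (l c)[i]? = Option.some (f c)) ?_
  exact IP.eqSome (IF.getElem? (IF.comp hl IF.fst) IF.snd) (IF.comp hf IF.fst)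

end WCal
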