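import Pool.Agent.WCal.FinD

/-! # Real numbers: internal functions with values in the native reals (definitions and order)

(problem MP_ba5606_gt, ARH Part II, block 0; architect helper69)

`Std N`: order and arithmetic of the rational numbers are internal (the code of `q : ℚ` is `nt (qe q)`; this holds for the models of
Part II, since the parameter of the ground model codes these relations).

* `IsR N x`, `x : ℝ`: the cut `{q : ℚ | q < x}` is internal. `RW N`: the type of all these real numbers (the reals of the model).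
* `IR N f`, `f : α → ℝ`: the predicate `q < f a` of `(a, q)` is internal. `RFn N α`: the type of all these functions.

PROOFS.
* `exists_rg_RW`: separation from `rg N (St N ℚ)`: a set `S : St N ℚ` is a cut `{q | q < x}` iff: some `q ∈ S`, some `q ∉ S`, `q ∈ S → q' < q → q' ∈ S`,
  `q ∈ S → ∃ q' ∈ S, q < q'` (native: take `x := sSup`). These conditions are internal predicates of `S` (closure lemmas, `Std.lt`), so they define a set of codes.
* `exists_rg_RFn`: `S : St N (α × ℚ)` such that all sections are cuts.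
* `IR.iff_IF`: both sides say that `{(a, q) | q < F a}` is internal (`IF.lam'`/`IF.compr'` style). `IR.isR`: section.
* `IP.ltR`: `f a < g a` iff `∃ q : ℚ, ¬ (q < f a) ∧ q < g a`. (If `f a < g a` take a rational number in between.) `IP.leR`, `IP.eqR`.
* `IR.ev`: by definition of the codes. `IR.lamR`, `IR.lamR'`: as `IF.compr`. `IR.rat`: a function with rational values: `Std.lt`.
  `IR.ite`: by cases. -/

universe u v w x

namespace WCal

open STP WM

/-- the arithmetic of the rational numbers is internal -/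
class Std (N : Type u) [WM N] : Prop where
  lt : IP N (fun p : ℚ × ℚ => p.1 < p.2)
  add : IF N (fun p : ℚ × ℚ => p.1 + p.2)
  mul : IF N (fun p : ℚ × ℚ => p.1 * p.2)
  neg : IF N (fun p : ℚ => -p)
  nat : IF N (fun n : ℕ => (n : ℚ))

variable (N : Type u) [WM N]

/-- the cut of `x` is internal -/
def IsR (x : ℝ) : Prop := IP N (fun q : ℚ => (q : ℝ) < x)

/-- internal functions with values in the native reals -/
def IR {α : Type v} [WTy N α] (f : α → ℝ) : Prop := IP N (fun p : α × ℚ => (p.2 : ℝ) < f p.1)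

/-- the real numbers of the model -/
@[ext] structure RW where
  /-- the real number -/
  v : ℝ
  h : IsR N v

/-- the internal functions with values in the native reals -/
@[ext] structure RFn (α : Type v) [WTy N α] where
  /-- the function -/
  f : α → ℝ
  h : IR N f

instance {α : Type v} [WTy N α] : CoeFun (RFn N α) (fun _ => α → ℝ) := ⟨RFn.f⟩

/-- the cut as an internal set -/
def RW.cut (x : RW N) : St N ℚ := ⟨{q | (q : ℝ) < x.v}, x.h⟩

/-- the family of the cuts as an internal set -/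
def RFn.cut {α : Type v} [WTy N α] (f : RFn N α) : St N (α × ℚ) := ⟨{p | (p.2 : ℝ) < f.f p.1}, f.h⟩

private theorem real_ext {x y : ℝ} (h : ∀ q : ℚ, (q : ℝ) < x ↔ (q : ℝ) < y) : x = y := by
  rcases lt_trichotomy x y with h1 | h1 | h1
  · obtain ⟨q, hq, hq'⟩ := exists_rat_btwn h1
    exact absurd ((h q).2 hq') (not_lt.2 hq.le)
  · exact h1
  · obtain ⟨q, hq, hq'⟩ := exists_rat_btwn h1
    exact absurd ((h q).1 hq') (not_lt.2 hq.le)

/-- the cuts -/
private def IsCut (s : Set ℚ) : Prop :=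
  (∃ q, q ∈ s) ∧ (∃ q, ¬ q ∈ s) ∧ (∀ q, q ∈ s → ∀ q' : ℚ, q' < q → q' ∈ s) ∧
    ∀ q, q ∈ s → ∃ q', q' ∈ s ∧ q < q'

private theorem isCut_iff {s : Set ℚ} : IsCut s ↔ ∃ x : ℝ, s = {q : ℚ | (q : ℝ) < x} := by
  constructor
  · rintro ⟨⟨a, ha⟩, ⟨b, hb⟩, h1, h2⟩
    have hne : ((fun q : ℚ => (q : ℝ)) '' s).Nonempty := ⟨_, a, ha, rfl⟩
    have hbd : BddAbove ((fun q : ℚ => (q : ℝ)) '' s) := by
      refine ⟨b, ?_⟩
      rintro _ ⟨q, hq, rfl⟩
      by_contra hc
      have h3 : (b : ℝ) < (q : ℝ) := not_le.1 hc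
      exact hb (h1 q hq b (by exact_mod_cast h3))
    refine ⟨sSup ((fun q : ℚ => (q : ℝ)) '' s), ?_⟩
    ext q
    constructor
    · intro hq
      obtain ⟨q', hq', hlt⟩ := h2 q hq
      have h3 : (q' : ℝ) ≤ sSup ((fun q : ℚ => (q : ℝ)) '' s) := le_csSup hbd ⟨q', hq', rfl⟩
      exact lt_of_lt_of_le (by exact_mod_cast hlt) h3
    · intro hq
      obtain ⟨_, ⟨q', hq', rfl⟩, hlt⟩ := exists_lt_of_lt_csSup hne hq
      have hlt' : (q : ℝ) < (q' : ℝ) := hlt
      exact h1 q' hq' q (by exact_mod_cast hlt')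
  · rintro ⟨x, rfl⟩
    refine ⟨exists_rat_lt x, ?_, ?_, ?_⟩
    · obtain ⟨q, hq⟩ := exists_rat_gt x
      exact ⟨q, not_lt.2 hq.le⟩
    · intro q hq q' hlt
      have hlt' : (q' : ℝ) < q := by exact_mod_cast hlt
      exact hlt'.trans hq
    · intro q hq
      have hq' : (q : ℝ) < x := hq
      obtain ⟨q', h1, h2⟩ := exists_rat_btwn hq'
      exact ⟨q', h2, by exact_mod_cast h1⟩

private theorem isCut_int [Std N] {α : Type*} [WTy N α] {S : α → Set ℚ}
    (h : IP N (fun p : α × ℚ => p.2 ∈ S p.1)) : IP N (fun a => IsCut (S a)) := by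
  have hlt := Std.lt (N := N)
  refine IP.and ?_ (IP.and ?_ (IP.and ?_ ?_))
  · exact IP.ex (P := fun (a : α) (q : ℚ) => q ∈ S a) h
  · exact IP.ex (P := fun (a : α) (q : ℚ) => ¬ q ∈ S a) (IP.not h)
  · refine IP.all (P := fun (a : α) (q : ℚ) => q ∈ S a → ∀ q' : ℚ, q' < q → q' ∈ S a) ?_
    refine IP.imp h ?_
    refine IP.all (P := fun (p : α × ℚ) (q' : ℚ) => q' < p.2 → q' ∈ S p.1) ?_
    refine IP.imp (IP.comp hlt (IF.pair IF.snd (IF.comp IF.snd IF.fst))) ?_
    exact IP.comp h (IF.pair (IF.comp IF.fst IF.fst) IF.snd)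
  · refine IP.all (P := fun (a : α) (q : ℚ) => q ∈ S a → ∃ q', q' ∈ S a ∧ q < q') ?_
    refine IP.imp h ?_
    refine IP.ex (P := fun (p : α × ℚ) (q' : ℚ) => q' ∈ S p.1 ∧ p.2 < q') ?_
    refine IP.and (IP.comp h (IF.pair (IF.comp IF.fst IF.fst) IF.snd)) ?_
    exact IP.comp hlt (IF.pair (IF.comp IF.snd IF.fst) IF.snd)

private theorem IP.memI {N : Type u} [WM N] {α : Type v} [WTy N α] :
    IP N (fun p : St N α × α => p.2 ∈ {a | a ∈ p.1}) := IP.mem IF.snd IF.fst

/-- a map which preserves the codes is internal -/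
private theorem same {N : Type u} [WM N] {α : Type*} {β : Type*} [WTy N α] [WTy N β] (g : α → β)
    (h : ∀ a, cd N a = cd N (g a)) : IF N g := by
  refine IP.of_sat (Fml.ex (fOP 1 0 0)) (fun _ => emp) ?_
  rintro ⟨a, b⟩
  simp only [sat_ex, sat_fOP, cns_zero, cns_one]
  constructor
  · rintro rfl
    refine ⟨cd N (g a), ?_⟩
    change IsOP E (op (cd N a) (cd N (g a))) _ _
    rw [h a]
    exact isOP_op _ _
  · rintro ⟨x, hx⟩
    have h1 : op (cd N a) (cd N b) = op x x := isOP_iff.1 hx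
    obtain ⟨h2, h3⟩ := op_inj.1 h1
    refine cd_inj.1 (?_ : cd N (g a) = cd N b)
    rw [← h a, h2, h3]

private theorem of_same {N : Type u} [WM N] {α : Type*} {β : Type*} {γ : Type*} [WTy N α]
    [WTy N β] [WTy N γ] {F : α → β} {g : β → γ} (h : ∀ b, cd N b = cd N (g b))
    (hg : IF N (fun a => g (F a))) : IF N F := by
  obtain ⟨s, hs⟩ := hg
  refine ⟨s, ?_⟩
  rintro ⟨a, b⟩
  have h1 := hs (a, g b)
  have h2 : cd N ((a, b) : α × β) = cd N ((a, g b) : α × γ) := by
    change op (cd N a) (cd N b) = op (cd N a) (cd N (g b))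
    rw [h b]
  rw [h2, ← h1]
  constructor
  · intro h3
    exact congrArg g h3
  · intro h3
    refine cd_inj.1 (?_ : cd N (F a) = cd N b)
    rw [h (F a), h b]
    exact congrArg (cd N) h3

theorem RW.cut_inj : Function.Injective fun x : RW N => cd N x.cut := by
  intro x y h
  have h1 : x.cut = y.cut := cd_inj.1 h
  refine RW.ext (real_ext fun q => ?_)
  have h2 := congrArg (fun S : St N ℚ => q ∈ S) h1
  exact iff_of_eq h2

theorem RFn.cut_inj {α : Type v} [WTy N α] : Function.Injective fun x : RFn N α => cd N x.cut := by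
  intro x y h
  have h1 : x.cut = y.cut := cd_inj.1 h
  refine RFn.ext (funext fun a => real_ext fun q => ?_)
  have h2 := congrArg (fun S : St N (α × ℚ) => (a, q) ∈ S) h1
  exact iff_of_eq h2

theorem exists_rg_RW [Std N] : ∃ x : N, ∀ z, E z x ↔ ∃ r : RW N, cd N r.cut = z := by
  have hP : IP N (fun S : St N ℚ => IsCut {q | q ∈ S}) := isCut_int N IP.memI
  obtain ⟨x, hx⟩ := exists_sub N _ hP
  refine ⟨x, fun z => (hx z).trans ?_⟩
  constructor
  · rintro ⟨S, hS, rfl⟩
    obtain ⟨r, hr⟩ := isCut_iff.1 hS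
    have h1 : (⟨{q : ℚ | (q : ℝ) < r}, hr ▸ S.int⟩ : St N ℚ) = S := St.ext hr.symm
    exact ⟨⟨r, (hr ▸ S.int : IP N (· ∈ {q : ℚ | (q : ℝ) < r}))⟩, congrArg (cd N) h1⟩
  · rintro ⟨r, rfl⟩
    exact ⟨r.cut, isCut_iff.2 ⟨r.v, rfl⟩, rfl⟩

theorem exists_rg_RFn [Std N] (α : Type v) [WTy N α] : ∃ x : N, ∀ z, E z x ↔ ∃ r : RFn N α, cd N r.cut = z := by
  have hP : IP N (fun S : St N (α × ℚ) => ∀ a, IsCut {q | (a, q) ∈ S}) := by
    refine IP.all (P := fun (S : St N (α × ℚ)) (a : α) => IsCut {q | (a, q) ∈ S}) ?_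
    refine isCut_int N (α := St N (α × ℚ) × α) (S := fun p => {q | (p.2, q) ∈ p.1}) ?_
    exact IP.mem (IF.pair (IF.comp IF.snd IF.fst) IF.snd) (IF.comp IF.fst IF.fst)
  obtain ⟨x, hx⟩ := exists_sub N _ hP
  refine ⟨x, fun z => (hx z).trans ?_⟩
  constructor
  · rintro ⟨S, hS, rfl⟩
    choose f hf using fun a => isCut_iff.1 (hS a)
    have h1 : S.s = {p : α × ℚ | (p.2 : ℝ) < f p.1} := by
      ext ⟨a, q⟩
      have h2 := congrArg (fun T : Set ℚ => q ∈ T) (hf a)
      exact iff_of_eq h2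
    exact ⟨⟨f, (h1 ▸ S.int : IP N (· ∈ {p : α × ℚ | (p.2 : ℝ) < f p.1}))⟩,
      congrArg (cd N) (St.ext h1.symm)⟩
  · rintro ⟨r, rfl⟩
    exact ⟨r.cut, fun a => isCut_iff.2 ⟨r.f a, rfl⟩, rfl⟩

noncomputable instance instWTyRW [Std N] : WTy N (RW N) where
  cd x := cd N x.cut
  inj := RW.cut_inj N
  rg := (exists_rg_RW N).choose
  mem_rg := (exists_rg_RW N).choose_spec

noncomputable instance instWTyRFn [Std N] {α : Type v} [WTy N α] : WTy N (RFn N α) where
  cd x := cd N x.cut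
  inj := RFn.cut_inj N
  rg := (exists_rg_RFn N α).choose
  mem_rg := (exists_rg_RFn N α).choose_spec

variable {N} [Std N] {α : Type v} {β : Type w} [WTy N α] [WTy N β]

private theorem lamAux {F : α → RFn N β} (h : IR N (fun p : α × β => F p.1 p.2)) :
    IF N F := by
  refine of_same (g := fun x : RFn N β => x.cut) (fun _ => rfl) (IF.compr' ?_)
  exact IP.comp h (IF.pair (IF.pair IF.fst (IF.comp IF.fst IF.snd)) (IF.comp IF.snd IF.snd))

theorem IR.iff_IF {F : α → RW N} : IF N F ↔ IR N (fun a => (F a).v) := by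
  constructor
  · intro h
    have h1 : IF N (fun a => (F a).cut) := IF.comp (same (fun x : RW N => x.cut) fun _ => rfl) h
    exact IP.mem IF.snd (IF.comp h1 IF.fst)
  · intro h
    exact of_same (g := fun x : RW N => x.cut) (fun _ => rfl) (IF.compr' h)

theorem IR.isR {f : α → ℝ} (h : IR N f) (a : α) : IsR N (f a) := by
  exact IP.sec h a

theorem IR.comp {f : β → ℝ} {g : α → β} (hf : IR N f) (hg : IF N g) : IR N (fun a => f (g a)) := by
  exact IP.comp hf (IF.pair (IF.comp hg IF.fst) IF.snd)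

theorem IR.const {x : ℝ} (h : IsR N x) : IR N (fun _ : α => x) := by
  exact IP.comp h IF.snd

theorem isR_rat (q : ℚ) : IsR N (q : ℝ) := by
  exact (IP.sec' (Std.lt (N := N)) q).congr fun r => (Rat.cast_lt).symm

theorem IR.rat {f : α → ℚ} (h : IF N f) : IR N (fun a => (f a : ℝ)) := by
  exact (IP.comp (Std.lt (N := N)) (IF.pair IF.snd (IF.comp h IF.fst))).congr
    fun p => (Rat.cast_lt).symm

theorem IR.nat {f : α → ℕ} (h : IF N f) : IR N (fun a => (f a : ℝ)) := by
  have h1 : IR N (fun a => ((f a : ℚ) : ℝ)) := by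
    refine (IP.comp (Std.lt (N := N)) (IF.pair IF.snd
      (IF.comp (IF.comp (Std.nat (N := N)) h) IF.fst))).congr fun p => (Rat.cast_lt).symm
  refine IP.congr (fun p => ?_) h1
  change ((p.2 : ℝ) < (((f p.1 : ℕ) : ℚ) : ℝ)) ↔ ((p.2 : ℝ) < ((f p.1 : ℕ) : ℝ))
  rw [Rat.cast_natCast]

theorem IP.ltR {f g : α → ℝ} (hf : IR N f) (hg : IR N g) : IP N (fun a => f a < g a) := by
  refine IP.congr (P := fun a => ∃ q : ℚ, ¬ ((q : ℝ) < f a) ∧ (q : ℝ) < g a) (fun a => ?_)
    (IP.ex (IP.and (IP.not hf) hg))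
  constructor
  · rintro ⟨q, h1, h2⟩
    exact (not_lt.1 h1).trans_lt h2
  · intro h
    obtain ⟨q, h1, h2⟩ := exists_rat_btwn h
    exact ⟨q, not_lt.2 h1.le, h2⟩

theorem IP.leR {f g : α → ℝ} (hf : IR N f) (hg : IR N g) : IP N (fun a => f a ≤ g a) := by
  exact (IP.not (IP.ltR hg hf)).congr fun a => not_lt

theorem IP.eqR {f g : α → ℝ} (hf : IR N f) (hg : IR N g) : IP N (fun a => f a = g a) := by
  exact (IP.and (IP.leR hf hg) (IP.leR hg hf)).congr fun a => le_antisymm_iff.symm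

theorem IR.congr {f g : α → ℝ} (h : ∀ a, f a = g a) (hf : IR N f) : IR N g := by
  exact IP.congr (fun p => by rw [h p.1]) hf

open Classical in
theorem IR.ite {P : α → Prop} {f g : α → ℝ} (hP : IP N P) (hf : IR N f) (hg : IR N g) :
    IR N (fun a => if P a then f a else g a) := by
  refine IP.congr (P := fun p : α × ℚ => (P p.1 ∧ (p.2 : ℝ) < f p.1) ∨
    (¬ P p.1 ∧ (p.2 : ℝ) < g p.1)) (fun p => ?_) ?_
  · by_cases h : P p.1
    · simp [h]
    · simp [h]
  · exact IP.or (IP.and (IP.comp hP IF.fst) hf) (IP.and (IP.not (IP.comp hP IF.fst)) hg)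

theorem IR.ev {F : α → RFn N β} {g : α → β} (hF : IF N F) (hg : IF N g) : IR N (fun a => F a (g a)) := by
  have h1 : IF N (fun a => (F a).cut) :=
    IF.comp (same (fun x : RFn N β => x.cut) fun _ => rfl) hF
  exact IP.mem (IF.pair (IF.comp hg IF.fst) IF.snd) (IF.comp h1 IF.fst)

theorem IR.sec {f : α → β → ℝ} (h : IR N (fun p : α × β => f p.1 p.2)) (a : α) : IR N (f a) := by
  exact IP.comp h (IF.pair (IF.pair (IF.const a) IF.fst) IF.snd)

theorem IR.lamR {f : α → β → ℝ} (h : IR N (fun p : α × β => f p.1 p.2)) :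
    IF N (fun a => (⟨f a, h.sec a⟩ : RFn N β)) := by
  exact lamAux h

theorem IR.lamR' {F : α → RFn N β} (h : IR N (fun p : α × β => F p.1 p.2)) : IF N F := by
  exact lamAux h

end WCal
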