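import Pool.Agent.WCal.Nat

/-! # Choice, dependent choice, countable sets

(problem MP_ba5606_gt, ARH Part II, block 0; architect helper69)

PROOFS.
* `choice`: the axiom `WM.zfc.choice` applied to the set `x` of all sets `{(a, b) | P a b}` (`a : α`), a subset of the power set of
  `rg (α × β)` (separation: `∃ a ∈ rg α, ∀ p, p ∈ z ↔ p ∈ s ∧ ∃ b, IsOP p a b`); its elements are nonempty and pairwise disjoint. With the
  choice set `c`: `f a = b` iff `(a, b) ∈ c ∩ s`. `choice'`: for relations which are not total, with a default value.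
* `dc`: `choice` gives an internal `f` with `R a (f a)`; the sequence is `n ↦ f^[n] a0` (`IF.iter`).
* `Cnt S`: `S` is empty or contained in the range of an internal function on `ℕ`. `Cnt.mono`; `Cnt.range`; `Cnt.image`;
  `Cnt.iUnion`: choose enumerations by `choice` (relation between `n` and `e : Fn N ℕ α`), then `k ↦ e (unpair k).1 (unpair k).2`;
  `Cnt.finite`: a native enumeration of a finite set, `IF.finite`-like (a function on `ℕ` which is constant from some point on is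
  internal: its graph is a finite set plus an internal one). `Cnt.nat`, `Cnt.prod`, `IP.cnt`: closure lemmas.
* `Cnt.enum`: a nonempty countable set is the range of an internal function. -/

universe u v w x

namespace WCal

open STP WM

variable {N : Type u} [WM N] {α : Type v} {β : Type w} {γ : Type x} [WTy N α] [WTy N β] [WTy N γ]

theorem choice {P : α → β → Prop} (hP : IP N (fun p : α × β => P p.1 p.2)) (h : ∀ a, ∃ b, P a b) :
    ∃ f : α → β, IF N f ∧ ∀ a, P a (f a) := by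
  have hT : IP N (fun q : α × (α × β) => q.2.1 = q.1 ∧ P q.2.1 q.2.2) :=
    (IP.eq (IF.comp (g := fun p : α × β => p.1) IF.fst IF.snd) IF.fst).and
      (IP.comp (P := fun p : α × β => P p.1 p.2) hP IF.snd)
  have hTi : IF N (fun a : α => (⟨{p : α × β | p.1 = a ∧ P p.1 p.2}, hT.sec a⟩ : St N (α × β))) :=
    IF.compr (P := fun (a : α) (p : α × β) => p.1 = a ∧ P p.1 p.2) hT
  obtain ⟨T, hTdef⟩ : ∃ T : α → St N (α × β), T =
    fun a : α => (⟨{p : α × β | p.1 = a ∧ P p.1 p.2}, hT.sec a⟩ : St N (α × β)) := ⟨_, rfl⟩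
  rw [← hTdef] at hTi
  have hTm : ∀ a (p : α × β), p ∈ T a ↔ p.1 = a ∧ P p.1 p.2 := by
    intro a p
    rw [hTdef]
    exact Iff.rfl
  have hQ : IP N (fun S : St N (α × β) => ∃ a, S = T a) :=
    IP.ex (P := fun (S : St N (α × β)) (a : α) => S = T a)
      (IP.eq IF.fst (IF.comp (g := T) hTi IF.snd))
  obtain ⟨x, hx⟩ := exists_sub N _ hQ
  have key : ∀ a, E (cd N (T a)) x := fun a => (hx _).2 ⟨T a, ⟨a, rfl⟩, rfl⟩
  obtain ⟨c, hc⟩ := (WM.zfc (N := N)).choice x (by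
      intro y hy
      obtain ⟨S, ⟨a, rfl⟩, rfl⟩ := (hx y).1 hy
      obtain ⟨b, hb⟩ := h a
      exact ⟨cd N ((a, b) : α × β), (cd_st N _ _).2 ⟨(a, b), (hTm _ _).2 ⟨rfl, hb⟩, rfl⟩⟩) (by
      rintro y z hy hz hyz ⟨w, hwy, hwz⟩
      obtain ⟨S, ⟨a, rfl⟩, rfl⟩ := (hx y).1 hy
      obtain ⟨S', ⟨a', rfl⟩, rfl⟩ := (hx z).1 hz
      obtain ⟨p, hp, rfl⟩ := (cd_st N _ _).1 hwy
      obtain ⟨p', hp', hpp⟩ := (cd_st N _ _).1 hwz
      have h1 : p' = p := cd_inj.1 hpp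
      subst h1
      have h2 : a = a' := by rw [← ((hTm _ _).1 hp).1, ← ((hTm _ _).1 hp').1]
      exact hyz (by rw [h2]))
  have hu : ∀ a, ∃! b, P a b ∧ E (cd N ((a, b) : α × β)) c := by
    intro a
    obtain ⟨z, ⟨hz1, hz2⟩, hz3⟩ := hc _ (key a)
    obtain ⟨⟨a', b⟩, hp, rfl⟩ := (cd_st N _ _).1 hz2
    obtain ⟨h1, h2⟩ := (hTm _ _).1 hp
    have h1 : a' = a := h1
    subst h1
    refine ⟨b, ⟨h2, hz1⟩, ?_⟩
    rintro b' ⟨hb', hb''⟩
    have h3 := hz3 (cd N ((a', b') : α × β)) ⟨hb'', (cd_st N _ _).2 ⟨(a', b'),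
      (hTm _ _).2 ⟨rfl, hb'⟩, rfl⟩⟩
    exact congrArg Prod.snd (cd_inj.1 h3)
  refine ⟨fun a => (hu a).choose, IF.unique (P := fun (a : α) (b : β) => P a b ∧
    E (cd N ((a, b) : α × β)) c) (hP.and ⟨c, fun p => Iff.rfl⟩) hu, fun a => ?_⟩
  exact (hu a).choose_spec.1.1

theorem choice' {P : α → β → Prop} (hP : IP N (fun p : α × β => P p.1 p.2)) (b0 : β) :
    ∃ f : α → β, IF N f ∧ ∀ a, (∃ b, P a b) → P a (f a) := by
  have h1 : IP N (fun a : α => ∀ b', ¬ P a b') := IP.all (P := fun a b' => ¬ P a b') hP.not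
  have h2 : IP N (fun p : α × β => P p.1 p.2 ∨ ((∀ b', ¬ P p.1 b') ∧ p.2 = b0)) :=
    hP.or ((IP.comp (P := fun a : α => ∀ b', ¬ P a b') h1 IF.fst).and (IP.eq IF.snd (IF.const b0)))
  obtain ⟨f, hf, hf'⟩ := choice (P := fun (a : α) (b : β) => P a b ∨ ((∀ b', ¬ P a b') ∧ b = b0)) h2
    (fun a => by
      by_cases h : ∃ b, P a b
      · obtain ⟨b, hb⟩ := h
        exact ⟨b, Or.inl hb⟩
      · exact ⟨b0, Or.inr ⟨fun b' hb' => h ⟨b', hb'⟩, rfl⟩⟩)
  refine ⟨f, hf, fun a ha => ?_⟩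
  rcases hf' a with h | ⟨h, -⟩
  · exact h
  · obtain ⟨b, hb⟩ := ha
    exact absurd hb (h b)

theorem dc {R : α → α → Prop} (hR : IP N (fun p : α × α => R p.1 p.2)) (h : ∀ a, ∃ b, R a b) (a0 : α) :
    ∃ s : ℕ → α, IF N s ∧ s 0 = a0 ∧ ∀ n, R (s n) (s (n + 1)) := by
  obtain ⟨f, hf, hf'⟩ := choice hR h
  refine ⟨fun n => f^[n] a0, IF.iter hf a0, rfl, fun n => ?_⟩
  show R (f^[n] a0) (f^[n + 1] a0)
  rw [Function.iterate_succ_apply']
  exact hf' _

/-- dependent choice in a nonempty internal subset, with the number of the step -/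
theorem dc' {Q : α → Prop} (hQ : IP N Q) {R : ℕ → α → α → Prop}
    (hR : IP N (fun p : ℕ × α × α => R p.1 p.2.1 p.2.2)) (h : ∀ n a, Q a → ∃ b, Q b ∧ R n a b) (a0 : α)
    (h0 : Q a0) : ∃ s : ℕ → α, IF N s ∧ s 0 = a0 ∧ (∀ n, Q (s n)) ∧ ∀ n, R n (s n) (s (n + 1)) := by
  have f11 : IF N (fun p : (ℕ × α) × (ℕ × α) => p.1.1) :=
    IF.comp (g := fun p : ℕ × α => p.1) IF.fst IF.fst
  have f12 : IF N (fun p : (ℕ × α) × (ℕ × α) => p.1.2) :=
    IF.comp (g := fun p : ℕ × α => p.2) IF.snd IF.fst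
  have f21 : IF N (fun p : (ℕ × α) × (ℕ × α) => p.2.1) :=
    IF.comp (g := fun p : ℕ × α => p.1) IF.fst IF.snd
  have f22 : IF N (fun p : (ℕ × α) × (ℕ × α) => p.2.2) :=
    IF.comp (g := fun p : ℕ × α => p.2) IF.snd IF.snd
  have hR' : IP N (fun p : (ℕ × α) × (ℕ × α) => p.2.1 = p.1.1 + 1 ∧
      (Q p.1.2 → Q p.2.2 ∧ R p.1.1 p.1.2 p.2.2)) := by
    refine (IP.eq f21 f11.succ).and ((IP.comp (P := Q) hQ f12).imp
      ((IP.comp (P := Q) hQ f22).and ?_))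
    exact IP.comp (P := fun p : ℕ × α × α => R p.1 p.2.1 p.2.2)
      (f := fun p : (ℕ × α) × (ℕ × α) => (p.1.1, p.1.2, p.2.2)) hR (f11.pair (f12.pair f22))
  obtain ⟨s, hs, hs0, hs'⟩ := dc (R := fun a b : ℕ × α => b.1 = a.1 + 1 ∧
    (Q a.2 → Q b.2 ∧ R a.1 a.2 b.2)) hR' (fun a => by
      by_cases hq : Q a.2
      · obtain ⟨b, hb, hb'⟩ := h a.1 a.2 hq
        exact ⟨(a.1 + 1, b), rfl, fun _ => ⟨hb, hb'⟩⟩
      · exact ⟨(a.1 + 1, a.2), rfl, fun h => absurd h hq⟩) (0, a0)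
  have h1 : ∀ n, (s n).1 = n := by
    intro n
    induction n with
    | zero => rw [hs0]
    | succ n ih => rw [(hs' n).1, ih]
  have h2 : ∀ n, Q (s n).2 := by
    intro n
    induction n with
    | zero => rw [hs0]; exact h0
    | succ n ih => exact ((hs' n).2 ih).1
  refine ⟨fun n => (s n).2, IF.comp (g := fun p : ℕ × α => p.2) IF.snd hs, ?_, h2, fun n => ?_⟩
  · show (s 0).2 = a0
    rw [hs0]
  · have h3 := ((hs' n).2 (h2 n)).2
    rwa [h1 n] at h3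

/-- a choice function for the nonempty internal subsets -/
theorem choice_set (a0 : α) : ∃ f : St N α → α, IF N f ∧ ∀ S : St N α, (∃ a, a ∈ S) → f S ∈ S :=
  choice' (P := fun (S : St N α) (a : α) => a ∈ S) (IP.mem IF.snd IF.fst) a0

/-- the internal set is countable in the model -/
def Cnt (S : St N α) : Prop := (∀ a, a ∉ S) ∨ ∃ e : Fn N ℕ α, ∀ a ∈ S, ∃ n, e n = a

theorem Cnt.mono {S T : St N α} (h : ∀ a ∈ S, a ∈ T) (hT : Cnt T) : Cnt S := by
  rcases hT with hT | ⟨e, he⟩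
  · exact Or.inl fun a ha => hT a (h a ha)
  · exact Or.inr ⟨e, fun a ha => he a (h a ha)⟩

theorem Cnt.range {e : ℕ → α} (he : IF N e) {S : St N α} (h : ∀ a ∈ S, ∃ n, e n = a) : Cnt S :=
  Or.inr ⟨⟨e, he⟩, h⟩

theorem Cnt.enum {S : St N α} (h : Cnt S) (hne : ∃ a, a ∈ S) :
    ∃ e : ℕ → α, IF N e ∧ ∀ a, a ∈ S ↔ ∃ n, e n = a := by
  classical
  obtain ⟨a1, ha1⟩ := hne
  rcases h with h | ⟨e, he⟩
  · exact absurd ha1 (h a1)
  · refine ⟨fun n => if e n ∈ S then e n else a1,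
      IF.ite (IP.mem e.int (IF.const S)) e.int (IF.const a1), fun a => ⟨fun ha => ?_, ?_⟩⟩
    · obtain ⟨n, rfl⟩ := he a ha
      exact ⟨n, if_pos ha⟩
    · rintro ⟨n, rfl⟩
      show (if e n ∈ S then e n else a1) ∈ S
      by_cases hn : e n ∈ S
      · rw [if_pos hn]
        exact hn
      · rw [if_neg hn]
        exact ha1

private theorem fin_enum (a0 : α) {F : Set α} (hF : F.Finite) :
    ∃ e : ℕ → α, IF N e ∧ ∀ a ∈ F, ∃ n, e n = a := by
  classical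
  induction F, hF using Set.Finite.induction_on with
  | empty => exact ⟨fun _ => a0, IF.const a0, fun a ha => absurd ha (Set.notMem_empty a)⟩
  | @insert a F _ _ ih =>
    obtain ⟨e, he, he'⟩ := ih
    refine ⟨fun n => @ite _ (n = 0) (Classical.propDecidable _) a (e (n - 1)), IF.ite (IP.eq IF.id (IF.const 0))
      (IF.const a) (IF.comp he (IF.sub IF.id (IF.const 1))), ?_⟩
    intro b hb
    rcases Set.mem_insert_iff.1 hb with rfl | hb
    · exact ⟨0, if_pos rfl⟩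
    · obtain ⟨n, rfl⟩ := he' b hb
      exact ⟨n + 1, if_neg (Nat.succ_ne_zero n)⟩

theorem Cnt.finite {S : St N α} (h : S.s.Finite) : Cnt S := by
  by_cases hne : ∃ a, a ∈ S
  · obtain ⟨a0, -⟩ := hne
    obtain ⟨e, he, he'⟩ := fin_enum (N := N) a0 h
    exact Cnt.range he he'
  · exact Or.inl fun a ha => hne ⟨a, ha⟩

theorem Cnt.image {f : α → β} (hf : IF N f) {S : St N α} (hS : Cnt S) {T : St N β}
    (h : ∀ b ∈ T, ∃ a ∈ S, f a = b) : Cnt T := by
  rcases hS with hS | ⟨e, he⟩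
  · refine Or.inl fun b hb => ?_
    obtain ⟨a, ha, -⟩ := h b hb
    exact hS a ha
  · refine Cnt.range (e := fun n => f (e n)) (IF.comp hf e.int) fun b hb => ?_
    obtain ⟨a, ha, rfl⟩ := h b hb
    obtain ⟨n, rfl⟩ := he a ha
    exact ⟨n, rfl⟩

private theorem ip_cov {S : β → St N α} (hS : IF N S) :
    IP N (fun p : β × Fn N ℕ α => ∀ a ∈ S p.1, ∃ n, p.2 n = a) := by
  refine IP.ball (f := fun p : β × Fn N ℕ α => S p.1)
    (P := fun (p : β × Fn N ℕ α) (a : α) => ∃ n, p.2 n = a) (IF.comp hS IF.fst) ?_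
  refine IP.ex (P := fun (q : (β × Fn N ℕ α) × α) (n : ℕ) => q.1.2 n = q.2) ?_
  refine IP.eq (IF.app (F := fun r : ((β × Fn N ℕ α) × α) × ℕ => r.1.1.2)
    (f := fun r : ((β × Fn N ℕ α) × α) × ℕ => r.2) ?_ IF.snd) ?_
  · exact IF.comp (g := fun p : β × Fn N ℕ α => p.2) IF.snd
      (IF.comp (g := fun q : (β × Fn N ℕ α) × α => q.1) IF.fst IF.fst)
  · exact IF.comp (g := fun q : (β × Fn N ℕ α) × α => q.2) IF.snd IF.fst

theorem Cnt.iUnion {S : ℕ → St N α} (hS : IF N S) (h : ∀ n, Cnt (S n)) {T : St N α}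
    (hT : ∀ a ∈ T, ∃ n, a ∈ S n) : Cnt T := by
  by_cases hne : ∃ a, a ∈ T
  · obtain ⟨a0, -⟩ := hne
    obtain ⟨e, he, he'⟩ := choice (P := fun (n : ℕ) (e : Fn N ℕ α) => ∀ a ∈ S n, ∃ k, e k = a)
      (ip_cov hS) (fun n => by
        rcases h n with h | h
        · exact ⟨⟨fun _ => a0, IF.const a0⟩, fun a ha => absurd ha (h a)⟩
        · exact h)
    refine Cnt.range (e := fun k => e (Nat.unpair k).1 (Nat.unpair k).2)
      (IF.app (IF.comp he (IF.unpair1 IF.id)) (IF.unpair2 IF.id)) fun a ha => ?_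
    obtain ⟨n, hn⟩ := hT a ha
    obtain ⟨k, hk⟩ := he' n a hn
    refine ⟨Nat.pair n k, ?_⟩
    show e (Nat.unpair (Nat.pair n k)).1 (Nat.unpair (Nat.pair n k)).2 = a
    rw [Nat.unpair_pair]
    exact hk
  · exact Or.inl fun a ha => hne ⟨a, ha⟩

/-- the union of a countable family, indexed by the elements of a countable set -/
theorem Cnt.biUnion {I : St N β} (hI : Cnt I) {S : β → St N α} (hS : IF N S) (h : ∀ i ∈ I, Cnt (S i))
    {T : St N α} (hT : ∀ a ∈ T, ∃ i ∈ I, a ∈ S i) : Cnt T := by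
  by_cases hne : ∃ i, i ∈ I
  · obtain ⟨e, he, he'⟩ := Cnt.enum hI hne
    refine Cnt.iUnion (S := fun n => S (e n)) (IF.comp hS he)
      (fun n => h _ ((he' _).2 ⟨n, rfl⟩)) fun a ha => ?_
    obtain ⟨i, hi, hai⟩ := hT a ha
    obtain ⟨n, rfl⟩ := (he' i).1 hi
    exact ⟨n, hai⟩
  · refine Or.inl fun a ha => ?_
    obtain ⟨i, hi, -⟩ := hT a ha
    exact hne ⟨i, hi⟩

theorem Cnt.union {S S' T : St N α} (h : Cnt S) (h' : Cnt S') (hT : ∀ a ∈ T, a ∈ S ∨ a ∈ S') : Cnt T := by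
  classical
  refine Cnt.iUnion (S := fun n : ℕ => @ite _ (n = 0) (Classical.propDecidable _) S S')
    (IF.ite (IP.eq IF.id (IF.const 0)) (IF.const S) (IF.const S')) (fun n => ?_) fun a ha => ?_
  · by_cases hn : n = 0
    · simpa [hn] using h
    · simpa [hn] using h'
  · rcases hT a ha with h1 | h1
    · exact ⟨0, by simpa using h1⟩
    · exact ⟨1, by simpa using h1⟩

theorem Cnt.prod {S : St N α} {T : St N β} (h : Cnt S) (h' : Cnt T) {U : St N (α × β)}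
    (hU : ∀ p ∈ U, p.1 ∈ S ∧ p.2 ∈ T) : Cnt U := by
  by_cases hne : ∃ p, p ∈ U
  · obtain ⟨p0, hp0⟩ := hne
    obtain ⟨e, he, he'⟩ := Cnt.enum h ⟨_, (hU p0 hp0).1⟩
    obtain ⟨d, hd, hd'⟩ := Cnt.enum h' ⟨_, (hU p0 hp0).2⟩
    refine Cnt.range (e := fun k => (e (Nat.unpair k).1, d (Nat.unpair k).2))
      (IF.pair (IF.comp he (IF.unpair1 IF.id)) (IF.comp hd (IF.unpair2 IF.id))) fun p hp => ?_
    obtain ⟨n, hn⟩ := (he' _).1 (hU p hp).1
    obtain ⟨m, hm⟩ := (hd' _).1 (hU p hp).2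
    refine ⟨Nat.pair n m, ?_⟩
    show (e (Nat.unpair (Nat.pair n m)).1, d (Nat.unpair (Nat.pair n m)).2) = p
    rw [Nat.unpair_pair]
    exact Prod.ext hn hm
  · exact Or.inl fun a ha => hne ⟨a, ha⟩

theorem Cnt.nat (S : St N ℕ) : Cnt S := Cnt.range (e := fun n => n) IF.id fun a _ => ⟨a, rfl⟩

theorem IP.cnt {S : β → St N α} (hS : IF N S) : IP N (fun b => Cnt (S b)) :=
  (IP.all (P := fun (b : β) (a : α) => ¬ a ∈ S b)
    (IP.mem IF.snd (IF.comp (g := S) hS IF.fst)).not).or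
  (IP.ex (P := fun (b : β) (e : Fn N ℕ α) => ∀ a ∈ S b, ∃ n, e n = a) (ip_cov hS))

/-- the set of all internal subsets of `ℕ` is not countable -/
theorem not_cnt_univ (S : St N (St N ℕ)) (h : ∀ A, A ∈ S) : ¬ Cnt S := by
  rintro (h1 | ⟨e, he⟩)
  · exact h1 ⟨{_n : ℕ | False}, IP.const False⟩ (h _)
  · have hD : IP N (fun n : ℕ => ¬ n ∈ e n) := (IP.mem IF.id e.int).not
    obtain ⟨m, hm⟩ := he ⟨{n : ℕ | ¬ n ∈ e n}, hD⟩ (h _)
    have h2 : m ∈ e m ↔ ¬ m ∈ e m := by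
      conv_lhs => rw [hm]
      exact Iff.rfl
    exact (not_iff_self h2.symm).elim

end WCal
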