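import Pool.Agent.WCal.Cho

/-! # Recursion along well-founded internal relations; internal well-foundedness is native; collapse

(problem MP_ba5606_gt, ARH Part II, block 0; architect helper69)

PROOFS.
* `wfRec`. `S : St N (α × β)` is coherent if it is functional, its domain is closed downwards under `r`, and `y = G b (S ↾ b)` for all
  `(b, y) ∈ S`, where `S ↾ b := {q ∈ S | r q.1 b}`. (1) Two coherent sets agree on common arguments (induction along `r`; the restrictions are
  equal since the domains are closed). (2) For every `a` there is a coherent set with `a` in its domain: induction along `r`; the union `U` of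
  all coherent sets (an internal set: `q ∈ U` iff `∃ S coherent, q ∈ S`, quantifier over `St N (α × β)`) is coherent by (1); if `a` is not
  in its domain then `U ∪ {(a, G a (U ↾ a))}` is coherent, since by the induction hypothesis all `b` with `r b a` are in the domain of `U`.
  `F a` := the unique `y` with `(a, y) ∈ U`, internal by `IF.ofP`.
* `wfChoice`: `r` is a strict linear well-order. `choice'` for the relation `R a S y` between `(a, S)` and `y` (default value from the
  hypothesis: some `β` element exists if `α` is nonempty) gives `G`; `wfRec` gives `F`; by induction along `r` the history `S` at `a`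
  satisfies the hypotheses of `htot` (for `T` as in `htot`: `T` is the history at `b`, by transitivity of `r`).
* `wf_of_int`: (internal well-foundedness is native.) Mostowski collapse for `r` in the model: `f : N` is an approximation if it is a
  function (`IsFun`) with domain `D ⊆ rg α`, `D` closed downwards, and `z ∈ f(a) ↔ ∃ b, r b a ∧ z = f(b)`. Two approximations agree (else the
  internal set of the arguments of disagreement has an `r`-minimal element, extensionality). The internal set of all `a` which are in the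
  domain of no approximation is empty: otherwise let `a` be minimal; by replacement and union (for every `b ∈ D' := ` the closure ..., it is
  easier: let `A` be the set of all `b : α` which are in the domain of some approximation; replacement applied to the function which maps
  `b ∈ A` to the value `f(b)` of any approximation (a formula!) gives a function `g : N` with domain `A`, which is an approximation; by
  minimality all `b` with `r b a` are in `A`; extend `g` by `a ↦ {g(b) | r b a}` (replacement)), a contradiction. So there is an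
  approximation `g` with domain `rg α`, and `r b a → E (g b) (g a)`; as `E` is well-founded, `r` is well-founded.
* `exists_mos`: the same `g`. -/

universe u v w x

namespace WCal

open STP WM

variable {N : Type u} [WM N] {α : Type v} {β : Type w} {γ : Type x} [WTy N α] [WTy N β] [WTy N γ]

private theorem rec_res_int {r : α → α → Prop} (hr : IP N (fun p : α × α => r p.1 p.2))
    (S : St N (α × β)) (b : α) : IP N (fun q : α × β => q ∈ S ∧ r q.1 b) :=
  IP.and (IP.mem IF.id (IF.const S)) (IP.comp2 hr IF.fst (IF.const b))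

/-- the restriction of `S` to the arguments below `b` -/
private def rec_res {r : α → α → Prop} (hr : IP N (fun p : α × α => r p.1 p.2))
    (S : St N (α × β)) (b : α) : St N (α × β) :=
  ⟨{q | q ∈ S ∧ r q.1 b}, rec_res_int hr S b⟩

private theorem rec_mem_res {r : α → α → Prop} (hr : IP N (fun p : α × α => r p.1 p.2))
    (S : St N (α × β)) (b : α) (q : α × β) : q ∈ rec_res hr S b ↔ q ∈ S ∧ r q.1 b := Iff.rfl

private theorem rec_st_ext {S T : St N γ} (h : ∀ q, q ∈ S ↔ q ∈ T) : S = T :=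
  St.ext (Set.ext h)

/-- coherent sets -/
private def rec_coh {r : α → α → Prop} (hr : IP N (fun p : α × α => r p.1 p.2))
    (G : α → St N (α × β) → β) (S : St N (α × β)) : Prop :=
  (∀ t : α × β × β, (t.1, t.2.1) ∈ S → (t.1, t.2.2) ∈ S → t.2.1 = t.2.2) ∧
  (∀ t : α × β × α, (t.1, t.2.1) ∈ S → r t.2.2 t.1 → ∃ z : β, (t.2.2, z) ∈ S) ∧
  ∀ q : α × β, q ∈ S → q.2 = G q.1 (rec_res hr S q.1)

private theorem rec_coh_int {r : α → α → Prop} (hr : IP N (fun p : α × α => r p.1 p.2))
    {G : α → St N (α × β) → β} (hG : IF N (fun p : α × St N (α × β) => G p.1 p.2)) :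
    IP N (fun S : St N (α × β) => rec_coh hr G S) := by
  refine IP.and (IP.all ?_) (IP.and (IP.all ?_) (IP.all ?_))
  · refine IP.imp (IP.mem (IF.pair (IF.comp IF.fst IF.snd)
      (IF.comp IF.fst (IF.comp IF.snd IF.snd))) IF.fst) (IP.imp (IP.mem (IF.pair
      (IF.comp IF.fst IF.snd) (IF.comp IF.snd (IF.comp IF.snd IF.snd))) IF.fst) (IP.eq
      (IF.comp IF.fst (IF.comp IF.snd IF.snd)) (IF.comp IF.snd (IF.comp IF.snd IF.snd))))
  · refine IP.imp (IP.mem (IF.pair (IF.comp IF.fst IF.snd)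
      (IF.comp IF.fst (IF.comp IF.snd IF.snd))) IF.fst) (IP.imp
      (IP.comp2 hr (IF.comp IF.snd (IF.comp IF.snd IF.snd)) (IF.comp IF.fst IF.snd))
      (IP.ex (IP.mem (IF.pair (IF.comp IF.snd (IF.comp IF.snd (IF.comp IF.snd IF.fst))) IF.snd)
        (IF.comp IF.fst IF.fst))))
  · refine IP.imp (IP.mem IF.snd IF.fst) (IP.eq (IF.comp IF.snd IF.snd)
      (IF.comp hG (IF.pair (IF.comp IF.fst IF.snd) (IF.compr' ?_))))
    exact IP.and (IP.mem IF.snd (IF.comp IF.fst IF.fst))
      (IP.comp2 hr (IF.comp IF.fst IF.snd) (IF.comp IF.fst (IF.comp IF.snd IF.fst)))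

private theorem rec_uniq {r : α → α → Prop} (hw : WellFounded r)
    (hr : IP N (fun p : α × α => r p.1 p.2)) {G : α → St N (α × β) → β} {S T : St N (α × β)}
    (hS : rec_coh hr G S) (hT : rec_coh hr G T) :
    ∀ a y z, (a, y) ∈ S → (a, z) ∈ T → y = z := by
  intro a
  induction a using hw.induction with
  | _ a ih =>
    intro y z hy hz
    have h1 := hS.2.2 (a, y) hy
    have h2 := hT.2.2 (a, z) hz
    have h3 : rec_res hr S a = rec_res hr T a := by
      refine rec_st_ext fun q => ?_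
      rw [rec_mem_res, rec_mem_res]
      obtain ⟨b, w⟩ := q
      constructor
      · rintro ⟨hq, hb⟩
        obtain ⟨w', hw'⟩ := hT.2.1 (a, z, b) hz hb
        have := ih b hb w w' hq hw'
        subst this
        exact ⟨hw', hb⟩
      · rintro ⟨hq, hb⟩
        obtain ⟨w', hw'⟩ := hS.2.1 (a, y, b) hy hb
        have := ih b hb w' w hw' hq
        subst this
        exact ⟨hw', hb⟩
    change y = G a (rec_res hr S a) at h1
    change z = G a (rec_res hr T a) at h2
    rw [h1, h2, h3]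

theorem wfRec {r : α → α → Prop} (hw : WellFounded r) (hr : IP N (fun p : α × α => r p.1 p.2))
    {G : α → St N (α × β) → β} (hG : IF N (fun p : α × St N (α × β) => G p.1 p.2)) :
    ∃ F : α → β, IF N F ∧
      ∀ a (S : St N (α × β)), (∀ q : α × β, q ∈ S ↔ r q.1 a ∧ F q.1 = q.2) → F a = G a S := by
  have hUi : IP N (fun q : α × β => ∃ S : St N (α × β), rec_coh hr G S ∧ q ∈ S) :=
    IP.ex (IP.and (IP.comp (rec_coh_int hr hG) IF.snd) (IP.mem IF.fst IF.snd))
  obtain ⟨U, hU⟩ : ∃ U : St N (α × β), ∀ q, q ∈ U ↔ ∃ S : St N (α × β), rec_coh hr G S ∧ q ∈ S :=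
    ⟨⟨{q | ∃ S : St N (α × β), rec_coh hr G S ∧ q ∈ S}, hUi⟩, fun q => Iff.rfl⟩
  have hUc : rec_coh hr G U := by
    refine ⟨?_, ?_, ?_⟩
    · rintro ⟨a, y, z⟩ hy hz
      obtain ⟨S, hS, hy⟩ := (hU _).1 hy
      obtain ⟨T, hT, hz⟩ := (hU _).1 hz
      exact rec_uniq hw hr hS hT a y z hy hz
    · rintro ⟨a, y, b⟩ hy hb
      obtain ⟨S, hS, hy⟩ := (hU _).1 hy
      obtain ⟨z, hz⟩ := hS.2.1 (a, y, b) hy hb
      exact ⟨z, (hU _).2 ⟨S, hS, hz⟩⟩
    · rintro ⟨a, y⟩ hy
      obtain ⟨S, hS, hy⟩ := (hU _).1 hy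
      have h1 := hS.2.2 (a, y) hy
      have h3 : rec_res hr S a = rec_res hr U a := by
        refine rec_st_ext fun q => ?_
        rw [rec_mem_res, rec_mem_res]
        obtain ⟨b, w⟩ := q
        constructor
        · rintro ⟨hq, hb⟩
          exact ⟨(hU _).2 ⟨S, hS, hq⟩, hb⟩
        · rintro ⟨hq, hb⟩
          obtain ⟨T, hT, hq⟩ := (hU _).1 hq
          obtain ⟨w', hw'⟩ := hS.2.1 (a, y, b) hy hb
          have := rec_uniq hw hr hS hT b w' w hw' hq
          subst this
          exact ⟨hw', hb⟩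
      change y = G a (rec_res hr S a) at h1
      change y = G a (rec_res hr U a)
      rw [h1, h3]
  have htot : ∀ a, ∃ y, (a, y) ∈ U := by
    intro a
    induction a using hw.induction with
    | _ a ih =>
      by_contra hcon
      push Not at hcon
      have hVi : IP N (fun q : α × β => q ∈ U ∨ q = (a, G a (rec_res hr U a))) :=
        IP.or (IP.mem IF.id (IF.const U)) (IP.eq IF.id (IF.const _))
      obtain ⟨V, hV⟩ : ∃ V : St N (α × β), ∀ q, q ∈ V ↔ q ∈ U ∨ q = (a, G a (rec_res hr U a)) :=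
        ⟨⟨{q | q ∈ U ∨ q = (a, G a (rec_res hr U a))}, hVi⟩, fun q => Iff.rfl⟩
      have hrr : ¬ r a a := fun h => hw.irrefl.irrefl a h
      have hres : ∀ b, (b = a ∨ ∃ y, (b, y) ∈ U) → rec_res hr V b = rec_res hr U b := by
        intro b hb
        refine rec_st_ext fun q => ?_
        rw [rec_mem_res, rec_mem_res, hV]
        constructor
        · rintro ⟨hq | hq, hqb⟩
          · exact ⟨hq, hqb⟩
          · rw [hq] at hqb
            rcases hb with rfl | ⟨y, hy⟩
            · exact absurd hqb hrr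
            · obtain ⟨z, hz⟩ := hUc.2.1 (b, y, a) hy hqb
              exact absurd hz (hcon z)
        · rintro ⟨hq, hqb⟩
          exact ⟨Or.inl hq, hqb⟩
      have hVc : rec_coh hr G V := by
        refine ⟨?_, ?_, ?_⟩
        · rintro ⟨b, y, z⟩ hy hz
          rcases (hV _).1 hy with hy | hy <;> rcases (hV _).1 hz with hz | hz
          · exact hUc.1 (b, y, z) hy hz
          · have h1 : b = a := congrArg Prod.fst hz
            subst h1
            exact absurd hy (hcon y)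
          · have h1 : b = a := congrArg Prod.fst hy
            subst h1
            exact absurd hz (hcon z)
          · exact (congrArg Prod.snd hy).trans (congrArg Prod.snd hz).symm
        · rintro ⟨b, y, c⟩ hy hc
          rcases (hV _).1 hy with hy | hy
          · obtain ⟨z, hz⟩ := hUc.2.1 (b, y, c) hy hc
            exact ⟨z, (hV _).2 (Or.inl hz)⟩
          · have h1 : b = a := congrArg Prod.fst hy
            subst h1
            obtain ⟨z, hz⟩ := ih c hc
            exact ⟨z, (hV _).2 (Or.inl hz)⟩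
        · rintro ⟨b, y⟩ hy
          change y = G b (rec_res hr V b)
          rcases (hV _).1 hy with hy | hy
          · rw [hres b (Or.inr ⟨y, hy⟩)]
            exact hUc.2.2 (b, y) hy
          · have h1 : b = a := congrArg Prod.fst hy
            have h2 : y = G a (rec_res hr U a) := congrArg Prod.snd hy
            subst h1
            rw [hres b (Or.inl rfl)]
            exact h2
      exact hcon _ ((hU _).2 ⟨V, hVc, (hV _).2 (Or.inr rfl)⟩)
  choose F hF using htot
  refine ⟨F, IF.ofP (Q := fun a y => (a, y) ∈ U) (IP.mem (IF.pair IF.fst IF.snd) (IF.const U))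
    fun a y => ⟨fun h => hUc.1 (a, F a, y) (hF a) h, fun h => h ▸ hF a⟩, fun a S hS => ?_⟩
  have h1 := hUc.2.2 (a, F a) (hF a)
  change F a = G a (rec_res hr U a) at h1
  rw [h1]
  congr 1
  refine rec_st_ext fun q => ?_
  rw [rec_mem_res, hS]
  obtain ⟨b, w⟩ := q
  constructor
  · rintro ⟨hq, hb⟩
    exact ⟨hb, hUc.1 (b, F b, w) (hF b) hq⟩
  · rintro ⟨hb, hq⟩
    change F b = w at hq
    subst hq
    exact ⟨hF b, hb⟩

theorem wfChoice {r : α → α → Prop} (hw : WellFounded r) (htr : ∀ a b c, r a b → r b c → r a c)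
    (hr : IP N (fun p : α × α => r p.1 p.2)) {R : α → St N (α × β) → β → Prop}
    (hR : IP N (fun p : α × St N (α × β) × β => R p.1 p.2.1 p.2.2))
    (htot : ∀ a (S : St N (α × β)), (∀ q ∈ S, r q.1 a) → (∀ b, r b a → ∃! y, (b, y) ∈ S) →
      (∀ b y (T : St N (α × β)), (b, y) ∈ S → (∀ q : α × β, q ∈ T ↔ q ∈ S ∧ r q.1 b) → R b T y) →
      ∃ y, R a S y) :
    ∃ F : α → β, IF N F ∧
      ∀ a (S : St N (α × β)), (∀ q : α × β, q ∈ S ↔ r q.1 a ∧ F q.1 = q.2) → R a S (F a) := by
  rcases isEmpty_or_nonempty α with hα | ⟨⟨a0⟩⟩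
  · exact ⟨fun a => (hα.false a).elim, IF.finite _, fun a => (hα.false a).elim⟩
  have hb0 : ∃ _ : β, True := by
    obtain ⟨a1, -, ha1⟩ := hw.has_min Set.univ ⟨a0, trivial⟩
    obtain ⟨S, hS⟩ : ∃ S : St N (α × β), ∀ q, q ∉ S :=
      ⟨⟨{q | False}, IP.const False⟩, fun q hq => hq⟩
    obtain ⟨y, -⟩ := htot a1 S (fun q hq => absurd hq (hS q)) (fun b hb => absurd hb (ha1 b trivial))
      fun b y T hb => absurd hb (hS _)
    exact ⟨y, trivial⟩
  obtain ⟨b0, -⟩ := hb0
  obtain ⟨g, hg, hg'⟩ := choice' (α := α × St N (α × β)) (P := fun p y => R p.1 p.2 y)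
    (IP.comp hR (IF.pair (IF.comp IF.fst IF.fst) (IF.pair (IF.comp IF.snd IF.fst) IF.snd))) b0
  obtain ⟨F, hF, hF'⟩ := wfRec hw hr (G := fun a S => g (a, S)) hg
  refine ⟨F, hF, fun a => ?_⟩
  induction a using hw.induction with
  | _ a ih =>
    intro S hS
    rw [hF' a S hS]
    refine hg' (a, S) (htot a S (fun q hq => ((hS q).1 hq).1) (fun b hb => ⟨F b, ?_, ?_⟩) ?_)
    · exact (hS _).2 ⟨hb, rfl⟩
    · intro y hy
      exact ((hS _).1 hy).2.symm
    · intro b y T hy hT
      obtain ⟨hb, hy'⟩ := (hS _).1 hy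
      change F b = y at hy'
      subst hy'
      refine ih b hb T fun q => ?_
      rw [hT, hS]
      constructor
      · rintro ⟨⟨-, h1⟩, h2⟩
        exact ⟨h2, h1⟩
      · rintro ⟨h1, h2⟩
        exact ⟨⟨htr _ _ _ h1 hb, h2⟩, h1⟩

private theorem rec_val {f x y : N} : Val E f x y ↔ E (op x y) f := by
  constructor
  · rintro ⟨p, hp, h⟩
    rw [isOP_iff] at h
    rwa [← h]
  · intro h
    exact ⟨op x y, h, isOP_op x y⟩

/-- approximations of the collapse -/
private def rec_app (s A f : N) : Prop :=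
  (∀ p, E p f → ∃ a w, E a A ∧ IsOP E p a w) ∧
  (∀ a w w', Val E f a w → Val E f a w' → w = w') ∧
  (∀ a w b, Val E f a w → Val E s b a → ∃ z, Val E f b z) ∧
  ∀ a w, Val E f a w → ∀ z, E z w ↔ ∃ b, Val E s b a ∧ Val E f b z

open Fml in
/-- the formula for approximations -/
private def rec_fapp (s A f : ℕ) : Fml :=
  an (.all (.imp (.mem 0 (f + 1)) (ex (ex (an (.mem 1 (A + 3)) (fOP 2 1 0))))))
    (an (.all (.all (.all (.imp (fVal (f + 3) 2 1) (.imp (fVal (f + 3) 2 0) (.eq 1 0))))))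
      (an (.all (.all (.all (.imp (fVal (f + 3) 2 1) (.imp (fVal (s + 3) 0 2)
        (ex (fVal (f + 4) 1 0)))))))
        (.all (.all (.imp (fVal (f + 2) 1 0)
          (.all (iff (.mem 0 1) (ex (an (fVal (s + 4) 0 3) (fVal (f + 4) 0 1))))))))))

private theorem rec_sat_fapp {s A f : ℕ} {v : ℕ → N} :
    sat E (rec_fapp s A f) v ↔ rec_app (v s) (v A) (v f) := by
  simp [rec_fapp, rec_app]

/-- minimal elements -/
private theorem rec_min {r : α → α → Prop}
    (hm : ∀ S : St N α, (∃ a, a ∈ S) → ∃ a, a ∈ S ∧ ∀ b, b ∈ S → ¬ r b a) {s : N}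
    (hs : ∀ a b : N, Val E s b a ↔ ∃ a' b' : α, a = cd N a' ∧ b = cd N b' ∧ r b' a')
    (φ : Fml) (v : ℕ → N) (Q : N → Prop) (hφ : ∀ z, sat E φ (cns z v) ↔ Q z)
    (hex : ∃ a, E a (rg N α) ∧ Q a) :
    ∃ a, E a (rg N α) ∧ Q a ∧ ∀ b, Val E s b a → ¬ Q b := by
  obtain ⟨a, ha, hQ⟩ := hex
  obtain ⟨a, rfl⟩ := E_rg.1 ha
  obtain ⟨a1, h1, h2⟩ := hm ⟨{a | Q (cd N a)}, IP.of_sat φ v fun a => (hφ _).symm⟩ ⟨a, hQ⟩
  refine ⟨cd N a1, cd_mem a1, h1, fun b hb hQb => ?_⟩
  obtain ⟨a', b', h3, rfl, h4⟩ := (hs _ _).1 hb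
  rw [cd_inj] at h3
  subst h3
  exact h2 b' hQb h4

private theorem rec_app_uniq {r : α → α → Prop}
    (hm : ∀ S : St N α, (∃ a, a ∈ S) → ∃ a, a ∈ S ∧ ∀ b, b ∈ S → ¬ r b a) {s : N}
    (hs : ∀ a b : N, Val E s b a ↔ ∃ a' b' : α, a = cd N a' ∧ b = cd N b' ∧ r b' a') {f g : N}
    (hf : rec_app s (rg N α) f) (hg : rec_app s (rg N α) g) {a w w' : N} (hw : Val E f a w)
    (hw' : Val E g a w') : w = w' := by
  by_contra hne
  have hA : E a (rg N α) := by
    obtain ⟨p, hp, hp'⟩ := hw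
    obtain ⟨a', w', ha', hp''⟩ := hf.1 p hp
    rw [isOP_iff] at hp' hp''
    rw [hp', op_inj] at hp''
    rw [hp''.1]
    exact ha'
  obtain ⟨a1, -, ⟨w1, w1', h1, h2, h3⟩, h4⟩ := rec_min hm hs
    (Fml.ex (Fml.ex (Fml.an (fVal 3 2 1) (Fml.an (fVal 4 2 0) (Fml.no (.eq 1 0))))))
    (cns f (fun _ => g)) (fun a => ∃ w w', Val E f a w ∧ Val E g a w' ∧ ¬ w = w')
    (fun z => by simp) ⟨a, hA, w, w', hw, hw', hne⟩
  refine h3 (ext_iff'.2 fun z => ?_)
  rw [hf.2.2.2 a1 w1 h1, hg.2.2.2 a1 w1' h2]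
  constructor
  · rintro ⟨b, hb, hz⟩
    obtain ⟨z', hz'⟩ := hg.2.2.1 a1 w1' b h2 hb
    have : z = z' := by
      by_contra hne'
      exact h4 b hb ⟨z, z', hz, hz', hne'⟩
    exact ⟨b, hb, this ▸ hz'⟩
  · rintro ⟨b, hb, hz⟩
    obtain ⟨z', hz'⟩ := hf.2.2.1 a1 w1 b h1 hb
    have : z' = z := by
      by_contra hne'
      exact h4 b hb ⟨z', z, hz', hz, hne'⟩
    exact ⟨b, hb, this ▸ hz'⟩

private theorem rec_dom {s A f : N} (hf : rec_app s A f) {a w : N} (h : Val E f a w) : E a A := by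
  obtain ⟨p, hp, hp'⟩ := h
  obtain ⟨a', w', ha', hp''⟩ := hf.1 p hp
  rw [isOP_iff] at hp' hp''
  rw [hp', op_inj] at hp''
  rw [hp''.1]
  exact ha'

/-- the union of all approximations -/
private theorem rec_big {r : α → α → Prop}
    (hm : ∀ S : St N α, (∃ a, a ∈ S) → ∃ a, a ∈ S ∧ ∀ b, b ∈ S → ¬ r b a) {s : N}
    (hs : ∀ a b : N, Val E s b a ↔ ∃ a' b' : α, a = cd N a' ∧ b = cd N b' ∧ r b' a') :
    ∃ g0 : N, ∀ p, E p g0 ↔ ∃ a w f, rec_app s (rg N α) f ∧ Val E f a w ∧ p = op a w := by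
  classical
  obtain ⟨B, hB⟩ := sepF (Fml.ex (Fml.ex (Fml.an (rec_fapp 3 4 0) (fVal 0 2 1))))
    (cns s (fun _ => rg N α)) (rg N α)
    (fun a => ∃ w f, rec_app s (rg N α) f ∧ Val E f a w) (fun z _ => by simp [rec_sat_fapp])
  let F : N → N := fun a =>
    if h : ∃ w f, rec_app s (rg N α) f ∧ Val E f a w then op a h.choose else emp
  have hF : ∀ a w f, rec_app s (rg N α) f → Val E f a w → F a = op a w := by
    intro a w f hf hw
    have h : ∃ w f, rec_app s (rg N α) f ∧ Val E f a w := ⟨w, f, hf, hw⟩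
    have h1 : F a = op a h.choose := dif_pos h
    obtain ⟨f', hf', hw'⟩ := h.choose_spec
    rw [h1, rec_app_uniq hm hs hf' hf hw' hw]
  obtain ⟨g0, hg0⟩ := repF (Fml.ex (Fml.ex (Fml.an (rec_fapp 4 5 0) (Fml.an (fVal 0 3 1)
    (fOP 2 3 1))))) (cns s (fun _ => rg N α)) B F (fun z hz w => by
      obtain ⟨-, y, f, hf, hy⟩ := (hB z).1 hz
      rw [hF z y f hf hy]
      simp only [sat_ex, sat_an, rec_sat_fapp, sat_fVal, sat_fOP]
      constructor
      · rintro ⟨y', f', hf', hy', hop⟩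
        have h1 := rec_app_uniq hm hs hf hf' hy hy'
        rw [isOP_iff] at hop
        rw [h1]
        exact hop
      · intro h
        exact ⟨y, f, hf, hy, isOP_iff.2 h⟩)
  refine ⟨g0, fun p => ?_⟩
  rw [hg0]
  constructor
  · rintro ⟨z, hz, rfl⟩
    obtain ⟨-, y, f, hf, hy⟩ := (hB z).1 hz
    exact ⟨z, y, f, hf, hy, hF z y f hf hy⟩
  · rintro ⟨a, w, f, hf, hw, rfl⟩
    exact ⟨a, (hB a).2 ⟨rec_dom hf hw, w, f, hf, hw⟩, (hF a w f hf hw).symm⟩

/-- the collapse of an internal relation which is well-founded in the model -/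
theorem exists_mos {r : α → α → Prop} (hr : IP N (fun p : α × α => r p.1 p.2))
    (hm : ∀ S : St N α, (∃ a, a ∈ S) → ∃ a, a ∈ S ∧ ∀ b, b ∈ S → ¬ r b a) :
    ∃ c : α → N, (∀ a z, E z (c a) ↔ ∃ b, r b a ∧ z = c b) ∧
      ∃ g : N, ∀ z, E z g ↔ ∃ a, z = op (cd N a) (c a) := by
  obtain ⟨s, hs0⟩ := exists_sub N (fun p : α × α => r p.1 p.2) hr
  have hs : ∀ a b : N, Val E s b a ↔ ∃ a' b' : α, a = cd N a' ∧ b = cd N b' ∧ r b' a' := by
    intro a b
    rw [rec_val, hs0]
    constructor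
    · rintro ⟨⟨b', a'⟩, h, h'⟩
      obtain ⟨h1, h2⟩ := op_inj.1 (show op (cd N b') (cd N a') = op b a from h')
      exact ⟨a', b', h2.symm, h1.symm, h⟩
    · rintro ⟨a', b', rfl, rfl, h⟩
      exact ⟨(b', a'), h, rfl⟩
  obtain ⟨g0, hg0⟩ := rec_big hm hs
  have hv0 : ∀ a w, Val E g0 a w ↔ ∃ f, rec_app s (rg N α) f ∧ Val E f a w := by
    intro a w
    rw [rec_val, hg0]
    constructor
    · rintro ⟨a', w', f, hf, hw, h⟩
      obtain ⟨rfl, rfl⟩ := op_inj.1 h
      exact ⟨f, hf, hw⟩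
    · rintro ⟨f, hf, hw⟩
      exact ⟨a, w, f, hf, hw, rfl⟩
  have hap : rec_app s (rg N α) g0 := by
    refine ⟨?_, ?_, ?_, ?_⟩
    · intro p hp
      obtain ⟨a, w, f, hf, hw, rfl⟩ := (hg0 p).1 hp
      exact ⟨a, w, rec_dom hf hw, isOP_op a w⟩
    · intro a w w' hw hw'
      obtain ⟨f, hf, hw⟩ := (hv0 _ _).1 hw
      obtain ⟨f', hf', hw'⟩ := (hv0 _ _).1 hw'
      exact rec_app_uniq hm hs hf hf' hw hw'
    · intro a w b hw hb
      obtain ⟨f, hf, hw⟩ := (hv0 _ _).1 hw
      obtain ⟨z, hz⟩ := hf.2.2.1 a w b hw hb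
      exact ⟨z, (hv0 _ _).2 ⟨f, hf, hz⟩⟩
    · intro a w hw z
      obtain ⟨f, hf, hw⟩ := (hv0 _ _).1 hw
      rw [hf.2.2.2 a w hw]
      constructor
      · rintro ⟨b, hb, hz⟩
        exact ⟨b, hb, (hv0 _ _).2 ⟨f, hf, hz⟩⟩
      · rintro ⟨b, hb, hz⟩
        obtain ⟨f', hf', hz⟩ := (hv0 _ _).1 hz
        obtain ⟨z', hz'⟩ := hf.2.2.1 a w b hw hb
        have := rec_app_uniq hm hs hf hf' hz' hz
        subst this
        exact ⟨b, hb, hz'⟩
  have htot : ∀ a, E a (rg N α) → ∃ w, Val E g0 a w := by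
    by_contra hcon
    push Not at hcon
    obtain ⟨a0, ha0, ha0'⟩ := hcon
    obtain ⟨a, haA, hna, hmin⟩ := rec_min hm hs
      (Fml.no (Fml.ex (fVal 2 1 0))) (cns g0 (fun _ => g0)) (fun a => ¬ ∃ w, Val E g0 a w)
      (fun z => by simp) ⟨a0, ha0, fun ⟨w, hw⟩ => ha0' w hw⟩
    have hlow : ∀ b, Val E s b a → ∃ w, Val E g0 b w := by
      intro b hb
      by_contra hb'
      exact hmin b hb hb'
    obtain ⟨wa, hwa⟩ := sepF (Fml.ex (Fml.an (fVal 3 0 2) (fVal 4 0 1)))
      (cns a (cns s (fun _ => g0))) (un (un g0)) (fun z => ∃ b, Val E s b a ∧ Val E g0 b z)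
      (fun z _ => by simp)
    have hwa' : ∀ z, E z wa ↔ ∃ b, Val E s b a ∧ Val E g0 b z := by
      intro z
      rw [hwa]
      refine ⟨fun h => h.2, fun h => ⟨?_, h⟩⟩
      obtain ⟨b, -, hz⟩ := h
      rw [rec_val] at hz
      obtain ⟨u, hu, hu'⟩ := (E_op b z).2
      rw [E_un]
      exact ⟨u, E_un.2 ⟨_, hz, hu⟩, hu'⟩
    have hg1 : ∀ x y, Val E (cup g0 (up (op a wa) (op a wa))) x y ↔
        Val E g0 x y ∨ (x = a ∧ y = wa) := by
      intro x y
      rw [rec_val, rec_val, E_cup, E_up, or_self_iff, op_inj]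
    have hsa : ∀ x w, Val E g0 x w → ¬ Val E s a x := by
      intro x w hw hax
      exact hna (hap.2.2.1 x w a hw hax)
    have hsaa : ¬ Val E s a a := by
      intro h
      exact hna (hlow a h)
    have hap1 : rec_app s (rg N α) (cup g0 (up (op a wa) (op a wa))) := by
      refine ⟨?_, ?_, ?_, ?_⟩
      · intro p hp
        rw [E_cup, E_up, or_self_iff] at hp
        rcases hp with hp | rfl
        · exact hap.1 p hp
        · exact ⟨a, wa, haA, isOP_op a wa⟩
      · intro x w w' hw hw'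
        rcases (hg1 _ _).1 hw with h1 | ⟨h1, h2⟩ <;> rcases (hg1 _ _).1 hw' with h3 | ⟨h3, h4⟩
        · exact hap.2.1 x w w' h1 h3
        · subst h3
          exact absurd ⟨w, h1⟩ hna
        · subst h1
          exact absurd ⟨w', h3⟩ hna
        · rw [h2, h4]
      · intro x w b hw hb
        rcases (hg1 _ _).1 hw with h1 | ⟨h1, h2⟩
        · obtain ⟨z, hz⟩ := hap.2.2.1 x w b h1 hb
          exact ⟨z, (hg1 _ _).2 (Or.inl hz)⟩
        · subst h1
          obtain ⟨z, hz⟩ := hlow b hb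
          exact ⟨z, (hg1 _ _).2 (Or.inl hz)⟩
      · intro x w hw z
        rcases (hg1 _ _).1 hw with h1 | ⟨h1, h2⟩
        · rw [hap.2.2.2 x w h1]
          constructor
          · rintro ⟨b, hb, hz⟩
            exact ⟨b, hb, (hg1 _ _).2 (Or.inl hz)⟩
          · rintro ⟨b, hb, hz⟩
            rcases (hg1 _ _).1 hz with h3 | ⟨h3, h4⟩
            · exact ⟨b, hb, h3⟩
            · rw [h3] at hb
              exact absurd hb (hsa x w h1)
        · rw [h1, h2, hwa']
          constructor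
          · rintro ⟨b, hb, hz⟩
            exact ⟨b, hb, (hg1 _ _).2 (Or.inl hz)⟩
          · rintro ⟨b, hb, hz⟩
            rcases (hg1 _ _).1 hz with h3 | ⟨h3, h4⟩
            · exact ⟨b, hb, h3⟩
            · rw [h3] at hb
              exact absurd hb hsaa
    exact hna ⟨wa, (hv0 _ _).2 ⟨_, hap1, (hg1 _ _).2 (Or.inr ⟨rfl, rfl⟩)⟩⟩
  choose c hc using fun a : α => htot (cd N a) (cd_mem a)
  refine ⟨c, fun a z => ?_, g0, fun z => ?_⟩
  · rw [hap.2.2.2 _ _ (hc a)]
    constructor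
    · rintro ⟨b, hb, hz⟩
      obtain ⟨a', b', h1, rfl, h3⟩ := (hs _ _).1 hb
      rw [cd_inj] at h1
      subst h1
      exact ⟨b', h3, hap.2.1 _ _ _ hz (hc b')⟩
    · rintro ⟨b, hb, rfl⟩
      exact ⟨cd N b, (hs _ _).2 ⟨a, b, rfl, rfl, hb⟩, hc b⟩
  · constructor
    · intro hz
      obtain ⟨a, w, f, hf, hw, rfl⟩ := (hg0 z).1 hz
      obtain ⟨a, rfl⟩ := E_rg.1 (rec_dom hf hw)
      refine ⟨a, ?_⟩
      rw [hap.2.1 _ _ _ ((hv0 _ _).2 ⟨f, hf, hw⟩) (hc a)]
    · rintro ⟨a, rfl⟩
      exact rec_val.1 (hc a)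

theorem wf_of_int {r : α → α → Prop} (hr : IP N (fun p : α × α => r p.1 p.2))
    (hm : ∀ S : St N α, (∃ a, a ∈ S) → ∃ a, a ∈ S ∧ ∀ b, b ∈ S → ¬ r b a) : WellFounded r := by
  obtain ⟨c, hc, -⟩ := exists_mos hr hm
  exact Subrelation.wf (fun {b a} h => (hc a (c b)).2 ⟨b, h, rfl⟩) (InvImage.wf c WM.wf)

end WCal
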