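import Pool.Agent.WCal.Simp

/-! # Infinite countable types have internal bijections with the natural numbers

(problem MP_ba5606_gt, ARH Part II, block 0; architect helper69)

PROOF. By `IF.natRec` (`WCal/Nat.lean`) there is an internal sequence of lists `L : ℕ → List α` with `L 0 = []`, `L (n + 1) = L n ++ [e (the least k with e k ∉ L n)]` (such a `k` exists: `e` is surjective, `α` is infinite and `L n` is finite; the least `k` is an
internal function of the list by `IF.find` with `IP.memList`; state it for all lists `l`: `∀ l : List α, ∃ k, e k ∉ l`). Let `f n := e (the least k with e k ∉ L n)`. `f n ∉ L n`, and `L n` contains all `f m`, `m < n`: `f` is injective. By induction on `k`: `e k` is an element of `L (k + 1)`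
(if `e k ∉ L n` for `n = k`, all `e j`, `j < k`, are in `L k` by induction and monotonicity, so the least index at step `k` is `k`); and the elements of `L n` are values of `f`. So `f` is surjective. -/

universe u v

namespace WCal

open STP WM

variable {N : Type u} [WM N] {α : Type v} [WTy N α]

theorem exists_bij [Infinite α] {e : ℕ → α} (he : IF N e) (hs : Function.Surjective e) :
    ∃ f : ℕ → α, IF N f ∧ Function.Bijective f := by
  classical
  have hex : ∀ l : List α, ∃ k, e k ∉ l := by
    intro l
    obtain ⟨a, ha⟩ := Infinite.exists_notMem_finset l.toFinset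
    obtain ⟨k, rfl⟩ := hs a
    exact ⟨k, fun h => ha (List.mem_toFinset.2 h)⟩
  have hk : IF N (fun l : List α => sInf {k | e k ∉ l}) :=
    IF.find (P := fun (l : List α) (k : ℕ) => e k ∉ l) (IP.not (IP.memList (he.comp IF.snd) IF.fst)) hex
  have hx : IF N (fun l : List α => e (sInf {k | e k ∉ l})) := he.comp hk
  have hnot : ∀ l : List α, e (sInf {k | e k ∉ l}) ∉ l := fun l => Nat.sInf_mem (hex l)
  have hL := IF.natRec (N := N) (γ := Unit) (b := fun _ => ([] : List α))
    (g := fun _ _ l => l ++ [e (sInf {k | e k ∉ l})]) (IF.const _)
    (IF.append (IF.snd' IF.snd) (IF.cons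
      (IF.comp (g := fun l : List α => e (sInf {k | e k ∉ l})) hx (IF.snd' IF.snd)) (IF.const _)))
  obtain ⟨L, hL1, hL0, hLs⟩ : ∃ L : ℕ → List α, IF N L ∧ L 0 = [] ∧
      ∀ n, L (n + 1) = L n ++ [e (sInf {k | e k ∉ L n})] :=
    ⟨fun n => Nat.rec [] (fun _ l => l ++ [e (sInf {k | e k ∉ l})]) n,
      IF.comp (f := fun n : ℕ => ((), n)) hL (IF.pair (IF.const _) IF.id), rfl, fun n => rfl⟩
  have hmono : ∀ {m n}, m ≤ n → ∀ a ∈ L m, a ∈ L n := by
    intro m n h
    induction n, h using Nat.le_induction with
    | base => exact fun a h => h
    | succ n _ ih =>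
      intro a ha
      rw [hLs]
      exact List.mem_append_left _ (ih a ha)
  refine ⟨fun n => e (sInf {k | e k ∉ L n}),
    IF.comp (g := fun l : List α => e (sInf {k | e k ∉ l})) hx hL1, ?_, ?_⟩
  · have key : ∀ m n, m < n → e (sInf {k | e k ∉ L m}) ≠ e (sInf {k | e k ∉ L n}) := by
      intro m n h h'
      apply hnot (L n)
      rw [← h']
      refine hmono (Nat.succ_le_of_lt h) _ ?_
      rw [hLs]
      exact List.mem_append_right _ (List.mem_singleton.2 rfl)
    intro m n h
    rcases lt_trichotomy m n with h1 | h1 | h1
    · exact absurd h (key m n h1)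
    · exact h1
    · exact absurd h.symm (key n m h1)
  · have key : ∀ k, e k ∈ L (k + 1) := by
      intro k
      induction k using Nat.strong_induction_on with
      | _ k ih =>
        by_cases h : e k ∈ L k
        · exact hmono (Nat.le_succ k) _ h
        · have h1 : sInf {j | e j ∉ L k} = k := by
            refine le_antisymm (Nat.sInf_le h) ?_
            refine le_csInf ⟨k, h⟩ fun j hj => ?_
            by_contra hjk
            exact hj (hmono (by omega) _ (ih j (by omega)))
          rw [hLs, h1]
          exact List.mem_append_right _ (List.mem_singleton.2 rfl)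
    have key2 : ∀ n a, a ∈ L n → ∃ m, e (sInf {k | e k ∉ L m}) = a := by
      intro n
      induction n with
      | zero =>
        intro a ha
        rw [hL0] at ha
        exact absurd ha List.not_mem_nil
      | succ n ih =>
        intro a ha
        rw [hLs, List.mem_append, List.mem_singleton] at ha
        rcases ha with ha | rfl
        · exact ih a ha
        · exact ⟨n, rfl⟩
    intro a
    obtain ⟨k, rfl⟩ := hs a
    exact key2 _ _ (key k)

end WCal
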