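import Pool.Agent.STP.FLang

/-! # Well-founded models of ZFC: basic sets

(problem MP_ba5606_gt, ARH Part II, block 0 = calculus for models; architect helper69)

`WM N`: `(N, E)` is a well-founded model of `ZFC`. For sets which are unique by extensionality we take the
function given by choice: ordered pair `op x y`, power set `pw x`, product `pr x y`, union `un x`, `sg x = {x}`, the
natural numbers `nt n`, the set `om` of natural numbers.

PROOFS. `ext_iff'`: axiom `ext`. The axioms `separation φ v x`, `pair`, `union`, `power`, `infinity` are fields of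
`WM.zfc : ZFC E`. `STP/FLang.lean` contains formulas `fSub`, `fUP`, `fOP`, `fVal`, `fFun`, ... with `sat_fSub`, ...
* `exists_op`: three times `pair` (`IsOP E p x y` is `∀ z, E z p ↔ IsUP E z x x ∨ IsUP E z x y`, and a set `z` with
  `IsUP E z x y` is unique by extensionality). `op_inj`: the usual argument for Kuratowski pairs. `E_op1`, `E_op2`: a set
  `z` with `E z (op x y)` and `E x z`, respectively `E y z` (needed for well-foundedness: `x` is below `op x y` in the
  transitive closure).
* `exists_emp`: some set `x` exists (`infinity`), separation with the formula `Fml.bot`. `exists_sc`: pair and union.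
* `exists_pr`: `a, b` with `E a x`, `E b y`: `op a b` is a subset of the power set of `x ∪ y` (pair + union), so an
  element of the power set of the power set of `x ∪ y`; separation from this set with the formula
  `∃ a b, a ∈ x ∧ b ∈ y ∧ IsOP z a b` (parameters `x`, `y` through `v := cns x (cns y (fun _ => x))`).
* `exists_om`: `infinity` gives a set `I` with: some `y` with `E y I` has no elements; for `E y I` there is `z` with `E z I`,
  `E w z ↔ E w y ∨ w = y`. So `E (nt n) I` for all `n` (induction, extensionality). Let `Nl z` be: `z` is transitive and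
  for `x = z` and for all `x ∈ z`: `x` has no elements or is the successor of some `y` with `E y x` (a formula). `Nl (nt n)`
  holds, and `Nl z` implies `z = nt n` for some `n`, by induction on `z` (`WM.wf.induction`): if `z` has no elements then
  `z = nt 0`; otherwise `z` is the successor of some `y` with `E y z`, `Nl y` holds (`y` is transitive: elements of elements
  of `y`; use that `z` is transitive and foundation), so `y = nt m`, `z = nt (m + 1)`. Separation from `I` by `Nl`.
* `nt_inj`, `E_nt`: `E x (nt n) ↔ ∃ m < n, x = nt m` by induction; `nt n ≠ nt m` for `m < n` since `E (nt m) (nt n)` and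
  `E` is irreflexive. -/

universe u

namespace WCal

open STP

/-- a well-founded model of ZFC -/
class WM (N : Type u) where
  /-- the membership relation -/
  E : N → N → Prop
  zfc : ZFC E
  wf : WellFounded E

open WM

variable {N : Type u} [WM N]

theorem ext_iff' {x y : N} : x = y ↔ ∀ z, E z x ↔ E z y :=
  ⟨fun h z => by rw [h], fun h => (zfc (N := N)).ext x y h⟩

theorem E_irrefl (x : N) : ¬ E x x := by
  intro h
  refine (wf (N := N)).induction (C := fun y => y ≠ x) x ?_ rfl
  rintro y hy rfl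
  exact hy y h rfl

theorem E_asymm {x y : N} (h : E x y) : ¬ E y x := by
  intro h'
  refine (wf (N := N)).induction (C := fun z => z ≠ x ∧ z ≠ y) x ?_ |>.1 rfl
  intro z hz
  refine ⟨?_, ?_⟩
  · rintro rfl
    exact (hz y h').2 rfl
  · rintro rfl
    exact (hz x h).1 rfl

variable (N) in
theorem exists_emp : ∃ e : N, ∀ z, ¬ E z e := by
  obtain ⟨x, ⟨y, _, hy⟩, _⟩ := (zfc (N := N)).infinity
  exact ⟨y, hy⟩

theorem exists_up (x y : N) : ∃ p : N, ∀ z, E z p ↔ z = x ∨ z = y :=
  (zfc (N := N)).pair x y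

theorem exists_op (x y : N) : ∃ p : N, IsOP E p x y := by
  obtain ⟨a, ha⟩ := exists_up x x
  obtain ⟨b, hb⟩ := exists_up x y
  obtain ⟨p, hp⟩ := exists_up a b
  refine ⟨p, fun z => ?_⟩
  rw [hp, ext_iff', ext_iff']
  simp only [ha, hb]
  exact Iff.rfl

theorem exists_un (x : N) : ∃ y : N, ∀ z, E z y ↔ ∃ w, E w x ∧ E z w :=
  (zfc (N := N)).union x

theorem exists_pw (x : N) : ∃ y : N, ∀ z, E z y ↔ ∀ w, E w z → E w x :=
  (zfc (N := N)).power x

/-- the empty set -/
noncomputable def emp : N := (exists_emp N).choose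
/-- the unordered pair -/
noncomputable def up (x y : N) : N := (exists_up x y).choose
/-- the ordered pair -/
noncomputable def op (x y : N) : N := (exists_op x y).choose
/-- the union -/
noncomputable def un (x : N) : N := (exists_un x).choose
/-- the power set -/
noncomputable def pw (x : N) : N := (exists_pw x).choose
/-- `x ∪ y` -/
noncomputable def cup (x y : N) : N := un (up x y)
/-- the successor `x ∪ {x}` -/
noncomputable def sc (x : N) : N := cup x (up x x)

@[simp] theorem E_emp (z : N) : ¬ E z emp :=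
  (exists_emp N).choose_spec z

@[simp] theorem E_up {x y z : N} : E z (up x y) ↔ z = x ∨ z = y :=
  (exists_up x y).choose_spec z

@[simp] theorem E_un {x z : N} : E z (un x) ↔ ∃ w, E w x ∧ E z w :=
  (exists_un x).choose_spec z

@[simp] theorem E_pw {x z : N} : E z (pw x) ↔ ∀ w, E w z → E w x :=
  (exists_pw x).choose_spec z

@[simp] theorem E_cup {x y z : N} : E z (cup x y) ↔ E z x ∨ E z y := by
  rw [cup, E_un]
  constructor
  · rintro ⟨w, hw, hz⟩
    rcases E_up.1 hw with rfl | rfl
    · exact Or.inl hz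
    · exact Or.inr hz
  · rintro (h | h)
    · exact ⟨x, E_up.2 (Or.inl rfl), h⟩
    · exact ⟨y, E_up.2 (Or.inr rfl), h⟩

@[simp] theorem E_sc {x z : N} : E z (sc x) ↔ E z x ∨ z = x := by
  rw [sc, E_cup, E_up, or_self]

theorem isOP_op (x y : N) : IsOP E (op x y) x y :=
  (exists_op x y).choose_spec

theorem isOP_iff {p x y : N} : IsOP E p x y ↔ p = op x y := by
  constructor
  · intro h
    exact ext_iff'.2 fun z => (h z).trans (isOP_op x y z).symm
  · rintro rfl
    exact isOP_op x y

private theorem isUP_iff {z x y : N} : IsUP E z x y ↔ z = up x y := by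
  rw [ext_iff']
  simp only [E_up]
  exact Iff.rfl

private theorem E_op_iff {x y z : N} : E z (op x y) ↔ z = up x x ∨ z = up x y := by
  rw [isOP_op x y z, isUP_iff, isUP_iff]

private theorem up_inj {a b c d : N} (h : up a b = up c d) : (a = c ∧ b = d) ∨ (a = d ∧ b = c) := by
  have h1 := ext_iff'.1 h
  simp only [E_up] at h1
  have ha := (h1 a).1 (Or.inl rfl)
  have hb := (h1 b).1 (Or.inr rfl)
  have hc := (h1 c).2 (Or.inl rfl)
  have hd := (h1 d).2 (Or.inr rfl)
  rcases ha with ha | ha
  · subst ha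
    rcases hb with hb | hb
    · subst hb
      rcases hd with hd | hd
      · exact Or.inl ⟨rfl, hd.symm⟩
      · exact Or.inl ⟨rfl, hd.symm⟩
    · exact Or.inl ⟨rfl, hb⟩
  · subst ha
    rcases hb with hb | hb
    · exact Or.inr ⟨rfl, hb⟩
    · subst hb
      rcases hc with hc | hc
      · exact Or.inr ⟨rfl, hc.symm⟩
      · exact Or.inr ⟨rfl, hc.symm⟩

theorem op_inj {x y x' y' : N} : op x y = op x' y' ↔ x = x' ∧ y = y' := by
  constructor
  · intro h
    have h1 := ext_iff'.1 h
    simp only [E_op_iff] at h1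
    have hx : x = x' := by
      rcases (h1 (up x x)).1 (Or.inl rfl) with h2 | h2
      · rcases up_inj h2 with h3 | h3
        · exact h3.1
        · exact h3.1
      · rcases up_inj h2 with h3 | h3
        · exact h3.1
        · exact h3.2
    subst hx
    refine ⟨rfl, ?_⟩
    rcases (h1 (up x y)).1 (Or.inr rfl) with h2 | h2
    · have hy : y = x := by
        rcases up_inj h2 with h3 | h3
        · exact h3.2
        · exact h3.2
      subst hy
      rcases (h1 (up y y')).2 (Or.inr rfl) with h4 | h4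
      · rcases up_inj h4 with h3 | h3
        · exact h3.2.symm
        · exact h3.2.symm
      · rcases up_inj h4 with h3 | h3
        · exact h3.2.symm
        · exact h3.2.symm
    · rcases up_inj h2 with h3 | h3
      · exact h3.2
      · rw [h3.2, ← h3.1]
  · rintro ⟨rfl, rfl⟩
    rfl

/-- `x` and `y` are below `op x y` -/
theorem E_op (x y : N) : (∃ z, E z (op x y) ∧ E x z) ∧ ∃ z, E z (op x y) ∧ E y z :=
  ⟨⟨up x y, E_op_iff.2 (Or.inr rfl), E_up.2 (Or.inl rfl)⟩,
    ⟨up x y, E_op_iff.2 (Or.inr rfl), E_up.2 (Or.inr rfl)⟩⟩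

theorem exists_pr (x y : N) : ∃ p : N, ∀ z, E z p ↔ ∃ a b, E a x ∧ E b y ∧ z = op a b := by
  obtain ⟨p, hp⟩ := (zfc (N := N)).separation
    (.ex (.ex (.an (.mem 1 3) (.an (.mem 0 4) (fOP 2 1 0))))) (cns x (cns y (fun _ => x)))
    (pw (pw (cup x y)))
  refine ⟨p, fun z => ?_⟩
  rw [hp]
  have h1 : sat E (.ex (.ex (.an (.mem 1 3) (.an (.mem 0 4) (fOP 2 1 0)))))
      (cns z (cns x (cns y (fun _ => x)))) ↔ ∃ a b, E a x ∧ E b y ∧ z = op a b := by
    simp [isOP_iff]
  rw [h1]
  constructor
  · exact fun h => h.2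
  · intro h
    refine ⟨?_, h⟩
    obtain ⟨a, b, ha, hb, rfl⟩ := h
    rw [E_pw]
    intro w hw
    rw [E_pw]
    intro u hu
    rw [E_cup]
    rcases E_op_iff.1 hw with rfl | rfl
    · rcases E_up.1 hu with rfl | rfl
      · exact Or.inl ha
      · exact Or.inl ha
    · rcases E_up.1 hu with rfl | rfl
      · exact Or.inl ha
      · exact Or.inr hb

/-- the cartesian product -/
noncomputable def pr (x y : N) : N := (exists_pr x y).choose

@[simp] theorem E_pr {x y z : N} : E z (pr x y) ↔ ∃ a b, E a x ∧ E b y ∧ z = op a b :=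
  (exists_pr x y).choose_spec z

theorem E_pr_op {x y a b : N} : E (op a b) (pr x y) ↔ E a x ∧ E b y := by
  rw [E_pr]
  constructor
  · rintro ⟨a', b', ha, hb, h⟩
    obtain ⟨rfl, rfl⟩ := op_inj.1 h
    exact ⟨ha, hb⟩
  · rintro ⟨ha, hb⟩
    exact ⟨a, b, ha, hb, rfl⟩

variable (N) in
/-- the natural numbers -/
noncomputable def nt : ℕ → N
  | 0 => emp
  | n + 1 => sc (nt n)

theorem E_nt {n : ℕ} {x : N} : E x (nt N n) ↔ ∃ m < n, x = nt N m := by
  induction n with
  | zero =>
    constructor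
    · intro h
      exact absurd h (E_emp x)
    · rintro ⟨m, hm, _⟩
      exact absurd hm (Nat.not_lt_zero m)
  | succ n ih =>
    rw [nt, E_sc, ih]
    constructor
    · rintro (⟨m, hm, rfl⟩ | rfl)
      · exact ⟨m, by omega, rfl⟩
      · exact ⟨n, by omega, rfl⟩
    · rintro ⟨m, hm, rfl⟩
      rcases Nat.lt_succ_iff_lt_or_eq.1 hm with h | rfl
      · exact Or.inl ⟨m, h, rfl⟩
      · exact Or.inr rfl

theorem nt_inj : Function.Injective (nt N) := by
  intro n m h
  rcases lt_trichotomy n m with h1 | h1 | h1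
  · have h2 : E (nt N n) (nt N m) := E_nt.2 ⟨n, h1, rfl⟩
    rw [h] at h2
    exact absurd h2 (E_irrefl _)
  · exact h1
  · have h2 : E (nt N m) (nt N n) := E_nt.2 ⟨m, h1, rfl⟩
    rw [h] at h2
    exact absurd h2 (E_irrefl _)

private def Nl (z : N) : Prop :=
  IsOrd E z ∧ ∀ x, (x = z ∨ E x z) → (∃ w, E w x) → ∃ y, IsSc E x y

private theorem nt_ord (n : ℕ) : IsOrd E (nt N n) := by
  have key : ∀ m : ℕ, IsTr E (nt N m) := by
    intro m y hy z hz
    obtain ⟨k, hk, rfl⟩ := E_nt.1 hy
    obtain ⟨l, hl, rfl⟩ := E_nt.1 hz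
    exact E_nt.2 ⟨l, by omega, rfl⟩
  refine ⟨key n, fun y hy => ?_⟩
  obtain ⟨k, hk, rfl⟩ := E_nt.1 hy
  exact key k

private theorem nt_sc {n : ℕ} (h : ∃ w, E w (nt N n)) : ∃ y, IsSc E (nt N n) y := by
  cases n with
  | zero =>
    obtain ⟨w, hw⟩ := h
    exact absurd hw (E_emp w)
  | succ n => exact ⟨nt N n, fun z => E_sc⟩

private theorem Nl_nt (n : ℕ) : Nl (nt N n) := by
  refine ⟨nt_ord n, ?_⟩
  rintro x (rfl | hx)
  · exact nt_sc
  · obtain ⟨m, _, rfl⟩ := E_nt.1 hx
    exact nt_sc

private theorem sc_unique {z y : N} (h : IsSc E z y) : z = sc y :=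
  ext_iff'.2 fun w => (h w).trans E_sc.symm

private theorem exists_nt_of_Nl (z : N) : Nl z → ∃ n, z = nt N n := by
  refine (wf (N := N)).induction (C := fun z => Nl z → ∃ n, z = nt N n) z ?_
  intro z ih hz
  by_cases h0 : ∃ w, E w z
  · obtain ⟨y, hy⟩ := hz.2 z (Or.inl rfl) h0
    have hyz : E y z := (hy y).2 (Or.inr rfl)
    have hNy : Nl y := by
      refine ⟨⟨hz.1.2 y hyz, fun w hw => hz.1.2 w (hz.1.1 y hyz w hw)⟩, ?_⟩
      rintro x (rfl | hx)
      · exact hz.2 x (Or.inr hyz)
      · exact hz.2 x (Or.inr (hz.1.1 y hyz x hx))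
    obtain ⟨n, hn⟩ := ih y hyz hNy
    refine ⟨n + 1, ?_⟩
    rw [nt, ← hn]
    exact sc_unique hy
  · refine ⟨0, ext_iff'.2 fun w => ?_⟩
    constructor
    · intro hw
      exact absurd ⟨w, hw⟩ h0
    · intro hw
      exact absurd hw (E_emp w)

variable (N) in
theorem exists_om : ∃ w : N, ∀ z, E z w ↔ ∃ n, z = nt N n := by
  obtain ⟨I, ⟨y, hyI, hy⟩, hI⟩ := (zfc (N := N)).infinity
  have hall : ∀ n, E (nt N n) I := by
    intro n
    induction n with
    | zero =>
      have h1 : nt N 0 = y := ext_iff'.2 fun z =>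
        ⟨fun h => absurd h (E_emp z), fun h => absurd h (hy z)⟩
      rw [h1]
      exact hyI
    | succ n ih =>
      obtain ⟨z, hz, hz'⟩ := hI _ ih
      have h1 : z = sc (nt N n) := sc_unique hz'
      rw [nt, ← h1]
      exact hz
  obtain ⟨w, hw⟩ := (zfc (N := N)).separation
    (.an (fOrd 0) (.all (.imp (.or (.eq 0 1) (.mem 0 1)) (.imp (.ex (.mem 0 1))
      (.ex (fSc 1 0)))))) (fun _ => I) I
  refine ⟨w, fun z => ?_⟩
  rw [hw]
  have h1 : sat E (.an (fOrd 0) (.all (.imp (.or (.eq 0 1) (.mem 0 1)) (.imp (.ex (.mem 0 1))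
      (.ex (fSc 1 0)))))) (cns z (fun _ => I)) ↔ Nl z := by
    simp only [sat_an, sat_fOrd, sat_all, sat_imp, sat_or, sat_eq, sat_mem, sat_ex, sat_fSc,
      cns_zero, cns_one]
    exact Iff.rfl
  rw [h1]
  constructor
  · exact fun h => exists_nt_of_Nl z h.2
  · rintro ⟨n, rfl⟩
    exact ⟨hall n, Nl_nt n⟩

variable (N) in
/-- the set of natural numbers -/
noncomputable def om : N := (exists_om N).choose

@[simp] theorem E_om {z : N} : E z (om N) ↔ ∃ n, z = nt N n :=
  (exists_om N).choose_spec z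

theorem isOm_iff {w : N} : IsOm E w ↔ w = om N := by
  constructor
  · rintro ⟨hO, hne, hs, hp⟩
    have h1 : ∀ z, E z w → ∃ n, z = nt N n := by
      intro z hz
      refine exists_nt_of_Nl z ⟨⟨hO.2 z hz, fun y hy => hO.2 y (hO.1 z hz y hy)⟩, ?_⟩
      rintro x (rfl | hx)
      · exact hp x hz
      · exact hp x (hO.1 z hz x hx)
    have h2 : ∀ n, E (nt N n) w := by
      intro n
      induction n with
      | zero =>
        obtain ⟨z, hz⟩ := hne
        obtain ⟨m, rfl⟩ := h1 z hz
        cases m with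
        | zero => exact hz
        | succ m => exact hO.1 _ hz _ (E_nt.2 ⟨0, by omega, rfl⟩)
      | succ n ih =>
        obtain ⟨s, hs1, hs2⟩ := hs _ ih
        have h3 : s = sc (nt N n) := sc_unique hs2
        rw [nt, ← h3]
        exact hs1
    refine ext_iff'.2 fun z => ?_
    rw [E_om]
    constructor
    · exact h1 z
    · rintro ⟨n, rfl⟩
      exact h2 n
  · rintro rfl
    refine ⟨⟨?_, ?_⟩, ⟨nt N 0, E_om.2 ⟨0, rfl⟩⟩, ?_, ?_⟩
    · intro y hy z hz
      obtain ⟨n, rfl⟩ := E_om.1 hy
      obtain ⟨m, _, rfl⟩ := E_nt.1 hz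
      exact E_om.2 ⟨m, rfl⟩
    · intro y hy
      obtain ⟨n, rfl⟩ := E_om.1 hy
      exact (nt_ord n).1
    · intro x hx
      obtain ⟨n, rfl⟩ := E_om.1 hx
      exact ⟨nt N (n + 1), E_om.2 ⟨n + 1, rfl⟩, fun z => E_sc⟩
    · intro x hx h
      obtain ⟨n, rfl⟩ := E_om.1 hx
      exact nt_sc h

/-- separation -/
theorem sepF (φ : Fml) (v : ℕ → N) (x : N) (P : N → Prop) (h : ∀ z, E z x → (sat E φ (cns z v) ↔ P z)) :
    ∃ y : N, ∀ z, E z y ↔ E z x ∧ P z := by
  obtain ⟨y, hy⟩ := (zfc (N := N)).separation φ v x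
  refine ⟨y, fun z => ?_⟩
  rw [hy]
  constructor
  · rintro ⟨h1, h2⟩
    exact ⟨h1, (h z h1).1 h2⟩
  · rintro ⟨h1, h2⟩
    exact ⟨h1, (h z h1).2 h2⟩

/-- replacement -/
theorem repF (φ : Fml) (v : ℕ → N) (x : N) (F : N → N)
    (h : ∀ z, E z x → ∀ w, (sat E φ (cns w (cns z v)) ↔ w = F z)) :
    ∃ y : N, ∀ w, E w y ↔ ∃ z, E z x ∧ w = F z := by
  obtain ⟨y, hy⟩ := (zfc (N := N)).replacement φ v x (by
    intro z hz
    exact ⟨F z, (h z hz (F z)).2 rfl, fun w hw => (h z hz w).1 hw⟩)
  refine ⟨y, fun w => ?_⟩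
  rw [hy]
  constructor
  · rintro ⟨z, h1, h2⟩
    exact ⟨z, h1, (h z h1 w).1 h2⟩
  · rintro ⟨z, h1, h2⟩
    exact ⟨z, h1, (h z h1 w).2 h2⟩

end WCal
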