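import Pool.Agent.WCal.Defs

/-! # Closure lemmas for internal predicates

(problem MP_ba5606_gt, ARH Part II, block 0; architect helper69)

PROOFS. `IP.of_sat`: `WM.zfc.separation φ v (rg N α)`. All others are instances of it (formulas of
`STP/FLang.lean`: `fOP p i j`: `x_p = (x_i, x_j)`, with `sat_fOP`, and `isOP_iff`), see the
docstring of `Defs.lean`:
* `IP.const`: `by_cases`. `IP.not`, `IP.and`, `IP.or`, `IP.imp`, `IP.iff`: connectives, parameters =
  the given sets (`v := cns s (cns t (fun _ => s))`).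
* `IP.ex`: `∃ y p, y ∈ rg β ∧ IsOP p x y ∧ p ∈ s`. `IP.all`: from `ex` and `not`.
* `IP.comp`: `∃ y p, y ∈ rg β ∧ IsOP p x y ∧ p ∈ g ∧ y ∈ s` (`g` a set for the graph of `f`).
* `IP.sw`: swap `α × β`: `∃ a b q, a ∈ rg α, b ∈ rg β, IsOP p b a, IsOP q a b, q ∈ s`. `IP.sec`: `{b
| P (a, b)}`: `∃ p, IsOP p a b ∧ p ∈ s`.
* `IP.comp2`: `∃ y z q p1 p2, ...` (or from `comp` and the pair function of `CloF.lean`; prove it
directly here).
* `IP.eq`: `comp2` for the equality predicate, or directly. -/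

universe u v w x

namespace WCal

open STP WM

variable {N : Type u} [WM N] {α : Type v} {β : Type w} {γ : Type x} [WTy N α] [WTy N β] [WTy N γ]

theorem IP.of_sat {P : α → Prop} (φ : Fml) (v : ℕ → N) (h : ∀ a, P a ↔ sat E φ (cns (cd N a) v)) :
    IP N P := by
  obtain ⟨y, hy⟩ := (WM.zfc (N := N)).separation φ v (rg N α)
  refine ⟨y, fun a => ?_⟩
  rw [hy, h a]
  exact ⟨fun h1 => ⟨cd_mem a, h1⟩, fun h1 => h1.2⟩

theorem IP.congr {P Q : α → Prop} (h : ∀ a, P a ↔ Q a) (hP : IP N P) : IP N Q := by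
  obtain ⟨s, hs⟩ := hP
  exact ⟨s, fun a => (h a).symm.trans (hs a)⟩

theorem IP.const (p : Prop) : IP N (fun _ : α => p) := by
  by_cases h : p
  · exact IP.of_sat (Fml.no .bot) (fun _ => rg N α) fun a => by simp [h]
  · exact IP.of_sat .bot (fun _ => rg N α) fun a => by simp [h]

theorem IP.not {P : α → Prop} (h : IP N P) : IP N (fun a => ¬ P a) := by
  obtain ⟨s, hs⟩ := h
  exact IP.of_sat (Fml.no (.mem 0 1)) (fun _ => s) fun a => by simp [hs]

theorem IP.and {P Q : α → Prop} (h : IP N P) (h' : IP N Q) : IP N (fun a => P a ∧ Q a) := by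
  obtain ⟨s, hs⟩ := h
  obtain ⟨t, ht⟩ := h'
  exact IP.of_sat (Fml.an (.mem 0 1) (.mem 0 2)) (cns s fun _ => t) fun a => by simp [hs, ht]

theorem IP.or {P Q : α → Prop} (h : IP N P) (h' : IP N Q) : IP N (fun a => P a ∨ Q a) := by
  obtain ⟨s, hs⟩ := h
  obtain ⟨t, ht⟩ := h'
  exact IP.of_sat (Fml.or (.mem 0 1) (.mem 0 2)) (cns s fun _ => t) fun a => by simp [hs, ht]

theorem IP.imp {P Q : α → Prop} (h : IP N P) (h' : IP N Q) : IP N (fun a => P a → Q a) := by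
  obtain ⟨s, hs⟩ := h
  obtain ⟨t, ht⟩ := h'
  exact IP.of_sat (Fml.imp (.mem 0 1) (.mem 0 2)) (cns s fun _ => t) fun a => by simp [hs, ht]

theorem IP.iff {P Q : α → Prop} (h : IP N P) (h' : IP N Q) : IP N (fun a => P a ↔ Q a) := by
  obtain ⟨s, hs⟩ := h
  obtain ⟨t, ht⟩ := h'
  exact IP.of_sat (Fml.iff (.mem 0 1) (.mem 0 2)) (cns s fun _ => t) fun a => by simp [hs, ht]

theorem IP.ex {P : α → β → Prop} (h : IP N (fun p : α × β => P p.1 p.2)) :
    IP N (fun a => ∃ b, P a b) := by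
  obtain ⟨s, hs⟩ := h
  refine IP.of_sat (Fml.ex (Fml.ex (Fml.an (.mem 1 3) (Fml.an (fOP 0 2 1) (.mem 0 4)))))
    (cns (rg N β) fun _ => s) fun a => ?_
  simp only [sat_ex, sat_an, sat_mem, sat_fOP]
  change _ ↔ ∃ y p, E y (rg N β) ∧ IsOP E p (cd N a) y ∧ E p s
  constructor
  · rintro ⟨b, hb⟩
    exact ⟨cd N b, op (cd N a) (cd N b), cd_mem b, isOP_op _ _, (hs (a, b)).1 hb⟩
  · rintro ⟨y, p, hy, hp, hps⟩
    obtain ⟨b, rfl⟩ := E_rg.1 hy
    rw [isOP_iff] at hp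
    subst hp
    exact ⟨b, (hs (a, b)).2 hps⟩

theorem IP.all {P : α → β → Prop} (h : IP N (fun p : α × β => P p.1 p.2)) :
    IP N (fun a => ∀ b, P a b) := by
  have h1 : IP N (fun p : α × β => ¬ P p.1 p.2) := h.not
  have h2 : IP N (fun a => ∃ b, ¬ P a b) := IP.ex (P := fun a b => ¬ P a b) h1
  exact h2.not.congr fun a => by push Not; rfl

theorem IP.comp {P : β → Prop} {f : α → β} (hP : IP N P) (hf : IF N f) :
    IP N (fun a => P (f a)) := by
  obtain ⟨s, hs⟩ := hP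
  obtain ⟨g, hg⟩ := hf
  refine IP.of_sat (Fml.ex (Fml.ex (Fml.an (.mem 1 3) (Fml.an (fOP 0 2 1)
    (Fml.an (.mem 0 4) (.mem 1 5)))))) (cns (rg N β) (cns g fun _ => s)) fun a => ?_
  simp only [sat_ex, sat_an, sat_mem, sat_fOP]
  change _ ↔ ∃ y p, E y (rg N β) ∧ IsOP E p (cd N a) y ∧ E p g ∧ E y s
  constructor
  · intro h
    exact ⟨cd N (f a), op (cd N a) (cd N (f a)), cd_mem _, isOP_op _ _, (hg (a, f a)).1 rfl,
      (hs _).1 h⟩
  · rintro ⟨y, p, hy, hp, hpg, hys⟩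
    obtain ⟨b, rfl⟩ := E_rg.1 hy
    rw [isOP_iff] at hp
    subst hp
    have h1 : f a = b := (hg (a, b)).2 hpg
    rw [h1]
    exact (hs b).2 hys

theorem IP.comp2 {P : β → γ → Prop} {f : α → β} {g : α → γ} (hP : IP N (fun p : β × γ => P p.1 p.2))
    (hf : IF N f) (hg : IF N g) : IP N (fun a => P (f a) (g a)) := by
  obtain ⟨s, hs⟩ := hP
  obtain ⟨F, hF⟩ := hf
  obtain ⟨G, hG⟩ := hg
  refine IP.of_sat (Fml.ex (Fml.ex (Fml.ex (Fml.ex (Fml.ex (Fml.an (.mem 4 6) (Fml.an (.mem 3 7)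
    (Fml.an (fOP 1 5 4) (Fml.an (.mem 1 8) (Fml.an (fOP 0 5 3) (Fml.an (.mem 0 9)
    (Fml.an (fOP 2 4 3) (.mem 2 10)))))))))))))
    (cns (rg N β) (cns (rg N γ) (cns F (cns G fun _ => s)))) fun a => ?_
  simp only [sat_ex, sat_an, sat_mem, sat_fOP]
  change _ ↔ ∃ y z q p1 p2, E y (rg N β) ∧ E z (rg N γ) ∧ IsOP E p1 (cd N a) y ∧ E p1 F ∧
    IsOP E p2 (cd N a) z ∧ E p2 G ∧ IsOP E q y z ∧ E q s
  constructor
  · intro h
    exact ⟨cd N (f a), cd N (g a), op (cd N (f a)) (cd N (g a)), op (cd N a) (cd N (f a)),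
      op (cd N a) (cd N (g a)), cd_mem _, cd_mem _, isOP_op _ _, (hF (a, f a)).1 rfl,
      isOP_op _ _, (hG (a, g a)).1 rfl, isOP_op _ _, (hs (f a, g a)).1 h⟩
  · rintro ⟨y, z, q, p1, p2, hy, hz, h1, h2, h3, h4, h5, h6⟩
    obtain ⟨b, rfl⟩ := E_rg.1 hy
    obtain ⟨c, rfl⟩ := E_rg.1 hz
    rw [isOP_iff] at h1 h3 h5
    subst h1 h3 h5
    have e1 : f a = b := (hF (a, b)).2 h2
    have e2 : g a = c := (hG (a, c)).2 h4
    rw [e1, e2]
    exact (hs (b, c)).2 h6

theorem IP.sw {P : α × β → Prop} (h : IP N P) : IP N (fun p : β × α => P (p.2, p.1)) := by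
  obtain ⟨s, hs⟩ := h
  refine IP.of_sat (Fml.ex (Fml.ex (Fml.ex (Fml.an (fOP 3 1 2) (Fml.an (fOP 0 2 1)
    (.mem 0 4)))))) (fun _ => s) fun p => ?_
  simp only [sat_ex, sat_an, sat_mem, sat_fOP]
  change _ ↔ ∃ a b q, IsOP E (cd N p) b a ∧ IsOP E q a b ∧ E q s
  constructor
  · intro h
    exact ⟨cd N p.2, cd N p.1, op (cd N p.2) (cd N p.1), isOP_op _ _, isOP_op _ _,
      (hs (p.2, p.1)).1 h⟩
  · rintro ⟨a, b, q, h1, h2, h3⟩
    rw [isOP_iff] at h1 h2
    subst h2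
    have h4 : op (cd N p.1) (cd N p.2) = op b a := h1
    obtain ⟨rfl, rfl⟩ := op_inj.1 h4
    exact (hs (p.2, p.1)).2 h3

theorem IP.sec {P : α × β → Prop} (h : IP N P) (a : α) : IP N (fun b : β => P (a, b)) := by
  obtain ⟨s, hs⟩ := h
  refine IP.of_sat (Fml.ex (Fml.an (fOP 0 2 1) (.mem 0 3))) (cns (cd N a) fun _ => s)
    fun b => ?_
  simp only [sat_ex, sat_an, sat_mem, sat_fOP]
  change _ ↔ ∃ p, IsOP E p (cd N a) (cd N b) ∧ E p s
  constructor
  · intro h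
    exact ⟨_, isOP_op _ _, (hs (a, b)).1 h⟩
  · rintro ⟨p, h1, h2⟩
    rw [isOP_iff] at h1
    subst h1
    exact (hs (a, b)).2 h2

theorem IP.sec' {P : α × β → Prop} (h : IP N P) (b : β) : IP N (fun a : α => P (a, b)) :=
  h.sw.sec b

theorem IP.eq {f g : α → β} (hf : IF N f) (hg : IF N g) : IP N (fun a => f a = g a) := by
  have h : IP N (fun p : β × β => p.1 = p.2) := by
    refine IP.of_sat (Fml.ex (fOP 1 0 0)) (fun _ => rg N β) fun p => ?_
    simp only [sat_ex, sat_fOP]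
    change _ ↔ ∃ b, IsOP E (cd N p) b b
    constructor
    · intro h
      refine ⟨cd N p.1, isOP_iff.2 ?_⟩
      change op (cd N p.1) (cd N p.2) = _
      rw [h]
    · rintro ⟨b, h1⟩
      rw [isOP_iff] at h1
      have h4 : op (cd N p.1) (cd N p.2) = op b b := h1
      obtain ⟨h5, h6⟩ := op_inj.1 h4
      exact cd_inj.1 (h5.trans h6.symm)
  exact IP.comp2 (P := fun a b => a = b) h hf hg

/-- finite conjunctions -/
theorem IP.list_all {ι : Type*} {P : ι → α → Prop} (l : List ι) (h : ∀ i ∈ l, IP N (P i)) :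
    IP N (fun a => ∀ i ∈ l, P i a) := by
  induction l with
  | nil => exact (IP.const True).congr fun a => by simp
  | cons i l ih =>
    have h1 := (h i (by simp)).and (ih fun j hj => h j (by simp [hj]))
    exact h1.congr fun a => by simp

/-- every native finite set is internal -/
theorem IP.finite {P : α → Prop} (h : {a | P a}.Finite) : IP N P := by
  have key : ∀ s : Set α, s.Finite → IP N (fun a => a ∈ s) := by
    intro s hs
    induction s, hs using Set.Finite.induction_on with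
    | empty => exact (IP.const False).congr fun a => by simp
    | @insert b s _ _ ih =>
      have h1 : IP N (fun a : α => a = b) := by
        refine IP.of_sat (.eq 0 1) (fun _ => cd N b) fun a => ?_
        rw [sat_eq]
        exact cd_inj.symm
      exact (h1.or ih).congr fun a => by simp
  exact key _ h

end WCal
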