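import Pool.Agent.WCal.Clo

/-! # Closure lemmas for internal functions

(problem MP_ba5606_gt, ARH Part II, block 0; architect helper69)

PROOFS. `IF N f` is `IP N (fun p : α × β => f p.1 = p.2)`. Use `IP.of_sat` with formulas for pairs of pairs, or the lemmas of
`Clo.lean` as soon as enough projections are available. Suggested order:
* `IF.ofP`, `IP.ofIF`: rewriting. `IF.id`: `∃ x, IsOP p x x`. `IF.fst`: `∃ a b q, IsOP q a b ∧ IsOP p q a`; `IF.snd`.
* `IF.const b`: `∃ x, IsOP p x b` (parameter `cd b`).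
* `IF.comp`: the graph of `g ∘ f` is `{(a, c) | ∃ b, (a, b) ∈ F ∧ (b, c) ∈ G}`, formula `∃ a c b q r, p = (a, c), b ∈ rg β, q = (a, b),
  q ∈ F, r = (b, c), r ∈ G`.
* `IF.pair`: `∃ a b c d q r, p = (a, d), d = (b, c), q = (a, b), q ∈ F, r = (a, c), r ∈ G` with `b ∈ rg β`, `c ∈ rg γ`.
* `IF.prop`: an internal function with values in `Prop` is an internal predicate: codes of the truth values are `nt N 1`, `nt N 0`.
* `IF.app`: `Fn N β γ`: by `cd_fn` the code of `F` is the set of the pairs; so the evaluation `Fn N β γ × β → γ` has the graph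
  `{((F, b), c) | (b, c) ∈ F}`, a formula without parameters except `rg`; then compose. `IF.lam`: the graph of `a ↦ (f a : Fn N β γ)` is
  `{(a, F) | F ∈ rg (Fn N β γ), ∀ b ∈ rg β, ∀ c ∈ rg γ, (b, c) ∈ F ↔ ((a, b), c) ∈ s}`; formula with the parameters `rg _`, `s`.
* `IP.mem`: by `cd_st`, `b ∈ S` iff `E (cd b) (cd S)`. `IF.compr`: `{(a, S) | ∀ b ∈ rg β, b ∈ S ↔ (a, b) ∈ s}`.
* `IF.ite`: `(P a ∧ f a = b) ∨ (¬ P a ∧ g a = b)` with `Clo.lean`. `IF.toSb`, `IF.val`: the codes of `Sb S` are the codes of `α`.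
* `IF.inv`: swap the graph. `IF.unique`: for an internal relation with unique values. -/

universe u v w x

namespace WCal

open STP WM

variable {N : Type u} [WM N] {α : Type v} {β : Type w} {γ : Type x} [WTy N α] [WTy N β] [WTy N γ]

theorem IF.ofP {f : α → β} {Q : α → β → Prop} (hQ : IP N (fun p : α × β => Q p.1 p.2))
    (h : ∀ a b, Q a b ↔ f a = b) : IF N f :=
  IP.congr (fun p => h p.1 p.2) hQ

theorem IF.congr {f g : α → β} (h : ∀ a, f a = g a) (hf : IF N f) : IF N g := by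
  have h1 : f = g := funext h
  rwa [← h1]

theorem IF.id : IF N (fun a : α => a) := by
  refine IP.of_sat (Fml.ex (fOP 1 0 0)) (fun _ => rg N α) fun p => ?_
  simp only [sat_ex, sat_fOP, cns_zero, cns_one, isOP_iff]
  change p.1 = p.2 ↔ ∃ x, op (cd N p.1) (cd N p.2) = op x x
  constructor
  · intro h
    exact ⟨cd N p.2, by rw [h]⟩
  · rintro ⟨x, hx⟩
    obtain ⟨h1, h2⟩ := op_inj.1 hx
    exact cd_inj.1 (h1.trans h2.symm)

theorem IF.const (b : β) : IF N (fun _ : α => b) := by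
  refine IP.of_sat (Fml.ex (fOP 1 0 2)) (fun _ => cd N b) fun p => ?_
  simp only [sat_ex, sat_fOP, cns_zero, cns_one, cns_two, isOP_iff]
  change b = p.2 ↔ ∃ x, op (cd N p.1) (cd N p.2) = op x (cd N b)
  constructor
  · intro h
    exact ⟨cd N p.1, by rw [h]⟩
  · rintro ⟨x, hx⟩
    obtain ⟨h1, h2⟩ := op_inj.1 hx
    exact (cd_inj.1 h2).symm

theorem IF.fst : IF N (fun p : α × β => p.1) := by
  refine IP.of_sat (Fml.ex (Fml.ex (Fml.ex (Fml.an (fOP 0 2 1) (fOP 3 0 2)))))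
    (fun _ => rg N α) fun p => ?_
  simp only [sat_ex, sat_an, sat_fOP, cns_zero, cns_one, cns_two, cns_three, isOP_iff]
  change p.1.1 = p.2 ↔ ∃ x y z, z = op x y ∧
    op (op (cd N p.1.1) (cd N p.1.2)) (cd N p.2) = op z x
  constructor
  · intro h
    exact ⟨cd N p.1.1, cd N p.1.2, _, rfl, by rw [h]⟩
  · rintro ⟨x, y, z, rfl, hx⟩
    obtain ⟨h1, h2⟩ := op_inj.1 hx
    obtain ⟨h3, h4⟩ := op_inj.1 h1
    exact cd_inj.1 (h3.trans h2.symm)

theorem IF.snd : IF N (fun p : α × β => p.2) := by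
  refine IP.of_sat (Fml.ex (Fml.ex (Fml.ex (Fml.an (fOP 0 2 1) (fOP 3 0 1)))))
    (fun _ => rg N α) fun p => ?_
  simp only [sat_ex, sat_an, sat_fOP, cns_zero, cns_one, cns_two, cns_three, isOP_iff]
  change p.1.2 = p.2 ↔ ∃ x y z, z = op x y ∧
    op (op (cd N p.1.1) (cd N p.1.2)) (cd N p.2) = op z y
  constructor
  · intro h
    exact ⟨cd N p.1.1, cd N p.1.2, _, rfl, by rw [h]⟩
  · rintro ⟨x, y, z, rfl, hx⟩
    obtain ⟨h1, h2⟩ := op_inj.1 hx
    obtain ⟨h3, h4⟩ := op_inj.1 h1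
    exact cd_inj.1 (h4.trans h2.symm)

theorem IF.comp {g : β → γ} {f : α → β} (hg : IF N g) (hf : IF N f) : IF N (fun a => g (f a)) := by
  obtain ⟨F, hF⟩ := hf
  obtain ⟨G, hG⟩ := hg
  refine IP.of_sat (Fml.ex (Fml.ex (Fml.ex (Fml.ex (Fml.ex (Fml.an (.mem 2 8) (Fml.an (fOP 5 4 3)
    (Fml.an (fOP 1 4 2) (Fml.an (.mem 1 6) (Fml.an (fOP 0 2 3) (.mem 0 7)))))))))))
    (cns F (cns G (fun _ => rg N β))) fun p => ?_
  simp only [sat_ex, sat_an, sat_mem, sat_fOP, cns_zero, cns_one, cns_two, cns_three, cns_four,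
    cns_five, cns_six, cns_seven, cns_eight, isOP_iff]
  change g (f p.1) = p.2 ↔ ∃ a c b q r, E b (rg N β) ∧ op (cd N p.1) (cd N p.2) = op a c ∧
    q = op a b ∧ E q F ∧ r = op b c ∧ E r G
  constructor
  · intro h
    refine ⟨_, _, cd N (f p.1), _, _, cd_mem _, rfl, rfl, ?_, rfl, ?_⟩
    · exact (hF (p.1, f p.1)).1 rfl
    · exact (hG (f p.1, p.2)).1 h
  · rintro ⟨a, c, b, q, r, hb, hp, rfl, hq, rfl, hr⟩
    obtain ⟨h1, h2⟩ := op_inj.1 hp
    obtain ⟨b, rfl⟩ := E_rg.1 hb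
    subst h1 h2
    have h3 := (hF (p.1, b)).2 hq
    have h4 := (hG (b, p.2)).2 hr
    simp only at h3 h4
    rw [h3, h4]

theorem IF.pair {f : α → β} {g : α → γ} (hf : IF N f) (hg : IF N g) : IF N (fun a => (f a, g a)) := by
  have h1 : IP N (fun p : α × (β × γ) => f p.1 = p.2.1) :=
    IP.eq (IF.comp hf IF.fst) (IF.comp IF.fst IF.snd)
  have h2 : IP N (fun p : α × (β × γ) => g p.1 = p.2.2) :=
    IP.eq (IF.comp hg IF.fst) (IF.comp IF.snd IF.snd)
  refine IP.congr (fun p => ?_) (h1.and h2)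
  exact (Prod.ext_iff (x := (f p.1, g p.1)) (y := p.2)).symm

theorem IF.comp2 {δ : Type*} [WTy N δ] {h : β → γ → δ} {f : α → β} {g : α → γ}
    (hh : IF N (fun p : β × γ => h p.1 p.2)) (hf : IF N f) (hg : IF N g) :
    IF N (fun a => h (f a) (g a)) :=
  IF.comp hh (IF.pair hf hg)

theorem IF.prop {P : α → Prop} : IF N P ↔ IP N P := by
  constructor
  · intro h
    refine IP.congr (fun a => ?_) (IP.sec' h True)
    exact ⟨fun h => of_eq_true h, fun h => eq_true h⟩
  · intro h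
    have h1 : IP N (fun q : Prop => q) := IP.finite (Set.toFinite _)
    have h2 : IP N (fun p : α × Prop => P p.1 ↔ p.2) :=
      (IP.comp h IF.fst).iff (IP.comp (P := fun q : Prop => q) h1 IF.snd)
    refine IP.congr (fun p => ?_) h2
    exact ⟨fun h => propext h, fun h => iff_of_eq h⟩

private theorem clo_ev : IF N (fun p : Fn N β γ × β => p.1 p.2) := by
  refine IP.of_sat (Fml.ex (Fml.ex (Fml.ex (Fml.ex (Fml.ex (Fml.an (fOP 5 4 3) (Fml.an (fOP 4 2 1)
    (Fml.an (fOP 0 1 3) (.mem 0 2))))))))) (fun _ => rg N β) fun p => ?_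
  simp only [sat_ex, sat_an, sat_mem, sat_fOP, cns_zero, cns_one, cns_two, cns_three, cns_four,
    cns_five, isOP_iff]
  change p.1.1 p.1.2 = p.2 ↔ ∃ q c F b r, op (op (cd N p.1.1) (cd N p.1.2)) (cd N p.2) = op q c ∧
    q = op F b ∧ r = op b c ∧ E r F
  constructor
  · intro h
    refine ⟨_, _, cd N p.1.1, cd N p.1.2, _, rfl, rfl, rfl, ?_⟩
    rw [cd_fn]
    exact ⟨p.1.2, by rw [h]⟩
  · rintro ⟨q, c, F, b, r, h1, rfl, rfl, h2⟩
    obtain ⟨h3, h4⟩ := op_inj.1 h1
    obtain ⟨h5, h6⟩ := op_inj.1 h3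
    subst h4 h5 h6
    obtain ⟨a, ha⟩ := (cd_fn N p.1.1 _).1 h2
    obtain ⟨h7, h8⟩ := op_inj.1 ha
    have h7 := cd_inj.1 h7
    have h8 := cd_inj.1 h8
    rw [h8, h7]

theorem IF.app {F : α → Fn N β γ} {f : α → β} (hF : IF N F) (hf : IF N f) :
    IF N (fun a => F a (f a)) :=
  IF.comp clo_ev (IF.pair hF hf)

theorem IF.sec {f : α → β → γ} (h : IF N (fun p : α × β => f p.1 p.2)) (a : α) : IF N (f a) :=
  IF.comp (g := fun p : α × β => f p.1 p.2) (f := fun b => (a, b)) h (IF.pair (IF.const a) IF.id)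

private theorem clo_lam {F : α → Fn N β γ} (h : IF N (fun p : α × β => F p.1 p.2)) : IF N F := by
  have h1 : IF N (fun q : (α × Fn N β γ) × β => F q.1.1 q.2) :=
    IF.comp h (IF.pair (IF.comp IF.fst IF.fst) IF.snd)
  have h2 : IF N (fun q : (α × Fn N β γ) × β => q.1.2 q.2) :=
    IF.app (IF.comp IF.snd IF.fst) IF.snd
  have h3 : IP N (fun p : α × Fn N β γ => ∀ b, F p.1 b = p.2 b) :=
    IP.all (P := fun (p : α × Fn N β γ) b => F p.1 b = p.2 b) (IP.eq h1 h2)
  refine IP.congr (fun p => ?_) h3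
  constructor
  · intro h
    exact Fn.ext (funext h)
  · intro h b
    rw [h]

theorem IF.lam {f : α → β → γ} (h : IF N (fun p : α × β => f p.1 p.2)) :
    IF N (fun a => (⟨f a, h.sec a⟩ : Fn N β γ)) :=
  clo_lam (F := fun a => (⟨f a, h.sec a⟩ : Fn N β γ)) h

/-- a variant of `IF.lam` for a given family of internal functions -/
theorem IF.lam' {F : α → Fn N β γ} (h : IF N (fun p : α × β => F p.1 p.2)) : IF N F :=
  clo_lam h

theorem IP.mem {f : α → β} {S : α → St N β} (hf : IF N f) (hS : IF N S) :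
    IP N (fun a => f a ∈ S a) := by
  have h : IP N (fun p : β × St N β => p.1 ∈ p.2) := by
    refine IP.of_sat (Fml.ex (Fml.ex (Fml.an (fOP 2 1 0) (.mem 1 0)))) (fun _ => rg N β) fun p => ?_
    simp only [sat_ex, sat_an, sat_mem, sat_fOP, cns_zero, cns_one, cns_two, isOP_iff]
    change p.1 ∈ p.2 ↔ ∃ b T, op (cd N p.1) (cd N p.2) = op b T ∧ E b T
    constructor
    · intro h
      exact ⟨_, _, rfl, (cd_st N p.2 _).2 ⟨p.1, h, rfl⟩⟩
    · rintro ⟨b, T, h1, h2⟩
      obtain ⟨h3, h4⟩ := op_inj.1 h1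
      subst h3 h4
      obtain ⟨a, ha, ha'⟩ := (cd_st N p.2 _).1 h2
      rw [cd_inj] at ha'
      rwa [← ha']
  exact IP.comp2 (P := fun b (T : St N β) => b ∈ T) h hf hS

private theorem clo_compr {S : α → St N β} (h : IP N (fun p : α × β => p.2 ∈ S p.1)) : IF N S := by
  have h1 : IP N (fun q : (α × St N β) × β => q.2 ∈ S q.1.1) :=
    IP.comp h (f := fun q : (α × St N β) × β => (q.1.1, q.2))
      (IF.pair (IF.comp IF.fst IF.fst) IF.snd)
  have h2 : IP N (fun q : (α × St N β) × β => q.2 ∈ q.1.2) :=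
    IP.mem IF.snd (IF.comp IF.snd IF.fst)
  have h3 : IP N (fun p : α × St N β => ∀ b, b ∈ S p.1 ↔ b ∈ p.2) :=
    IP.all (P := fun (p : α × St N β) b => b ∈ S p.1 ↔ b ∈ p.2) (h1.iff h2)
  refine IP.congr (fun p => ?_) h3
  constructor
  · intro h
    exact St.ext (Set.ext h)
  · intro h b
    rw [h]

theorem IF.compr {P : α → β → Prop} (h : IP N (fun p : α × β => P p.1 p.2)) :
    IF N (fun a => (⟨{b | P a b}, h.sec a⟩ : St N β)) :=
  clo_compr (S := fun a => (⟨{b | P a b}, h.sec a⟩ : St N β)) h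

/-- a variant of `IF.compr` for a given family of internal sets -/
theorem IF.compr' {S : α → St N β} (h : IP N (fun p : α × β => p.2 ∈ S p.1)) : IF N S :=
  clo_compr h

open Classical in
theorem IF.ite {P : α → Prop} {f g : α → β} (hP : IP N P) (hf : IF N f) (hg : IF N g) :
    IF N (fun a => if P a then f a else g a) := by
  have h1 : IP N (fun p : α × β => P p.1) := IP.comp hP IF.fst
  refine IP.congr (fun p => ?_) ((h1.and hf).or (h1.not.and hg))
  by_cases h : P p.1 <;> simp [h]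

theorem IF.unique {P : α → β → Prop} (h : IP N (fun p : α × β => P p.1 p.2)) (hu : ∀ a, ∃! b, P a b) :
    IF N (fun a => (hu a).choose) := by
  refine IP.congr (fun p => ?_) h
  constructor
  · intro h
    exact ((hu p.1).choose_spec.2 p.2 h).symm
  · intro h
    simp only at h
    rw [← h]
    exact (hu p.1).choose_spec.1

theorem IF.inv {f : α → β} {g : β → α} (hf : IF N f) (h1 : ∀ a, g (f a) = a) (h2 : ∀ b, f (g b) = b) :
    IF N g := by
  refine IP.congr (fun p => ?_) (IP.sw hf)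
  constructor
  · intro h
    simp only at h
    rw [← h, h1]
  · intro h
    simp only
    rw [← h, h2]

theorem IF.val {S : St N α} : IF N (fun a : Sb S => a.v) := by
  refine IP.of_sat (Fml.ex (fOP 1 0 0)) (fun _ => rg N α) fun p => ?_
  simp only [sat_ex, sat_fOP, cns_zero, cns_one, isOP_iff]
  change p.1.v = p.2 ↔ ∃ x, op (cd N p.1.v) (cd N p.2) = op x x
  constructor
  · intro h
    exact ⟨cd N p.2, by rw [h]⟩
  · rintro ⟨x, hx⟩
    obtain ⟨h1, h2⟩ := op_inj.1 hx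
    exact cd_inj.1 (h1.trans h2.symm)

theorem IF.toSb {S : St N α} {f : β → α} (hf : IF N f) (h : ∀ b, f b ∈ S) :
    IF N (fun b => (⟨f b, h b⟩ : Sb S)) := by
  have h1 : IP N (fun p : β × Sb S => f p.1 = p.2.v) :=
    IP.eq (IF.comp hf IF.fst) (IF.comp IF.val IF.snd)
  refine IP.congr (fun p => ?_) h1
  exact (Sb.ext_iff (x := (⟨f p.1, h p.1⟩ : Sb S)) (y := p.2)).symm

/-- internal relations between fewer and more variables: bounded quantifiers -/
theorem IP.ball {f : α → St N β} {P : α → β → Prop} (hf : IF N f)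
    (h : IP N (fun p : α × β => P p.1 p.2)) : IP N (fun a => ∀ b ∈ f a, P a b) :=
  IP.all (P := fun a b => b ∈ f a → P a b) ((IP.mem IF.snd (IF.comp hf IF.fst)).imp h)

theorem IP.bex {f : α → St N β} {P : α → β → Prop} (hf : IF N f)
    (h : IP N (fun p : α × β => P p.1 p.2)) : IP N (fun a => ∃ b ∈ f a, P a b) :=
  IP.ex (P := fun a b => b ∈ f a ∧ P a b) ((IP.mem IF.snd (IF.comp hf IF.fst)).and h)

/-- every function on a finite type is internal -/
theorem IF.finite [Finite α] (f : α → β) : IF N f := by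
  apply IP.finite
  apply (Set.finite_range fun a => (a, f a)).subset
  rintro ⟨a, b⟩ h
  simp only [Set.mem_ofPred_eq] at h
  exact ⟨a, by simp [h]⟩

end WCal
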