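import Pool.Agent.WCal.Bas

/-! # Types in a well-founded model of ZFC: definitions and basic closure lemmas

(problem MP_ba5606_gt, ARH Part II, block 0; architect helper69)

`N` is a well-founded model of ZFC (class `WM N`, relation `WM.E`). `WTy N α`: the elements of the native type `α` have
codes `cd N a : N`, the map `cd N` is injective and its range is (the set of elements of) a set `rg N α : N`.

* `IP N P`, `P : α → Prop`: the predicate `P` is internal: `{cd a | P a}` is a set of the model.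
* `IF N f`, `f : α → β`: the function `f` is internal: its graph is an internal predicate on `α × β`.
* `St N α`: the internal subsets of `α`; `Fn N α β`: the internal functions; `Sb S`: the subtype of `S : St N α`.
* instances of `WTy N`: `α × β`, `ℕ`, `Prop`, `St N α`, `Fn N α β`, `Sb S`, `El x` (the elements of `x : N`); further files:
  `Option α`, `α ⊕ β`, `List α`, `Finset α`, `ℚ`, `RW N` (real numbers of `N`).

PROOFS. `IP.of_sat`: separation from `rg N α`. All closure lemmas are instances of it: choose the formula with the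
parameters `rg`, and the sets of the given internal predicates (see `STP/FLang.lean` for `fOP`, `fVal`).
* `IP.not`: `¬ x ∈ s`. `IP.and`: `x ∈ s ∧ x ∈ t`. `IP.const`: `by_cases`, formulas `bot`, `no bot`.
* `IP.ex`, for `P : α → β → Prop`, `s` a set for the predicate `fun p : α × β => P p.1 p.2`: formula
  `∃ y p, y ∈ rg β ∧ IsOP p x y ∧ p ∈ s`.
* `IP.comp` (`f : α → β`, `P : β → Prop`): `∃ y p, IsOP p x y ∧ p ∈ (graph of f) ∧ y ∈ s`; (`y` may be outside of
  `rg β`? no: the set of `IF` may contain junk, so add `y ∈ rg β`, and `p` is then the code of a pair).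
* `IF.id`: the graph is `{p | ∃ x, IsOP p x x}`. `IF.fst` (`α × β → α`): graph `{((a, b), a)}`:
  `∃ a b q, IsOP q a b ∧ IsOP p q a`. `IF.pair`: `∃ x b c q, p = (x, q), q = (b, c), (x, b) ∈ f, (x, c) ∈ g`, with
  `b ∈ rg β, c ∈ rg γ`. `IF.comp`, `IF.const` similar.
* `cd_st`: the code of an internal set is the unique set of `N` whose elements are the codes of its elements;
  `rg N (St N α) = pw (rg N α)`. `cd_fn`: the code of an internal function is the set of the pairs `op (cd a) (cd (f a))`;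
  the range of codes is `{g ∈ pw (pr (rg α) (rg β)) | every a ∈ rg α has exactly one b with (a, b) ∈ g}`. -/

universe u v w x

namespace WCal

open STP WM

/-- a native type with codes in `N` -/
class WTy (N : Type u) [WM N] (α : Type v) where
  /-- the code -/
  cd : α → N
  inj : Function.Injective cd
  /-- the set of all codes -/
  rg : N
  mem_rg : ∀ x, E x rg ↔ ∃ a, cd a = x

variable (N : Type u) [WM N]

/-- the code of `a` -/
def cd {α : Type v} [WTy N α] (a : α) : N := WTy.cd a

/-- the set of the codes of all elements of `α` -/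
def rg (α : Type v) [WTy N α] : N := WTy.rg α

variable {N}

section
variable {α : Type v} {β : Type w} {γ : Type x} [WTy N α] [WTy N β] [WTy N γ]

theorem cd_inj {a b : α} : cd N a = cd N b ↔ a = b := WTy.inj.eq_iff

@[simp] theorem E_rg {x : N} : E x (rg N α) ↔ ∃ a : α, cd N a = x := WTy.mem_rg x

theorem cd_mem (a : α) : E (cd N a) (rg N α) := E_rg.2 ⟨a, rfl⟩

end

variable (N)

/-- internal predicates -/
def IP {α : Type v} [WTy N α] (P : α → Prop) : Prop := ∃ s : N, ∀ a, P a ↔ E (cd N a) s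

/-- pairs -/
noncomputable instance instWTyProd {α : Type v} {β : Type w} [WTy N α] [WTy N β] : WTy N (α × β) where
  cd p := op (cd N p.1) (cd N p.2)
  inj := by
    intro p q h
    have h := op_inj.1 h
    exact Prod.ext (cd_inj.1 h.1) (cd_inj.1 h.2)
  rg := pr (rg N α) (rg N β)
  mem_rg := by
    intro x
    rw [E_pr]
    constructor
    · rintro ⟨a, b, ha, hb, rfl⟩
      obtain ⟨a, rfl⟩ := E_rg.1 ha
      obtain ⟨b, rfl⟩ := E_rg.1 hb
      exact ⟨(a, b), rfl⟩
    · rintro ⟨p, rfl⟩
      exact ⟨_, _, cd_mem p.1, cd_mem p.2, rfl⟩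

/-- internal functions -/
def IF {α : Type v} {β : Type w} [WTy N α] [WTy N β] (f : α → β) : Prop :=
  IP N (fun p : α × β => f p.1 = p.2)

/-- the natural numbers -/
noncomputable instance instWTyNat : WTy N ℕ where
  cd n := nt N n
  inj := nt_inj
  rg := om N
  mem_rg x := by rw [E_om]; exact ⟨fun ⟨n, h⟩ => ⟨n, h.symm⟩, fun ⟨n, h⟩ => ⟨n, h.symm⟩⟩

/-- internal subsets -/
@[ext] structure St (α : Type v) [WTy N α] where
  /-- the set -/
  s : Set α
  int : IP N (· ∈ s)

instance {α : Type v} [WTy N α] : Membership α (St N α) := ⟨fun S a => a ∈ S.s⟩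

/-- internal functions -/
@[ext] structure Fn (α : Type v) (β : Type w) [WTy N α] [WTy N β] where
  /-- the function -/
  f : α → β
  int : IF N f

instance {α : Type v} {β : Type w} [WTy N α] [WTy N β] : CoeFun (Fn N α β) (fun _ => α → β) := ⟨Fn.f⟩

theorem mem_mk {α : Type v} [WTy N α] {a : α} {s : Set α} {h : IP N (· ∈ s)} :
    a ∈ (⟨s, h⟩ : St N α) ↔ a ∈ s := Iff.rfl

/-- the set of the codes of the elements of an internal set -/
theorem exists_cd_st {α : Type v} [WTy N α] (S : St N α) : ∃ x : N, ∀ z, E z x ↔ ∃ a, a ∈ S ∧ cd N a = z := by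
  obtain ⟨s, hs⟩ := S.int
  obtain ⟨y, hy⟩ := sepF (.mem 0 1) (fun _ => s) (rg N α) (fun z => E z s)
    (fun z _ => by simp)
  refine ⟨y, fun z => ?_⟩
  rw [hy, E_rg]
  constructor
  · rintro ⟨⟨a, rfl⟩, h⟩
    exact ⟨a, (hs a).2 h, rfl⟩
  · rintro ⟨a, ha, rfl⟩
    exact ⟨⟨a, rfl⟩, (hs a).1 ha⟩

theorem exists_rg_st (α : Type v) [WTy N α] : ∃ x : N, ∀ z, E z x ↔
    ∃ S : St N α, (exists_cd_st N S).choose = z := by
  refine ⟨pw (rg N α), fun z => ?_⟩
  rw [E_pw]
  constructor
  · intro h
    refine ⟨⟨{a | E (cd N a) z}, ⟨z, fun a => Iff.rfl⟩⟩, ?_⟩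
    rw [ext_iff']
    intro w
    rw [(exists_cd_st N (⟨{a | E (cd N a) z}, ⟨z, fun a => Iff.rfl⟩⟩ : St N α)).choose_spec w]
    constructor
    · rintro ⟨a, ha, rfl⟩
      exact ha
    · intro hw
      obtain ⟨a, rfl⟩ := E_rg.1 (h w hw)
      exact ⟨a, hw, rfl⟩
  · rintro ⟨S, rfl⟩ w hw
    obtain ⟨a, -, rfl⟩ := ((exists_cd_st N S).choose_spec w).1 hw
    exact cd_mem a

theorem inj_st {α : Type v} [WTy N α] : Function.Injective fun S : St N α => (exists_cd_st N S).choose := by
  intro S T h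
  have h' : (exists_cd_st N S).choose = (exists_cd_st N T).choose := h
  apply St.ext
  ext a
  have h1 : ∀ R : St N α, a ∈ R.s ↔ E (cd N a) (exists_cd_st N R).choose := by
    intro R
    rw [(exists_cd_st N R).choose_spec]
    constructor
    · intro ha
      exact ⟨a, ha, rfl⟩
    · rintro ⟨b, hb, hab⟩
      rw [← cd_inj.1 hab]
      exact hb
  rw [h1 S, h1 T, h']

/-- the type of internal subsets of `α` -/
noncomputable instance instWTySt {α : Type v} [WTy N α] : WTy N (St N α) where
  cd S := (exists_cd_st N S).choose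
  inj := inj_st N
  rg := (exists_rg_st N α).choose
  mem_rg := (exists_rg_st N α).choose_spec

theorem cd_st {α : Type v} [WTy N α] (S : St N α) (z : N) : E z (cd N S) ↔ ∃ a, a ∈ S ∧ cd N a = z :=
  (exists_cd_st N S).choose_spec z

/-- the graph of an internal function -/
theorem exists_cd_fn {α : Type v} {β : Type w} [WTy N α] [WTy N β] (F : Fn N α β) :
    ∃ x : N, ∀ z, E z x ↔ ∃ a, z = op (cd N a) (cd N (F a)) := by
  obtain ⟨s, hs⟩ := F.int
  obtain ⟨y, hy⟩ := sepF (.mem 0 1) (fun _ => s) (pr (rg N α) (rg N β)) (fun z => E z s)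
    (fun z _ => by simp)
  refine ⟨y, fun z => ?_⟩
  rw [hy, E_pr]
  constructor
  · rintro ⟨⟨a, b, ha, hb, rfl⟩, h⟩
    obtain ⟨a, rfl⟩ := E_rg.1 ha
    obtain ⟨b, rfl⟩ := E_rg.1 hb
    have h1 : F.f a = b := (hs (a, b)).2 h
    exact ⟨a, by rw [← h1]⟩
  · rintro ⟨a, rfl⟩
    exact ⟨⟨_, _, cd_mem a, cd_mem (F a), rfl⟩, (hs (a, F a)).1 rfl⟩

theorem exists_rg_fn (α : Type v) (β : Type w) [WTy N α] [WTy N β] : ∃ x : N, ∀ z, E z x ↔
    ∃ F : Fn N α β, (exists_cd_fn N F).choose = z := by
  obtain ⟨y, hy⟩ := sepF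
    (.all (.imp (.mem 0 2) (.ex (.all (.iff (fVal 3 2 0) (.eq 0 1))))))
    (fun _ => rg N α) (pw (pr (rg N α) (rg N β)))
    (fun z => ∀ a, E a (rg N α) → ∃ b, ∀ c, (E (op a c) z ↔ c = b))
    (fun z _ => by
      have hv : ∀ a c : N, Val E z a c ↔ E (op a c) z := by
        intro a c
        unfold Val
        constructor
        · rintro ⟨p, hp, hp'⟩
          rw [isOP_iff] at hp'
          rwa [hp'] at hp
        · intro h
          exact ⟨_, h, isOP_op a c⟩
      simp [hv])
  refine ⟨y, fun z => ?_⟩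
  rw [hy, E_pw]
  constructor
  · rintro ⟨h1, h2⟩
    have h3 : ∀ a : α, ∃ b : β, ∀ c, (E (op (cd N a) c) z ↔ c = cd N b) := by
      intro a
      obtain ⟨b, hb⟩ := h2 (cd N a) (cd_mem a)
      have h4 := h1 _ ((hb b).2 rfl)
      rw [E_pr_op] at h4
      obtain ⟨b', rfl⟩ := E_rg.1 h4.2
      exact ⟨b', hb⟩
    choose f hf using h3
    have hint : IF N f := by
      refine ⟨z, fun p => ?_⟩
      change f p.1 = p.2 ↔ E (op (cd N p.1) (cd N p.2)) z
      rw [hf, cd_inj, eq_comm]
    refine ⟨⟨f, hint⟩, ?_⟩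
    rw [ext_iff']
    intro w
    rw [(exists_cd_fn N (⟨f, hint⟩ : Fn N α β)).choose_spec w]
    constructor
    · rintro ⟨a, rfl⟩
      exact (hf a _).2 rfl
    · intro hw
      obtain ⟨a, b, ha, hb, rfl⟩ := E_pr.1 (h1 w hw)
      obtain ⟨a, rfl⟩ := E_rg.1 ha
      exact ⟨a, by rw [(hf a b).1 hw]⟩
  · rintro ⟨F, rfl⟩
    have h1 := (exists_cd_fn N F).choose_spec
    refine ⟨fun w hw => ?_, fun a ha => ?_⟩
    · obtain ⟨a, rfl⟩ := (h1 w).1 hw
      rw [E_pr_op]
      exact ⟨cd_mem a, cd_mem _⟩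
    · obtain ⟨a, rfl⟩ := E_rg.1 ha
      refine ⟨cd N (F a), fun c => ?_⟩
      rw [h1]
      constructor
      · rintro ⟨a', ha'⟩
        rw [op_inj, cd_inj] at ha'
        rw [ha'.2, ha'.1]
      · rintro rfl
        exact ⟨a, rfl⟩

theorem inj_fn {α : Type v} {β : Type w} [WTy N α] [WTy N β] :
    Function.Injective fun F : Fn N α β => (exists_cd_fn N F).choose := by
  intro F G h
  have h' : (exists_cd_fn N F).choose = (exists_cd_fn N G).choose := h
  apply Fn.ext
  funext a
  have h1 : E (op (cd N a) (cd N (F a))) (exists_cd_fn N F).choose :=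
    ((exists_cd_fn N F).choose_spec _).2 ⟨a, rfl⟩
  rw [h', (exists_cd_fn N G).choose_spec] at h1
  obtain ⟨a', ha'⟩ := h1
  rw [op_inj, cd_inj, cd_inj] at ha'
  have h2 : F.f a = G.f a' := ha'.2
  rw [h2, ← ha'.1]

/-- the type of internal functions from `α` to `β` -/
noncomputable instance instWTyFn {α : Type v} {β : Type w} [WTy N α] [WTy N β] : WTy N (Fn N α β) where
  cd F := (exists_cd_fn N F).choose
  inj := inj_fn N
  rg := (exists_rg_fn N α β).choose
  mem_rg := (exists_rg_fn N α β).choose_spec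

theorem cd_fn {α : Type v} {β : Type w} [WTy N α] [WTy N β] (F : Fn N α β) (z : N) :
    E z (cd N F) ↔ ∃ a, z = op (cd N a) (cd N (F a)) :=
  (exists_cd_fn N F).choose_spec z

theorem exists_sub {α : Type v} [WTy N α] (P : α → Prop) (h : IP N P) :
    ∃ x : N, ∀ z, E z x ↔ ∃ a, P a ∧ cd N a = z := by
  obtain ⟨s, hs⟩ := h
  obtain ⟨y, hy⟩ := sepF (.mem 0 1) (fun _ => s) (rg N α) (fun z => E z s)
    (fun z _ => by simp)
  refine ⟨y, fun z => ?_⟩
  rw [hy, E_rg]
  constructor
  · rintro ⟨⟨a, rfl⟩, h⟩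
    exact ⟨a, (hs a).2 h, rfl⟩
  · rintro ⟨a, ha, rfl⟩
    exact ⟨⟨a, rfl⟩, (hs a).1 ha⟩

variable {N} in
/-- the subtype of an internal set -/
@[ext] structure Sb {α : Type v} [WTy N α] (S : St N α) where
  /-- the element -/
  v : α
  h : v ∈ S

/-- subtypes -/
noncomputable instance instWTySb {α : Type v} [WTy N α] (S : St N α) : WTy N (Sb S) where
  cd a := cd N a.v
  inj a b h := Sb.ext (cd_inj.1 h)
  rg := cd N S
  mem_rg x := by
    rw [cd_st]
    exact ⟨fun ⟨a, ha, h⟩ => ⟨⟨a, ha⟩, h⟩, fun ⟨a, h⟩ => ⟨a.v, a.h, h⟩⟩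

variable {N} in
/-- the elements of a set of the model -/
@[ext] structure El (x : N) where
  /-- the element -/
  v : N
  h : E v x

/-- the elements of a set of the model -/
instance instWTyEl (x : N) : WTy N (El x) where
  cd a := a.v
  inj _ _ h := El.ext h
  rg := x
  mem_rg y := ⟨fun h => ⟨⟨y, h⟩, rfl⟩, fun ⟨a, h⟩ => h ▸ a.h⟩

/-- truth values -/
noncomputable instance instWTyProp : WTy N Prop where
  cd p := open Classical in if p then nt N 1 else nt N 0
  inj := by
    intro p q h
    by_cases hp : p <;> by_cases hq : q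
    · simp [hp, hq]
    · simp only [hp, hq, if_true, if_false] at h
      exact absurd (nt_inj h) (by omega)
    · simp only [hp, hq, if_true, if_false] at h
      exact absurd (nt_inj h) (by omega)
    · simp [hp, hq]
  rg := nt N 2
  mem_rg x := by
    rw [E_nt]
    constructor
    · rintro ⟨m, hm, rfl⟩
      have : m = 0 ∨ m = 1 := by omega
      rcases this with rfl | rfl
      · exact ⟨False, by simp⟩
      · exact ⟨True, by simp⟩
    · rintro ⟨p, rfl⟩
      by_cases hp : p
      · exact ⟨1, by omega, by simp [hp]⟩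
      · exact ⟨0, by omega, by simp [hp]⟩

end WCal
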