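import Pool.Agent.WCal.Cho

/-! # The types `Option α`, `α ⊕ β`, `List α`, `Finset α`, `ℚ`

(problem MP_ba5606_gt, ARH Part II, block 0; architect helper69)

Codes: `none ↦ emp`, `some a ↦ up (cd a) (cd a)`; `inl a ↦ op (nt 0) (cd a)`, `inr b ↦ op (nt 1) (cd b)`; the code of a list `l` is the
set of the pairs `op (nt i) (cd l[i])`; the code of a finite set is the set of the codes of its elements; the code of a rational number
`q` is `nt (qe q)` (`qe : ℚ ≃ ℕ`).

PROOFS. Existence of the ranges: separation from power sets.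
* `exists_rg_opt`: from `pw (rg N α)` by `z has no elements ∨ ∃ x ∈ rg α, IsUP z x x`.
* `exists_rg_sum`: from `pr (om N) (cup (rg α) (rg β))`.
* `exists_cd_list`: the set is finite: induction on the list with `cup` and `up`, or `IP.finite` for a predicate on `ℕ × α`.
  `exists_rg_list`: from `pw (pr (om N) (rg N α))` by: there is `n ∈ om` such that `z` is a function with domain `n` (`fFun`). A function with
  domain `nt N n` and values in `rg α` is the code of a list of length `n` (`List.ofFn`).
* `exists_cd_fin`: `IP.finite`. `exists_rg_fin`: from `pw (rg N α)` by: there is a list (an element of `rg N (List α)`) whose range contains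
  all elements of `z`: `∃ g ∈ rg (List α), ∀ x ∈ z, ∃ i p, p ∈ g ∧ IsOP p i x`.
* all injectivity statements from extensionality and `nt_inj`, `op_inj`, `cd_inj`. -/

universe u v w x

namespace WCal

open STP WM

variable (N : Type u) [WM N]

variable {N} in
private theorem eq_emp {z : N} (h : ∀ w, ¬ E w z) : z = emp :=
  ext_iff'.2 fun w => iff_of_false (h w) (E_emp w)

variable {N} in
private theorem eq_up {z x y : N} (h : IsUP E z x y) : z = up x y :=
  ext_iff'.2 fun w => (h w).trans E_up.symm

section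
variable (α : Type v) (β : Type w) [WTy N α] [WTy N β]

theorem exists_rg_opt : ∃ x : N, ∀ z, E z x ↔ ∃ a : Option α, (a.elim emp fun b => up (cd N b) (cd N b)) = z := by
  obtain ⟨x, hx⟩ := sepF (Fml.or (.all (Fml.no (.mem 0 1))) (Fml.ex (Fml.an (.mem 0 2) (fUP 1 0 0))))
    (fun _ => rg N α) (pw (rg N α))
    (fun z => ∃ a : Option α, (a.elim emp fun b => up (cd N b) (cd N b)) = z) (by
      intro z _
      simp only [sat_or, sat_all, sat_no, sat_ex, sat_an, sat_mem, sat_fUP, cns_zero, cns_one,
        cns_two]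
      constructor
      · rintro (h | ⟨y, hy, h⟩)
        · exact ⟨none, (eq_emp h).symm⟩
        · obtain ⟨a, rfl⟩ := E_rg.1 hy
          exact ⟨some a, (eq_up h).symm⟩
      · rintro ⟨a, rfl⟩
        cases a with
        | none => exact Or.inl fun w => E_emp w
        | some a => exact Or.inr ⟨cd N a, cd_mem a, fun w => E_up⟩)
  refine ⟨x, fun z => ?_⟩
  rw [hx z]
  refine ⟨fun h => h.2, fun h => ⟨?_, h⟩⟩
  obtain ⟨a, rfl⟩ := h
  rw [E_pw]
  intro w hw
  cases a with
  | none => exact absurd hw (E_emp w)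
  | some a =>
    rcases E_up.1 hw with rfl | rfl
    · exact cd_mem a
    · exact cd_mem a

theorem inj_opt : Function.Injective fun a : Option α => (a.elim emp fun b => up (cd N b) (cd N b) : N) := by
  intro a b h
  cases a with
  | none =>
    cases b with
    | none => rfl
    | some b =>
      have h1 : (emp : N) = up (cd N b) (cd N b) := h
      exact absurd (h1 ▸ E_up.2 (Or.inl rfl) : E (cd N b) (emp : N)) (E_emp _)
  | some a =>
    cases b with
    | none =>
      have h1 : up (cd N a) (cd N a) = (emp : N) := h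
      exact absurd (h1 ▸ E_up.2 (Or.inl rfl) : E (cd N a) (emp : N)) (E_emp _)
    | some b =>
      have h1 : up (cd N a) (cd N a) = up (cd N b) (cd N b) := h
      have h2 : E (cd N a) (up (cd N b) (cd N b)) := by
        rw [← h1]
        exact E_up.2 (Or.inl rfl)
      have h3 : cd N a = cd N b := by
        rcases E_up.1 h2 with h3 | h3
        · exact h3
        · exact h3
      rw [cd_inj.1 h3]

noncomputable instance instWTyOption : WTy N (Option α) where
  cd a := a.elim emp fun b => up (cd N b) (cd N b)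
  inj := inj_opt N α
  rg := (exists_rg_opt N α).choose
  mem_rg := (exists_rg_opt N α).choose_spec

theorem exists_rg_sum : ∃ x : N, ∀ z, E z x ↔
    ∃ a : α ⊕ β, (a.elim (fun b => op (nt N 0) (cd N b)) fun b => op (nt N 1) (cd N b)) = z := by
  refine ⟨cup (pr (up (nt N 0) (nt N 0)) (rg N α)) (pr (up (nt N 1) (nt N 1)) (rg N β)),
    fun z => ?_⟩
  rw [E_cup, E_pr, E_pr]
  constructor
  · rintro (⟨x, y, hx, hy, rfl⟩ | ⟨x, y, hx, hy, rfl⟩)
    · obtain ⟨a, rfl⟩ := E_rg.1 hy
      have hx' : x = nt N 0 := by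
        rcases E_up.1 hx with h | h
        · exact h
        · exact h
      rw [hx']
      exact ⟨Sum.inl a, rfl⟩
    · obtain ⟨a, rfl⟩ := E_rg.1 hy
      have hx' : x = nt N 1 := by
        rcases E_up.1 hx with h | h
        · exact h
        · exact h
      rw [hx']
      exact ⟨Sum.inr a, rfl⟩
  · rintro ⟨a | a, rfl⟩
    · exact Or.inl ⟨_, _, E_up.2 (Or.inl rfl), cd_mem a, rfl⟩
    · exact Or.inr ⟨_, _, E_up.2 (Or.inl rfl), cd_mem a, rfl⟩

theorem inj_sum : Function.Injective fun a : α ⊕ β =>
    (a.elim (fun b => op (nt N 0) (cd N b)) fun b => op (nt N 1) (cd N b) : N) := by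
  intro a b h
  rcases a with a | a <;> rcases b with b | b
  · have h1 : op (nt N 0) (cd N a) = op (nt N 0) (cd N b) := h
    rw [cd_inj.1 (op_inj.1 h1).2]
  · have h1 : op (nt N 0) (cd N a) = op (nt N 1) (cd N b) := h
    exact absurd (nt_inj (op_inj.1 h1).1) (by omega)
  · have h1 : op (nt N 1) (cd N a) = op (nt N 0) (cd N b) := h
    exact absurd (nt_inj (op_inj.1 h1).1) (by omega)
  · have h1 : op (nt N 1) (cd N a) = op (nt N 1) (cd N b) := h
    rw [cd_inj.1 (op_inj.1 h1).2]

noncomputable instance instWTySum : WTy N (α ⊕ β) where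
  cd a := a.elim (fun b => op (nt N 0) (cd N b)) fun b => op (nt N 1) (cd N b)
  inj := inj_sum N α β
  rg := (exists_rg_sum N α β).choose
  mem_rg := (exists_rg_sum N α β).choose_spec

variable {α} in
theorem exists_cd_list (l : List α) : ∃ x : N, ∀ z, E z x ↔
    ∃ (i : ℕ) (a : α), l[i]? = some a ∧ z = op (nt N i) (cd N a) := by
  have hfin : {p : ℕ × α | l[p.1]? = some p.2}.Finite := by
    refine ((Set.finite_Iio l.length).prod (List.finite_toSet l)).subset ?_
    rintro ⟨i, a⟩ h
    have h : l[i]? = some a := h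
    obtain ⟨h1, h2⟩ := List.getElem?_eq_some_iff.1 h
    exact ⟨h1, List.mem_of_getElem? h⟩
  obtain ⟨x, hx⟩ := exists_sub N (fun p : ℕ × α => l[p.1]? = some p.2) (IP.finite hfin)
  refine ⟨x, fun z => ?_⟩
  rw [hx z]
  constructor
  · rintro ⟨⟨i, a⟩, h, rfl⟩
    exact ⟨i, a, h, rfl⟩
  · rintro ⟨i, a, h, rfl⟩
    exact ⟨(i, a), h, rfl⟩

variable {α} in
private theorem E_list (l : List α) (i : ℕ) (a : α) :
    E (op (nt N i) (cd N a)) (exists_cd_list N l).choose ↔
      l[i]? = some a := by
  rw [(exists_cd_list N l).choose_spec]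
  constructor
  · rintro ⟨j, b, h, h'⟩
    obtain ⟨h1, h2⟩ := op_inj.1 h'
    rw [nt_inj h1, cd_inj.1 h2]
    exact h
  · intro h
    exact ⟨i, a, h, rfl⟩

theorem inj_list : Function.Injective fun l : List α => (exists_cd_list N l).choose := by
  intro l l' h
  have h : (exists_cd_list N l).choose = (exists_cd_list N l').choose := h
  refine List.ext_getElem? fun i => ?_
  refine Option.ext fun a => ?_
  rw [← E_list N l, ← E_list N l', h]

theorem exists_rg_list : ∃ x : N, ∀ z, E z x ↔ ∃ l : List α, (exists_cd_list N l).choose = z := by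
  obtain ⟨x, hx⟩ := sepF (Fml.ex (Fml.an (.mem 0 2) (fFun 1 0))) (fun _ => om N)
    (pw (pr (om N) (rg N α))) (fun z => ∃ l : List α, (exists_cd_list N l).choose = z) (by
      intro z hz
      simp only [sat_ex, sat_an, sat_mem, sat_fFun, cns_zero, cns_one, cns_two]
      constructor
      · rintro ⟨n, hn, hf1, hf2, hf3⟩
        obtain ⟨m, rfl⟩ := E_om.1 hn
        have h1 : ∀ i : Fin m, ∃ a : α, E (op (nt N i) (cd N a)) z := by
          intro i
          obtain ⟨y, p, hp, hp'⟩ := hf2 (nt N i) (E_nt.2 ⟨i, i.2, rfl⟩)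
          obtain rfl := isOP_iff.1 hp'
          obtain ⟨a, ha⟩ := E_rg.1 (E_pr_op.1 (E_pw.1 hz _ hp)).2
          rw [← ha] at hp
          exact ⟨a, hp⟩
        choose a ha using h1
        refine ⟨List.ofFn a, ?_⟩
        rw [ext_iff']
        intro w
        rw [(exists_cd_list N (List.ofFn a)).choose_spec w]
        constructor
        · rintro ⟨i, b, hib, rfl⟩
          obtain ⟨h2, h3⟩ := List.getElem?_eq_some_iff.1 hib
          rw [List.getElem_ofFn] at h3
          have h4 : i < m := by
            rw [List.length_ofFn] at h2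
            exact h2
          rw [← h3]
          exact ha ⟨i, h4⟩
        · intro hw
          obtain ⟨x, y, hx, hxy⟩ := hf1 w hw
          obtain ⟨i, hi, rfl⟩ := E_nt.1 hx
          have h2 : Val E z (nt N i) (cd N (a ⟨i, hi⟩)) := ⟨_, ha ⟨i, hi⟩, isOP_op _ _⟩
          have h3 := hf3 _ _ _ ⟨w, hw, hxy⟩ h2
          refine ⟨i, a ⟨i, hi⟩, ?_, ?_⟩
          · rw [List.getElem?_eq_some_iff]
            exact ⟨by rw [List.length_ofFn]; exact hi, by rw [List.getElem_ofFn]⟩
          · rw [← h3]
            exact isOP_iff.1 hxy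
      · rintro ⟨l, rfl⟩
        have hs := (exists_cd_list N l).choose_spec
        refine ⟨nt N l.length, E_om.2 ⟨_, rfl⟩, ?_, ?_, ?_⟩
        · intro p hp
          obtain ⟨i, a, h, rfl⟩ := (hs p).1 hp
          exact ⟨nt N i, cd N a, E_nt.2 ⟨i, (List.getElem?_eq_some_iff.1 h).1, rfl⟩, isOP_op _ _⟩
        · intro x hx
          obtain ⟨i, hi, rfl⟩ := E_nt.1 hx
          exact ⟨cd N l[i], op (nt N i) (cd N l[i]),
            (hs _).2 ⟨i, l[i], List.getElem?_eq_getElem hi, rfl⟩, isOP_op _ _⟩
        · rintro x y y' ⟨p, hp, hp'⟩ ⟨q, hq, hq'⟩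
          obtain rfl := isOP_iff.1 hp'
          obtain rfl := isOP_iff.1 hq'
          obtain ⟨i, a, h, h'⟩ := (hs _).1 hp
          obtain ⟨j, b, g, g'⟩ := (hs _).1 hq
          obtain ⟨h1, h2⟩ := op_inj.1 h'
          obtain ⟨g1, g2⟩ := op_inj.1 g'
          have h3 : i = j := nt_inj (h1.symm.trans g1)
          subst h3
          rw [h] at g
          rw [h2, g2, Option.some.inj g])
  refine ⟨x, fun z => ?_⟩
  rw [hx z]
  refine ⟨fun h => h.2, fun h => ⟨?_, h⟩⟩
  obtain ⟨l, rfl⟩ := h
  rw [E_pw]
  intro w hw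
  obtain ⟨i, a, -, rfl⟩ := ((exists_cd_list N l).choose_spec w).1 hw
  exact E_pr_op.2 ⟨E_om.2 ⟨i, rfl⟩, cd_mem a⟩

noncomputable instance instWTyList : WTy N (List α) where
  cd l := (exists_cd_list N l).choose
  inj := inj_list N α
  rg := (exists_rg_list N α).choose
  mem_rg := (exists_rg_list N α).choose_spec

variable {α} in
theorem exists_cd_fin (s : Finset α) : ∃ x : N, ∀ z, E z x ↔ ∃ a ∈ s, cd N a = z := by
  exact exists_sub N (fun a : α => a ∈ s) (IP.finite s.finite_toSet)

variable {α} in
private theorem E_fin (s : Finset α) (a : α) :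
    E (cd N a) (exists_cd_fin N s).choose ↔ a ∈ s := by
  rw [(exists_cd_fin N s).choose_spec]
  constructor
  · rintro ⟨b, h, h'⟩
    rw [← cd_inj.1 h']
    exact h
  · intro h
    exact ⟨a, h, rfl⟩

theorem inj_fin : Function.Injective fun s : Finset α => (exists_cd_fin N s).choose := by
  intro s s' h
  have h : (exists_cd_fin N s).choose = (exists_cd_fin N s').choose := h
  refine Finset.ext fun a => ?_
  rw [← E_fin N s, ← E_fin N s', h]

theorem exists_rg_fin : ∃ x : N, ∀ z, E z x ↔ ∃ s : Finset α, (exists_cd_fin N s).choose = z := by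
  obtain ⟨x, hx⟩ := sepF (Fml.ex (Fml.an (.mem 0 2) (.all (.imp (.mem 0 2)
    (Fml.ex (Fml.ex (Fml.an (.mem 0 3) (fOP 0 1 2)))))))) (fun _ => rg N (List α))
    (pw (rg N α)) (fun z => ∃ s : Finset α, (exists_cd_fin N s).choose = z) (by
      intro z hz
      simp only [sat_ex, sat_an, sat_all, sat_imp, sat_mem, sat_fOP, cns_zero, cns_one, cns_two,
        cns_three]
      constructor
      · rintro ⟨g, hg, h⟩
        obtain ⟨l, rfl⟩ := E_rg.1 hg
        have hfin : {a : α | E (cd N a) z}.Finite := by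
          refine (List.finite_toSet l).subset ?_
          intro a ha
          obtain ⟨i, p, hp, hp'⟩ := h _ ha
          obtain rfl := isOP_iff.1 hp'
          obtain ⟨j, b, hb, hb'⟩ := ((exists_cd_list N l).choose_spec _).1 hp
          rw [cd_inj.1 (op_inj.1 hb').2]
          exact List.mem_of_getElem? hb
        refine ⟨hfin.toFinset, ?_⟩
        rw [ext_iff']
        intro w
        rw [(exists_cd_fin N hfin.toFinset).choose_spec w]
        constructor
        · rintro ⟨a, ha, rfl⟩
          exact hfin.mem_toFinset.1 ha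
        · intro hw
          obtain ⟨a, rfl⟩ := E_rg.1 (E_pw.1 hz w hw)
          exact ⟨a, hfin.mem_toFinset.2 hw, rfl⟩
      · rintro ⟨s, rfl⟩
        refine ⟨cd N s.toList, cd_mem _, fun x hx => ?_⟩
        obtain ⟨a, ha, rfl⟩ := ((exists_cd_fin N s).choose_spec x).1 hx
        obtain ⟨i, hi⟩ := List.getElem?_of_mem (Finset.mem_toList.2 ha)
        exact ⟨nt N i, op (nt N i) (cd N a),
          ((exists_cd_list N s.toList).choose_spec _).2 ⟨i, a, hi, rfl⟩, isOP_op _ _⟩)
  refine ⟨x, fun z => ?_⟩
  rw [hx z]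
  refine ⟨fun h => h.2, fun h => ⟨?_, h⟩⟩
  obtain ⟨s, rfl⟩ := h
  rw [E_pw]
  intro w hw
  obtain ⟨a, -, rfl⟩ := ((exists_cd_fin N s).choose_spec w).1 hw
  exact cd_mem a

noncomputable instance instWTyFinset : WTy N (Finset α) where
  cd s := (exists_cd_fin N s).choose
  inj := inj_fin N α
  rg := (exists_rg_fin N α).choose
  mem_rg := (exists_rg_fin N α).choose_spec

/-- a fixed bijection between `ℚ` and `ℕ` -/
noncomputable def _root_.WCal.qe : ℚ ≃ ℕ := Denumerable.eqv ℚ

/-- codes along a bijection -/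
@[reducible] def ofEquiv {α : Type v} {β : Type w} [WTy N β] (e : α ≃ β) : WTy N α where
  cd a := cd N (e a)
  inj a b h := e.injective (cd_inj.1 h)
  rg := rg N β
  mem_rg x := by
    rw [E_rg]
    exact ⟨fun ⟨b, h⟩ => ⟨e.symm b, by rw [e.apply_symm_apply]; exact h⟩, fun ⟨a, h⟩ => ⟨e a, h⟩⟩

noncomputable instance instWTyRat : WTy N ℚ := ofEquiv N qe

noncomputable instance instWTyBool : WTy N Bool where
  cd b := nt N b.toNat
  inj a b h := by
    have := nt_inj h
    revert this
    cases a <;> cases b <;> simp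
  rg := nt N 2
  mem_rg x := by
    rw [E_nt]
    constructor
    · rintro ⟨m, hm, rfl⟩
      have : m = 0 ∨ m = 1 := by omega
      rcases this with rfl | rfl
      · exact ⟨false, rfl⟩
      · exact ⟨true, rfl⟩
    · rintro ⟨b, rfl⟩
      cases b
      · exact ⟨0, by omega, rfl⟩
      · exact ⟨1, by omega, rfl⟩

noncomputable instance instWTyUnit : WTy N Unit where
  cd _ := nt N 0
  inj _ _ _ := rfl
  rg := nt N 1
  mem_rg x := by
    rw [E_nt]
    constructor
    · rintro ⟨m, hm, rfl⟩
      have : m = 0 := by omega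
      subst this
      exact ⟨(), rfl⟩
    · rintro ⟨_, rfl⟩
      exact ⟨0, by omega, rfl⟩

end

end WCal
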