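import Pool.Agent.WCal.ReA

/-! # From a model to a larger model (transitive embeddings)

(problem MP_ba5606_gt, ARH Part II, block 0; architect helper69)

`Emb M W`: an `∈`-embedding of `M` onto a transitive part of `W`. If `M` is a transitive subset of a transitive set `W` it is the inclusion.
`lft j α`: the codes of a type of `M`, as codes in `W`. `Cmp j α`: the two coding systems of `α` (in `M` and in `W`) are compatible.

PROOFS.
* `Emb.op`: the image of `op x y` has exactly the elements of `op (j.i x) (j.i y)`: an element of `j.i p` is `j.i y` for some `y` with `E y p`. (Use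
  `isOP_iff`, `IsUP`, extensionality in `W`.) `Emb.emp`, `Emb.up`, `Emb.sc`, `Emb.nt`, `Emb.pr` similar.
* the instances of `Cmp`: by these lemmas. For `List`, `Finset`: extensionality with `cd_list`, `cd_fin`.
* `IP.lift`: if `s : M` is a set for `P` then `j.i s : W` is a set for `P`. `IF.lift`: `Cmp` for the product. `Emb.std`: `Std` is inherited: the codes of `ℚ`, `ℕ`
  are natural numbers.
* `stUp`: the internal subset of `α` in `W` with the same elements; it is an internal function from the lifted type. `fnUp` similar. -/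

universe u u' v w x

namespace WCal

open STP WM

/-- transitive embedding of a model into a model -/
structure Emb (M : Type u) (W : Type u') [WM M] [WM W] where
  /-- the embedding -/
  i : M → W
  inj : Function.Injective i
  hE : ∀ x y, E (i x) (i y) ↔ E x y
  tr : ∀ x z, E z (i x) → ∃ y, z = i y

variable {M : Type u} {W : Type u'} [WM M] [WM W] (j : Emb M W)

private theorem img_eq (x : M) (y : W) (h1 : ∀ z, E z x → E (j.i z) y)
    (h2 : ∀ w, E w y → ∃ z, E z x ∧ w = j.i z) : j.i x = y := by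
  rw [ext_iff']
  intro w
  constructor
  · intro hw
    obtain ⟨z, rfl⟩ := j.tr _ _ hw
    exact h1 z ((j.hE _ _).1 hw)
  · intro hw
    obtain ⟨z, hz, rfl⟩ := h2 w hw
    exact (j.hE _ _).2 hz

private theorem up_iff {N : Type u} [WM N] {z x y : N} : IsUP E z x y ↔ z = WCal.up x y := by
  rw [ext_iff']
  exact forall_congr' fun w => by rw [E_up]

theorem Emb.emp : j.i emp = (WCal.emp : W) := by
  refine img_eq j _ _ (fun z hz => absurd hz (E_emp z)) fun w hw => absurd hw (E_emp w)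

theorem Emb.up (x y : M) : j.i (WCal.up x y) = WCal.up (j.i x) (j.i y) := by
  refine img_eq j _ _ (fun z hz => ?_) fun w hw => ?_
  · rcases E_up.1 hz with rfl | rfl
    · exact E_up.2 (Or.inl rfl)
    · exact E_up.2 (Or.inr rfl)
  · rcases E_up.1 hw with rfl | rfl
    · exact ⟨x, E_up.2 (Or.inl rfl), rfl⟩
    · exact ⟨y, E_up.2 (Or.inr rfl), rfl⟩

private theorem Emb.sc (x : M) : j.i (WCal.sc x) = WCal.sc (j.i x) := by
  refine img_eq j _ _ (fun z hz => ?_) fun w hw => ?_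
  · rcases E_sc.1 hz with h | rfl
    · exact E_sc.2 (Or.inl ((j.hE _ _).2 h))
    · exact E_sc.2 (Or.inr rfl)
  · rcases E_sc.1 hw with h | rfl
    · obtain ⟨z, rfl⟩ := j.tr _ _ h
      exact ⟨z, E_sc.2 (Or.inl ((j.hE _ _).1 h)), rfl⟩
    · exact ⟨x, E_sc.2 (Or.inr rfl), rfl⟩

theorem Emb.op (x y : M) : j.i (WCal.op x y) = WCal.op (j.i x) (j.i y) := by
  have h1 := isOP_op x y
  have h2 := isOP_op (j.i x) (j.i y)
  refine img_eq j _ _ (fun z hz => ?_) fun w hw => ?_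
  · rw [h2, up_iff, up_iff, ← Emb.up, ← Emb.up]
    rcases (h1 z).1 hz with h | h
    · exact Or.inl (congrArg j.i (up_iff.1 h))
    · exact Or.inr (congrArg j.i (up_iff.1 h))
  · rw [h2, up_iff, up_iff, ← Emb.up, ← Emb.up] at hw
    rcases hw with h | h
    · exact ⟨_, (h1 _).2 (Or.inl (up_iff.2 rfl)), h⟩
    · exact ⟨_, (h1 _).2 (Or.inr (up_iff.2 rfl)), h⟩

theorem Emb.pr (x y : M) : j.i (WCal.pr x y) = WCal.pr (j.i x) (j.i y) := by
  refine img_eq j _ _ (fun z hz => ?_) fun w hw => ?_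
  · obtain ⟨a, b, ha, hb, rfl⟩ := E_pr.1 hz
    exact E_pr.2 ⟨j.i a, j.i b, (j.hE _ _).2 ha, (j.hE _ _).2 hb, Emb.op j a b⟩
  · obtain ⟨a, b, ha, hb, rfl⟩ := E_pr.1 hw
    obtain ⟨a, rfl⟩ := j.tr _ _ ha
    obtain ⟨b, rfl⟩ := j.tr _ _ hb
    exact ⟨WCal.op a b, E_pr.2 ⟨a, b, (j.hE _ _).1 ha, (j.hE _ _).1 hb, rfl⟩,
      (Emb.op j a b).symm⟩

theorem Emb.nt (n : ℕ) : j.i (WCal.nt M n) = WCal.nt W n := by
  induction n with
  | zero => exact Emb.emp j
  | succ n ih =>
    have h1 : j.i (WCal.nt M (n + 1)) = WCal.sc (j.i (WCal.nt M n)) := Emb.sc j _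
    rw [h1, ih]
    rfl

/-- the codes of a type of `M` as codes in `W` -/
@[reducible] def lft (α : Type v) [WTy M α] : WTy W α where
  cd a := j.i (cd M a)
  inj a b h := cd_inj.1 (j.inj h)
  rg := j.i (rg M α)
  mem_rg x := by
    constructor
    · intro h
      obtain ⟨y, rfl⟩ := j.tr _ _ h
      rw [j.hE, E_rg] at h
      obtain ⟨a, rfl⟩ := h
      exact ⟨a, rfl⟩
    · rintro ⟨a, rfl⟩
      rw [j.hE]
      exact cd_mem a

/-- compatible codes -/
class Cmp (α : Type v) [WTy M α] [WTy W α] : Prop where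
  eq : ∀ a : α, cd W a = j.i (cd M a)

theorem Cmp.lft (α : Type v) [WTy M α] : @Cmp M W _ _ j α _ (lft j α) :=
  @Cmp.mk M W _ _ j α _ (WCal.lft j α) fun _ => rfl

instance instCmpNat : Cmp j ℕ := ⟨fun n => (j.nt n).symm⟩

instance instCmpProd {α : Type v} {β : Type w} [WTy M α] [WTy W α] [WTy M β] [WTy W β] [Cmp j α]
    [Cmp j β] : Cmp j (α × β) := by
  refine ⟨fun p => ?_⟩
  have h1 : cd W p = WCal.op (cd W p.1) (cd W p.2) := rfl
  have h2 : cd M p = WCal.op (cd M p.1) (cd M p.2) := rfl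
  rw [h1, h2, Emb.op, Cmp.eq (j := j) p.1, Cmp.eq (j := j) p.2]

instance instCmpProp : Cmp j Prop := by
  classical
  refine ⟨fun p => ?_⟩
  by_cases hp : p
  · have h1 : cd W p = WCal.nt W 1 := if_pos hp
    have h2 : cd M p = WCal.nt M 1 := if_pos hp
    rw [h1, h2, Emb.nt]
  · have h1 : cd W p = WCal.nt W 0 := if_neg hp
    have h2 : cd M p = WCal.nt M 0 := if_neg hp
    rw [h1, h2, Emb.nt]

instance instCmpBool : Cmp j Bool := ⟨fun b => (j.nt b.toNat).symm⟩

instance instCmpRat : Cmp j ℚ := ⟨fun q => (j.nt (qe q)).symm⟩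

instance instCmpOption {α : Type v} [WTy M α] [WTy W α] [Cmp j α] : Cmp j (Option α) := by
  refine ⟨fun a => ?_⟩
  cases a with
  | none => exact (Emb.emp j).symm
  | some a =>
    have h1 : cd W (some a) = WCal.up (cd W a) (cd W a) := rfl
    have h2 : cd M (some a) = WCal.up (cd M a) (cd M a) := rfl
    rw [h1, h2, Emb.up, Cmp.eq (j := j) a]

instance instCmpSum {α : Type v} {β : Type w} [WTy M α] [WTy W α] [WTy M β] [WTy W β] [Cmp j α]
    [Cmp j β] : Cmp j (α ⊕ β) := by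
  refine ⟨fun a => ?_⟩
  cases a with
  | inl a =>
    have h1 : cd W (Sum.inl a : α ⊕ β) = WCal.op (WCal.nt W 0) (cd W a) := rfl
    have h2 : cd M (Sum.inl a : α ⊕ β) = WCal.op (WCal.nt M 0) (cd M a) := rfl
    rw [h1, h2, Emb.op, Emb.nt, Cmp.eq (j := j) a]
  | inr a =>
    have h1 : cd W (Sum.inr a : α ⊕ β) = WCal.op (WCal.nt W 1) (cd W a) := rfl
    have h2 : cd M (Sum.inr a : α ⊕ β) = WCal.op (WCal.nt M 1) (cd M a) := rfl
    rw [h1, h2, Emb.op, Emb.nt, Cmp.eq (j := j) a]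

instance instCmpList {α : Type v} [WTy M α] [WTy W α] [Cmp j α] : Cmp j (List α) := by
  refine ⟨fun l => (img_eq j _ _ (fun z hz => ?_) fun w hw => ?_).symm⟩
  · obtain ⟨i, a, hi, rfl⟩ := (cd_list l z).1 hz
    refine (cd_list l _).2 ⟨i, a, hi, ?_⟩
    rw [Emb.op, Emb.nt, Cmp.eq (j := j) a]
  · obtain ⟨i, a, hi, rfl⟩ := (cd_list l w).1 hw
    refine ⟨_, (cd_list l _).2 ⟨i, a, hi, rfl⟩, ?_⟩
    rw [Emb.op, Emb.nt, Cmp.eq (j := j) a]

instance instCmpFinset {α : Type v} [WTy M α] [WTy W α] [Cmp j α] : Cmp j (Finset α) := by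
  refine ⟨fun s => (img_eq j _ _ (fun z hz => ?_) fun w hw => ?_).symm⟩
  · obtain ⟨a, ha, rfl⟩ := (cd_fin s z).1 hz
    exact (cd_fin s _).2 ⟨a, ha, Cmp.eq (j := j) a⟩
  · obtain ⟨a, ha, rfl⟩ := (cd_fin s w).1 hw
    exact ⟨_, (cd_fin s _).2 ⟨a, ha, rfl⟩, Cmp.eq (j := j) a⟩

section

variable {α : Type v} {β : Type w} [WTy M α] [WTy W α] [WTy M β] [WTy W β] [Cmp j α] [Cmp j β]

include j

theorem IP.lift {P : α → Prop} (h : IP M P) : IP W P := by
  obtain ⟨s, hs⟩ := h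
  refine ⟨j.i s, fun a => ?_⟩
  rw [Cmp.eq (j := j) a, j.hE]
  exact hs a

theorem IF.lift {f : α → β} (h : IF M f) : IF W f :=
  IP.lift j h

theorem Emb.std [Std M] : Std W where
  lt := IP.lift j Std.lt
  add := IF.lift j Std.add
  mul := IF.lift j Std.mul
  neg := IF.lift j Std.neg
  nat := IF.lift j Std.nat

theorem IR.lift [Std M] {f : α → ℝ} (h : IR M f) : IR W f :=
  IP.lift j h

/-- an internal set of the smaller model -/
def stUp (S : St M α) : St W α := ⟨S.s, IP.lift j S.int⟩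

/-- an internal function of the smaller model -/
def fnUp (F : Fn M α β) : Fn W α β := ⟨F.f, IF.lift j F.int⟩

omit [Cmp j α] [Cmp j β] [WTy M α] [WTy W α] [WTy M β] [WTy W β] in
private theorem IF.of_cd {γ δ : Type*} [WTy M γ] [WTy W δ] (f : γ → δ)
    (hf : ∀ c, cd W (f c) = j.i (cd M c)) : @IF W _ γ δ (WCal.lft j γ) _ f := by
  let _ : WTy W γ := WCal.lft j γ
  refine IP.of_sat (Fml.ex (fOP 1 0 0)) (fun _ => emp) ?_
  rintro ⟨c, d⟩
  simp only [sat_ex, sat_fOP, cns_zero, cns_one]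
  have h1 : cd W (c, d) = WCal.op (j.i (cd M c)) (cd W d) := rfl
  rw [h1]
  constructor
  · intro h
    refine ⟨cd W d, isOP_iff.2 ?_⟩
    rw [← h, hf c]
  · rintro ⟨x, hx⟩
    obtain ⟨h2, h3⟩ := op_inj.1 (isOP_iff.1 hx)
    refine (cd_inj (N := W)).1 ?_
    rw [hf c, h2, ← h3]

/-- the internal subsets in the sense of `M`, as a type of `W`: the inclusion is internal -/
theorem IF.stUp : @IF W _ (St M α) (St W α) (WCal.lft j (St M α)) _ (WCal.stUp j) := by
  refine IF.of_cd j _ fun S => (img_eq j _ _ (fun z hz => ?_) fun w hw => ?_).symm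
  · obtain ⟨a, ha, rfl⟩ := (cd_st M S z).1 hz
    exact (cd_st W _ _).2 ⟨a, ha, Cmp.eq (j := j) a⟩
  · obtain ⟨a, ha, rfl⟩ := (cd_st W _ w).1 hw
    exact ⟨_, (cd_st M S _).2 ⟨a, ha, rfl⟩, Cmp.eq (j := j) a⟩

theorem IF.fnUp : @IF W _ (Fn M α β) (Fn W α β) (WCal.lft j (Fn M α β)) _ (WCal.fnUp j) := by
  have hc : ∀ (a : α) (b : β), j.i (WCal.op (cd M a) (cd M b)) = WCal.op (cd W a) (cd W b) := by
    intro a b
    rw [Emb.op, Cmp.eq (j := j) a, Cmp.eq (j := j) b]
  refine IF.of_cd j _ fun F => (img_eq j _ _ (fun z hz => ?_) fun w hw => ?_).symm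
  · obtain ⟨a, rfl⟩ := (cd_fn M F z).1 hz
    exact (cd_fn W _ _).2 ⟨a, hc a (F a)⟩
  · obtain ⟨a, rfl⟩ := (cd_fn W _ w).1 hw
    exact ⟨_, (cd_fn M F _).2 ⟨a, rfl⟩, (hc a (F a)).symm⟩

end

end WCal
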