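import Pool.Agent.WCal.CloF

/-! # Natural numbers: order and recursion

(problem MP_ba5606_gt, ARH Part II, block 0; architect helper69)

PROOFS. Codes of natural numbers are `nt N n`; `E (nt N m) (nt N n) ↔ m < n` (`E_nt`).
* `IP.lt`: `IP.of_sat` with the formula `∃ m n, IsOP p m n ∧ m ∈ n`. `IP.le`: negation of `lt` with exchanged arguments.
* `IF.succ`: `n' = n + 1` iff `∀ k, k < n' ↔ (k < n ∨ k = n)` (typed closure lemmas).
* `IF.natRec`: let `R c k` be the value of the recursion. `R c n = y` iff there is `S : St N (ℕ × β)` with: `(n, y) ∈ S`, and every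
  `(k, z) ∈ S` is `(0, b c)` or of the form `(k' + 1, g c k' z')` with `(k', z') ∈ S`. (If such an `S` exists then `z = R c k` for all
  `(k, z) ∈ S` by induction on `k`; conversely `S = {(k, R c k) | k ≤ n}` is a finite set, so internal by `IP.finite`.) This is an internal
  predicate of `((c, n), y)` by the closure lemmas (quantifiers over `St N (ℕ × β)`, `β`, `ℕ`; `IP.mem`).
* `IF.iter`: special case. `IF.add`, `IF.mul`: recursion. `IP.natRel`: use it for concrete relations.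
* `IF.find`: the least `n` with `P a n` is an internal function of `a`. -/

universe u v w x

namespace WCal

open STP WM

variable {N : Type u} [WM N] {α : Type v} {β : Type w} {γ : Type x} [WTy N α] [WTy N β] [WTy N γ]

private theorem pfst {f : α → β × γ} (hf : IF N f) : IF N (fun a => (f a).1) :=
  IF.comp IF.fst hf

private theorem psnd {f : α → β × γ} (hf : IF N f) : IF N (fun a => (f a).2) :=
  IF.comp IF.snd hf

private theorem lt2 : IP N (fun p : ℕ × ℕ => p.1 < p.2) := by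
  refine IP.of_sat (Fml.ex (Fml.ex (Fml.an (fOP 2 1 0) (.mem 1 0)))) (fun _ => emp) ?_
  intro p
  simp only [sat_ex, sat_an, sat_fOP, sat_mem, cns_zero, cns_one, cns_two]
  constructor
  · intro h
    refine ⟨nt N p.1, nt N p.2, isOP_op _ _, E_nt.2 ⟨p.1, h, rfl⟩⟩
  · rintro ⟨x, y, h, h'⟩
    have h1 : op (nt N p.1) (nt N p.2) = op x y := isOP_iff.1 h
    obtain ⟨rfl, rfl⟩ := op_inj.1 h1
    obtain ⟨m, hm, hm'⟩ := E_nt.1 h'
    have h2 : p.1 = m := nt_inj hm'
    rw [h2]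
    exact hm

theorem IP.lt {f g : α → ℕ} (hf : IF N f) (hg : IF N g) : IP N (fun a => f a < g a) := by
  exact IP.comp2 lt2 hf hg

theorem IP.le {f g : α → ℕ} (hf : IF N f) (hg : IF N g) : IP N (fun a => f a ≤ g a) := by
  exact (IP.not (IP.lt hg hf)).congr fun a => not_lt

theorem IF.succ {f : α → ℕ} (hf : IF N f) : IF N (fun a => f a + 1) := by
  refine IF.comp (g := fun n : ℕ => n + 1) ?_ hf
  refine IF.ofP (Q := fun n m => ∀ k, k < m ↔ (k < n ∨ k = n)) ?_ ?_
  · refine IP.all (P := fun (p : ℕ × ℕ) (k : ℕ) => (k < p.2 ↔ (k < p.1 ∨ k = p.1))) ?_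
    exact IP.iff (IP.lt IF.snd (psnd IF.fst))
      (IP.or (IP.lt IF.snd (pfst IF.fst)) (IP.eq IF.snd (pfst IF.fst)))
  · intro a b
    constructor
    · intro h
      have h1 := (h a).2 (Or.inr rfl)
      by_contra hc
      have h2 := (h (a + 1)).1 (by omega)
      omega
    · rintro rfl k
      omega

theorem IF.natRec {b : γ → β} {g : γ → ℕ → β → β} (hb : IF N b)
    (hg : IF N (fun p : γ × ℕ × β => g p.1 p.2.1 p.2.2)) :
    IF N (fun p : γ × ℕ => (Nat.rec (b p.1) (fun n y => g p.1 n y) p.2 : β)) := by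
  refine IF.ofP (Q := fun (p : γ × ℕ) (y : β) => ∃ S : St N (ℕ × β), (p.2, y) ∈ S ∧
    ∀ q : ℕ × β, q ∈ S → (q.1 = 0 ∧ q.2 = b p.1) ∨
      ∃ q' : ℕ × β, q' ∈ S ∧ (q.1 = q'.1 + 1 ∧ q.2 = g p.1 q'.1 q'.2)) ?_ ?_
  · refine IP.ex (P := fun (t : (γ × ℕ) × β) (S : St N (ℕ × β)) => (t.1.2, t.2) ∈ S ∧
      ∀ q : ℕ × β, q ∈ S → (q.1 = 0 ∧ q.2 = b t.1.1) ∨
      ∃ q' : ℕ × β, q' ∈ S ∧ (q.1 = q'.1 + 1 ∧ q.2 = g t.1.1 q'.1 q'.2)) ?_
    refine IP.and ?_ ?_
    · exact IP.mem (IF.pair (psnd (pfst IF.fst)) (psnd IF.fst)) IF.snd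
    · refine IP.ball (f := fun t : ((γ × ℕ) × β) × St N (ℕ × β) => t.2)
        (P := fun t q => (q.1 = 0 ∧ q.2 = b t.1.1.1) ∨
          ∃ q' : ℕ × β, q' ∈ t.2 ∧ (q.1 = q'.1 + 1 ∧ q.2 = g t.1.1.1 q'.1 q'.2)) IF.snd ?_
      refine IP.or (IP.and (IP.eq (pfst IF.snd) (IF.const 0))
        (IP.eq (psnd IF.snd) (IF.comp hb (pfst (pfst (pfst IF.fst)))))) ?_
      refine IP.bex (f := fun u : (((γ × ℕ) × β) × St N (ℕ × β)) × (ℕ × β) => u.1.2)
        (P := fun u q' => (u.2.1 = q'.1 + 1 ∧ u.2.2 = g u.1.1.1.1 q'.1 q'.2)) (psnd IF.fst) ?_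
      refine IP.and (IP.eq (pfst (psnd IF.fst)) (IF.succ (pfst IF.snd))) ?_
      exact IP.eq (psnd (psnd IF.fst)) (IF.comp hg
        (IF.pair (pfst (pfst (pfst (pfst IF.fst)))) (IF.pair (pfst IF.snd) (psnd IF.snd))))
  · rintro ⟨c, n⟩ y
    constructor
    · rintro ⟨S, hS, hS'⟩
      have key : ∀ (k : ℕ) (z : β), (k, z) ∈ S →
          (Nat.rec (b c) (fun n y => g c n y) k : β) = z := by
        intro k
        induction k with
        | zero =>
          intro z hz
          rcases hS' _ hz with ⟨-, h⟩ | ⟨q', -, h, -⟩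
          · exact h.symm
          · exact absurd h (by simp)
        | succ k ih =>
          intro z hz
          rcases hS' _ hz with ⟨h, -⟩ | ⟨⟨k', z'⟩, hq, h, h'⟩
          · exact absurd h (by simp)
          · have h1 : k = k' := by
              have h2 : k + 1 = k' + 1 := h
              omega
            subst h1
            have h3 := ih z' hq
            have h4 : z = g c k z' := h'
            rw [h4, ← h3]
      exact key n y hS
    · intro h
      refine ⟨⟨{q | q.1 ≤ n ∧ (Nat.rec (b c) (fun n y => g c n y) q.1 : β) = q.2},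
        IP.finite ?_⟩, ?_, ?_⟩
      · refine ((Set.finite_Iic n).image fun k =>
          (k, (Nat.rec (b c) (fun n y => g c n y) k : β))).subset ?_
        rintro ⟨k, z⟩ ⟨hk, hz⟩
        exact ⟨k, hk, Prod.ext rfl hz⟩
      · exact ⟨le_rfl, h⟩
      · rintro ⟨k, z⟩ ⟨hk, hz⟩
        have hk : k ≤ n := hk
        have hz : (Nat.rec (b c) (fun n y => g c n y) k : β) = z := hz
        cases k with
        | zero => exact Or.inl ⟨rfl, hz.symm⟩
        | succ k =>
          exact Or.inr ⟨(k, (Nat.rec (b c) (fun n y => g c n y) k : β)),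
            ⟨by change k ≤ n; omega, rfl⟩, rfl, hz.symm⟩

theorem IF.iter {g : β → β} (hg : IF N g) (b : β) : IF N (fun n : ℕ => g^[n] b) := by
  have h := IF.natRec (N := N) (γ := ℕ) (β := β) (b := fun _ => b) (g := fun _ _ y => g y)
    (IF.const b) (IF.comp hg (psnd IF.snd))
  have h1 := IF.sec (f := fun (_ : ℕ) (n : ℕ) => (Nat.rec b (fun _ y => g y) n : β)) h 0
  refine IF.congr (fun n => ?_) h1
  induction n with
  | zero => rfl
  | succ n ih =>
    rw [Function.iterate_succ_apply', ← ih]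

theorem IF.add {f g : α → ℕ} (hf : IF N f) (hg : IF N g) : IF N (fun a => f a + g a) := by
  have h := IF.natRec (N := N) (γ := ℕ) (β := ℕ) (b := fun c => c) (g := fun _ _ y => y + 1)
    IF.id (IF.succ (psnd IF.snd))
  have h1 : IF N (fun p : ℕ × ℕ => p.1 + p.2) := by
    refine IF.congr ?_ h
    rintro ⟨c, n⟩
    induction n with
    | zero => rfl
    | succ n ih =>
      change (Nat.rec c (fun _ y => y + 1) n : ℕ) + 1 = c + (n + 1)
      change (Nat.rec c (fun _ y => y + 1) n : ℕ) = c + n at ih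
      rw [ih, Nat.add_assoc]
  exact IF.comp2 h1 hf hg

theorem IF.mul {f g : α → ℕ} (hf : IF N f) (hg : IF N g) : IF N (fun a => f a * g a) := by
  have h := IF.natRec (N := N) (γ := ℕ) (β := ℕ) (b := fun _ => 0) (g := fun c _ y => y + c)
    (IF.const 0) (IF.add (psnd IF.snd) IF.fst)
  have h1 : IF N (fun p : ℕ × ℕ => p.1 * p.2) := by
    refine IF.congr ?_ h
    rintro ⟨c, n⟩
    induction n with
    | zero => rfl
    | succ n ih =>
      change (Nat.rec 0 (fun _ y => y + c) n : ℕ) + c = c * (n + 1)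
      change (Nat.rec 0 (fun _ y => y + c) n : ℕ) = c * n at ih
      rw [ih, Nat.mul_succ]
  exact IF.comp2 h1 hf hg

theorem IF.sub {f g : α → ℕ} (hf : IF N f) (hg : IF N g) : IF N (fun a => f a - g a) := by
  have h1 : IF N (fun p : ℕ × ℕ => p.1 - p.2) := by
    refine IF.ofP (Q := fun (p : ℕ × ℕ) (y : ℕ) => (p.1 ≤ p.2 ∧ y = 0) ∨ (p.2 ≤ p.1 ∧ p.2 + y = p.1))
      ?_ ?_
    · exact IP.or (IP.and (IP.le (pfst IF.fst) (psnd IF.fst)) (IP.eq IF.snd (IF.const 0)))
        (IP.and (IP.le (psnd IF.fst) (pfst IF.fst))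
          (IP.eq (IF.add (psnd IF.fst) IF.snd) (pfst IF.fst)))
    · intro p y
      omega
  exact IF.comp2 h1 hf hg

theorem IF.pow {f g : α → ℕ} (hf : IF N f) (hg : IF N g) : IF N (fun a => f a ^ g a) := by
  have h := IF.natRec (N := N) (γ := ℕ) (β := ℕ) (b := fun _ => 1) (g := fun c _ y => y * c)
    (IF.const 1) (IF.mul (psnd IF.snd) IF.fst)
  have h1 : IF N (fun p : ℕ × ℕ => p.1 ^ p.2) := by
    refine IF.congr ?_ h
    rintro ⟨c, n⟩
    induction n with
    | zero => rfl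
    | succ n ih =>
      change (Nat.rec 1 (fun _ y => y * c) n : ℕ) * c = c ^ (n + 1)
      change (Nat.rec 1 (fun _ y => y * c) n : ℕ) = c ^ n at ih
      rw [ih, Nat.pow_succ]
  exact IF.comp2 h1 hf hg

theorem IF.div {f g : α → ℕ} (hf : IF N f) (hg : IF N g) : IF N (fun a => f a / g a) := by
  have h1 : IF N (fun p : ℕ × ℕ => p.1 / p.2) := by
    refine IF.ofP (Q := fun (p : ℕ × ℕ) (y : ℕ) => (p.2 = 0 ∧ y = 0) ∨
      (0 < p.2 ∧ y * p.2 ≤ p.1 ∧ p.1 < (y + 1) * p.2)) ?_ ?_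
    · refine IP.or (IP.and (IP.eq (psnd IF.fst) (IF.const 0)) (IP.eq IF.snd (IF.const 0))) ?_
      refine IP.and (IP.lt (IF.const 0) (psnd IF.fst)) (IP.and ?_ ?_)
      · exact IP.le (IF.mul IF.snd (psnd IF.fst)) (pfst IF.fst)
      · exact IP.lt (pfst IF.fst) (IF.mul (IF.succ IF.snd) (psnd IF.fst))
    · rintro ⟨a, b⟩ y
      change ((b = 0 ∧ y = 0) ∨ (0 < b ∧ y * b ≤ a ∧ a < (y + 1) * b)) ↔ a / b = y
      constructor
      · rintro (⟨rfl, rfl⟩ | ⟨h0, h1, h2⟩)
        · exact Nat.div_zero a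
        · refine le_antisymm ?_ ((Nat.le_div_iff_mul_le h0).2 h1)
          exact Nat.lt_succ_iff.1 ((Nat.div_lt_iff_lt_mul h0).2 h2)
      · rintro rfl
        rcases Nat.eq_zero_or_pos b with rfl | h0
        · exact Or.inl ⟨rfl, Nat.div_zero a⟩
        · refine Or.inr ⟨h0, Nat.div_mul_le_self a b, ?_⟩
          exact (Nat.div_lt_iff_lt_mul h0).1 (Nat.lt_succ_self _)
  exact IF.comp2 h1 hf hg

theorem IF.mod {f g : α → ℕ} (hf : IF N f) (hg : IF N g) : IF N (fun a => f a % g a) := by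
  refine IF.congr (fun a => (Nat.mod_eq_sub (f a) (g a)).symm) ?_
  exact IF.sub hf (IF.mul hg (IF.div hf hg))

theorem IF.npair {f g : α → ℕ} (hf : IF N f) (hg : IF N g) : IF N (fun a => Nat.pair (f a) (g a)) := by
  classical
  refine IF.congr (fun a => ?_) (IF.ite (IP.lt hf hg) (IF.add (IF.mul hg hg) hf)
    (IF.add (IF.add (IF.mul hf hf) hf) hg))
  unfold Nat.pair
  by_cases h : f a < g a
  · rw [if_pos h, if_pos h]
  · rw [if_neg h, if_neg h]

private theorem unp : IF N (fun n : ℕ => Nat.unpair n) := by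
  refine IF.inv (f := fun p : ℕ × ℕ => Nat.pair p.1 p.2) (IF.npair IF.fst IF.snd) ?_ ?_
  · rintro ⟨a, b⟩
    exact Nat.unpair_pair a b
  · intro b
    exact Nat.pair_unpair b

theorem IF.unpair1 {f : α → ℕ} (hf : IF N f) : IF N (fun a => (Nat.unpair (f a)).1) := by
  exact pfst (IF.comp unp hf)

theorem IF.unpair2 {f : α → ℕ} (hf : IF N f) : IF N (fun a => (Nat.unpair (f a)).2) := by
  exact psnd (IF.comp unp hf)

theorem IF.find {P : α → ℕ → Prop} (hP : IP N (fun p : α × ℕ => P p.1 p.2)) (h : ∀ a, ∃ n, P a n) :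
    IF N (fun a => sInf {n | P a n}) := by
  refine IF.ofP (Q := fun (a : α) (y : ℕ) => P a y ∧ ∀ k, k < y → ¬ P a k) ?_ ?_
  · refine IP.and hP ?_
    refine IP.all (P := fun (p : α × ℕ) (k : ℕ) => k < p.2 → ¬ P p.1 k) ?_
    refine IP.imp (IP.lt IF.snd (psnd IF.fst)) (IP.not ?_)
    exact IP.comp hP (IF.pair (pfst IF.fst) IF.snd)
  · intro a y
    constructor
    · rintro ⟨h1, h2⟩
      refine le_antisymm (Nat.sInf_le h1) ?_
      by_contra hc
      exact h2 _ (not_le.1 hc) (Nat.sInf_mem (h a))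
    · rintro rfl
      exact ⟨Nat.sInf_mem (h a), fun k hk => Nat.notMem_of_lt_sInf hk⟩

end WCal
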